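import Mathlib

set_option autoImplicit false

namespace Pool.Agent.Helper30.F9

open Real Metric Set MeasureTheory Filter Topology

/-- Cauchy-type integral over the line `Im = y0`. -/
noncomputable def KK (φ : ℝ → ℂ) (y0 : ℝ) (s : ℂ) : ℂ :=
  ∫ x : ℝ, φ x / ((x : ℂ) + (y0 : ℂ) * Complex.I - s)

lemma dist_line (y0 x : ℝ) (s : ℂ) : |y0 - s.im| ≤ ‖(x : ℂ) + (y0 : ℂ) * Complex.I - s‖ := by
  have h := Complex.abs_im_le_norm ((x : ℂ) + (y0 : ℂ) * Complex.I - s)
  simpa using h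

lemma meas_kernel (φ : ℝ → ℂ) (hφ : AEStronglyMeasurable φ volume) (y0 : ℝ) (s : ℂ) (n : ℕ) :
    AEStronglyMeasurable (fun x : ℝ => φ x / ((x : ℂ) + (y0 : ℂ) * Complex.I - s) ^ n) volume := by
  have h1 : Measurable (fun x : ℝ => (((x : ℂ) + (y0 : ℂ) * Complex.I - s) ^ n)⁻¹) := by
    apply Measurable.inv
    apply Continuous.measurable
    fun_prop
  simp only [div_eq_mul_inv]
  exact hφ.mul h1.aestronglyMeasurable

lemma KK_diff {φ : ℝ → ℂ} (hφ : Integrable φ) {y0 : ℝ} {s : ℂ} (hs : s.im ≠ y0) :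
    DifferentiableAt ℂ (KK φ y0) s := by
  set δ : ℝ := |y0 - s.im| / 2 with hδ
  have hδ0 : 0 < δ := by
    rw [hδ]
    have : 0 < |y0 - s.im| := abs_pos.mpr (sub_ne_zero.mpr (Ne.symm hs))
    linarith
  have hlow : ∀ s' ∈ ball s δ, ∀ x : ℝ, δ ≤ ‖(x : ℂ) + (y0 : ℂ) * Complex.I - s'‖ := by
    intro s' hs' x
    refine le_trans ?_ (dist_line y0 x s')
    rw [mem_ball, dist_eq_norm] at hs'
    have h1 : |s'.im - s.im| ≤ ‖s' - s‖ := by
      have := Complex.abs_im_le_norm (s' - s)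
      simpa using this
    have h2 : |y0 - s.im| ≤ |y0 - s'.im| + |s'.im - s.im| := by
      have : y0 - s.im = (y0 - s'.im) + (s'.im - s.im) := by ring
      rw [this]
      exact abs_add_le _ _
    linarith
  have hne : ∀ s' ∈ ball s δ, ∀ x : ℝ, (x : ℂ) + (y0 : ℂ) * Complex.I - s' ≠ 0 := by
    intro s' hs' x
    rw [← norm_pos_iff]
    exact hδ0.trans_le (hlow s' hs' x)
  have hm := hφ.aestronglyMeasurable
  have hbI : Integrable (fun x => ‖φ x‖ / δ ^ 2) := hφ.norm.div_const _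
  refine (hasDerivAt_integral_of_dominated_loc_of_deriv_le (𝕜 := ℂ) (μ := volume)
    (F := fun s' x => φ x / ((x : ℂ) + (y0 : ℂ) * Complex.I - s'))
    (F' := fun s' x => φ x / ((x : ℂ) + (y0 : ℂ) * Complex.I - s') ^ 2)
    (bound := fun x => ‖φ x‖ / δ ^ 2) (s := ball s δ) (ball_mem_nhds s hδ0) ?_ ?_ ?_ ?_ hbI
    ?_).2.differentiableAt
  · refine Eventually.of_forall ?_
    intro s'
    have := meas_kernel φ hm y0 s' 1
    simpa using this
  · refine Integrable.mono' (hφ.norm.div_const δ) ?_ ?_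
    · have := meas_kernel φ hm y0 s 1
      simpa using this
    · refine ae_of_all _ ?_
      intro x
      rw [norm_div]
      exact div_le_div_of_nonneg_left (norm_nonneg _) hδ0 (hlow s (mem_ball_self hδ0) x)
  · exact meas_kernel φ hm y0 s 2
  · refine ae_of_all _ ?_
    intro x s' hs'
    rw [norm_div, norm_pow]
    exact div_le_div_of_nonneg_left (norm_nonneg _) (by positivity)
      (pow_le_pow_left₀ hδ0.le (hlow s' hs' x) 2)
  · refine ae_of_all _ ?_
    intro x s' hs'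
    have h1 : HasDerivAt (fun s' : ℂ => (x : ℂ) + (y0 : ℂ) * Complex.I - s') (-1) s' := by
      simpa using (hasDerivAt_id s').const_sub ((x : ℂ) + (y0 : ℂ) * Complex.I)
    have h2 := (h1.fun_inv (hne s' hs' x)).const_mul (φ x)
    have h3 : φ x / ((x : ℂ) + (y0 : ℂ) * Complex.I - s') ^ 2 =
        φ x * (-(-1) / ((x : ℂ) + (y0 : ℂ) * Complex.I - s') ^ 2) := by ring
    rw [h3]
    simp only [div_eq_mul_inv] at h2 ⊢
    exact h2

lemma KK_decay {φ : ℝ → ℂ} (hφ : Integrable φ) {y0 : ℝ} {ε : ℝ} (hε : 0 < ε) :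
    ∃ R : ℝ, ∀ s : ℂ, 1 / 4 ≤ |y0 - s.im| → R ≤ ‖s‖ → ‖KK φ y0 s‖ ≤ ε := by
  set l : Filter ℂ := comap (fun s : ℂ => ‖s‖) atTop ⊓ 𝓟 {s : ℂ | 1 / 4 ≤ |y0 - s.im|} with hl
  have hm := hφ.aestronglyMeasurable
  have ht : Tendsto (KK φ y0) l (𝓝 (∫ _ : ℝ, (0 : ℂ))) := by
    refine tendsto_integral_filter_of_dominated_convergence (fun x => ‖φ x‖ * 4) ?_ ?_
      (hφ.norm.mul_const 4) ?_
    · refine Eventually.of_forall ?_
      intro s'
      have := meas_kernel φ hm y0 s' 1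
      simpa using this
    · have h1 : ∀ᶠ s in l, 1 / 4 ≤ |y0 - s.im| := by
        rw [hl]
        exact Eventually.filter_mono inf_le_right (eventually_principal.mpr fun s hs => hs)
      filter_upwards [h1] with s hs
      refine ae_of_all _ ?_
      intro x
      have h2 := hs.trans (dist_line y0 x s)
      rw [norm_div, div_le_iff₀ (by linarith)]
      have := norm_nonneg (φ x)
      nlinarith
    · refine ae_of_all _ ?_
      intro x
      have h1 : Tendsto (fun s : ℂ => ‖(x : ℂ) + (y0 : ℂ) * Complex.I - s‖) l atTop := by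
        have h2 : Tendsto (fun s : ℂ => ‖s‖ - ‖(x : ℂ) + (y0 : ℂ) * Complex.I‖) l atTop := by
          apply tendsto_atTop_add_const_right
          exact tendsto_comap.mono_left inf_le_left
        refine tendsto_atTop_mono ?_ h2
        intro s
        have := norm_sub_norm_le s ((x : ℂ) + (y0 : ℂ) * Complex.I)
        rwa [norm_sub_rev] at this
      rw [tendsto_zero_iff_norm_tendsto_zero]
      simp only [norm_div]
      exact h1.const_div_atTop _
  rw [integral_zero] at ht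
  have h3 : ∀ᶠ s in l, ‖KK φ y0 s‖ ≤ ε := by
    have := (tendsto_zero_iff_norm_tendsto_zero.mp ht)
    exact ((tendsto_order.mp this).2 ε hε).mono fun s hs => hs.le
  rw [hl, eventually_inf_principal, eventually_comap] at h3
  obtain ⟨R, hR⟩ := eventually_atTop.mp h3
  exact ⟨R, fun s hs hRs => hR ‖s‖ hRs s rfl hs⟩

lemma int_cauchy {a : ℝ} (ha : 0 < a) : Integrable (fun u : ℝ => a / (u ^ 2 + a ^ 2)) ∧
    ∫ u : ℝ, a / (u ^ 2 + a ^ 2) = π := by
  have e : (fun u : ℝ => a / (u ^ 2 + a ^ 2)) = fun u : ℝ => a⁻¹ * (1 + (u / a) ^ 2)⁻¹ := by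
    funext u
    have h1 : u ^ 2 + a ^ 2 ≠ 0 := by positivity
    have h2 : 1 + (u / a) ^ 2 ≠ 0 := by positivity
    field_simp
    ring
  rw [e]
  constructor
  · apply Integrable.const_mul
    exact integrable_inv_one_add_sq.comp_div ha.ne'
  · rw [integral_const_mul, Measure.integral_comp_div (fun y : ℝ => (1 + y ^ 2)⁻¹) a,
      integral_univ_inv_one_add_sq, abs_of_pos ha]
    simp only [smul_eq_mul]
    field_simp

lemma inv_split {a : ℝ} (ha : a ≠ 0) (u : ℝ) :
    ((u : ℂ) - (a : ℂ) * Complex.I)⁻¹ = ((u / (u ^ 2 + a ^ 2) : ℝ) : ℂ) +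
      ((a / (u ^ 2 + a ^ 2) : ℝ) : ℂ) * Complex.I := by
  have h0 : u ^ 2 + a ^ 2 ≠ 0 := by positivity
  have h1 : ((u : ℂ) ^ 2 + (a : ℂ) ^ 2) ≠ 0 := by exact_mod_cast h0
  have h3 : ((u : ℂ) - (a : ℂ) * Complex.I) * ((u : ℂ) + (a : ℂ) * Complex.I) =
      (u : ℂ) ^ 2 + (a : ℂ) ^ 2 := by
    linear_combination (-(a : ℂ) ^ 2) * Complex.I_sq
  have h2 : ((u : ℂ) - (a : ℂ) * Complex.I) ≠ 0 := by
    intro h
    rw [h, zero_mul] at h3
    exact h1 h3.symm
  rw [inv_eq_iff_eq_inv, eq_comm, inv_eq_iff_eq_inv, eq_comm]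
  symm
  apply eq_inv_of_mul_eq_one_right
  push_cast
  rw [div_mul_eq_mul_div, ← add_div, mul_div_assoc', h3, div_self h1]

/-- The integral of the difference of the two Cauchy kernels. -/
lemma int_kernel {a b : ℝ} (ha : 0 < a) (hb : 0 < b) :
    Integrable (fun u : ℝ => ((u : ℂ) - (a : ℂ) * Complex.I)⁻¹ - ((u : ℂ) + (b : ℂ) * Complex.I)⁻¹) ∧
    ∫ u : ℝ, (((u : ℂ) - (a : ℂ) * Complex.I)⁻¹ - ((u : ℂ) + (b : ℂ) * Complex.I)⁻¹) =
      2 * π * Complex.I := by
  have hA := int_cauchy ha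
  have hB := int_cauchy hb
  set ψ : ℝ → ℝ := fun u => u / (u ^ 2 + a ^ 2) - u / (u ^ 2 + b ^ 2) with hψ
  have e : (fun u : ℝ => ((u : ℂ) - (a : ℂ) * Complex.I)⁻¹ - ((u : ℂ) + (b : ℂ) * Complex.I)⁻¹) =
      fun u : ℝ => ((ψ u : ℝ) : ℂ) +
        ((a / (u ^ 2 + a ^ 2) + b / (u ^ 2 + b ^ 2) : ℝ) : ℂ) * Complex.I := by
    funext u
    have h1 := inv_split ha.ne' u
    have h2 := inv_split (neg_ne_zero.mpr hb.ne') u
    have h3 : ((u : ℂ) - ((-b : ℝ) : ℂ) * Complex.I) = (u : ℂ) + (b : ℂ) * Complex.I := by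
      push_cast
      ring
    rw [h3] at h2
    rw [h1, h2, hψ]
    push_cast
    ring
  have hodd : ∀ u, ψ (-u) = -ψ u := by
    intro u
    simp only [hψ, neg_sq]
    ring
  have hψb : ∀ u, |ψ u| ≤ |b ^ 2 - a ^ 2| / (2 * a) * (b⁻¹ * (b / (u ^ 2 + b ^ 2))) := by
    intro u
    have h1 : 0 < u ^ 2 + a ^ 2 := by positivity
    have h2 : 0 < u ^ 2 + b ^ 2 := by positivity
    have e1 : ψ u = u / (u ^ 2 + a ^ 2) * ((b ^ 2 - a ^ 2) / (u ^ 2 + b ^ 2)) := by
      simp only [hψ]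
      field_simp
      ring
    have e2 : |u / (u ^ 2 + a ^ 2)| ≤ 1 / (2 * a) := by
      rw [abs_div, abs_of_pos h1, div_le_div_iff₀ h1 (by positivity)]
      nlinarith [sq_nonneg (|u| - a), sq_abs u]
    have e3 : |(b ^ 2 - a ^ 2) / (u ^ 2 + b ^ 2)| = |b ^ 2 - a ^ 2| / (u ^ 2 + b ^ 2) := by
      rw [abs_div, abs_of_pos h2]
    rw [e1, abs_mul, e3]
    calc |u / (u ^ 2 + a ^ 2)| * (|b ^ 2 - a ^ 2| / (u ^ 2 + b ^ 2))
        ≤ 1 / (2 * a) * (|b ^ 2 - a ^ 2| / (u ^ 2 + b ^ 2)) :=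
          mul_le_mul_of_nonneg_right e2 (by positivity)
      _ = _ := by field_simp
  have hψi : Integrable ψ := by
    refine Integrable.mono' ((hB.1.const_mul b⁻¹).const_mul (|b ^ 2 - a ^ 2| / (2 * a))) ?_ ?_
    · apply Continuous.aestronglyMeasurable
      have h1 : ∀ u : ℝ, u ^ 2 + a ^ 2 ≠ 0 := fun u => by positivity
      have h2 : ∀ u : ℝ, u ^ 2 + b ^ 2 ≠ 0 := fun u => by positivity
      exact (continuous_id.div (by fun_prop) h1).sub (continuous_id.div (by fun_prop) h2)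
    · refine ae_of_all _ ?_
      intro u
      rw [Real.norm_eq_abs]
      exact hψb u
  have hψ0 : ∫ u, ψ u = 0 := by
    have h1 := integral_neg_eq_self ψ volume
    have h2 : (fun u => ψ (-u)) = fun u => -ψ u := funext hodd
    rw [h2, integral_neg] at h1
    linarith
  rw [e]
  have hi1 : Integrable (fun u : ℝ => ((ψ u : ℝ) : ℂ)) := hψi.ofReal
  have hi2 : Integrable (fun u : ℝ =>
      ((a / (u ^ 2 + a ^ 2) + b / (u ^ 2 + b ^ 2) : ℝ) : ℂ) * Complex.I) :=
    (hA.1.add hB.1).ofReal.mul_const _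
  refine ⟨hi1.add hi2, ?_⟩
  rw [integral_add hi1 hi2, integral_mul_const]
  have h3 : ∫ u : ℝ, ((ψ u : ℝ) : ℂ) = ((∫ u, ψ u : ℝ) : ℂ) := integral_ofReal
  have h4 : ∫ u : ℝ, ((a / (u ^ 2 + a ^ 2) + b / (u ^ 2 + b ^ 2) : ℝ) : ℂ) =
      ((∫ u : ℝ, (a / (u ^ 2 + a ^ 2) + b / (u ^ 2 + b ^ 2)) : ℝ) : ℂ) := integral_ofReal
  rw [h3, h4, hψ0, integral_add hA.1 hB.1, hA.2, hB.2]
  push_cast
  ring

lemma line_integrable {g : ℂ → ℂ} (hg : ∀ s : ℂ, |s.im| < 1 / 2 → DifferentiableAt ℂ g s) {C : ℝ}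
    (hC : ∀ s : ℂ, |s.im| ≤ 1 / 4 → ‖g s‖ ≤ C / (1 + s.re ^ 2)) {y0 : ℝ} (hy : |y0| ≤ 1 / 4) :
    Integrable (fun x : ℝ => g ((x : ℂ) + (y0 : ℂ) * Complex.I)) := by
  refine Integrable.mono' (integrable_inv_one_add_sq.const_mul C) ?_ ?_
  · apply Continuous.aestronglyMeasurable
    rw [continuous_iff_continuousAt]
    intro x
    have h1 : DifferentiableAt ℂ g ((x : ℂ) + (y0 : ℂ) * Complex.I) := by
      apply hg
      simp only [Complex.add_im, Complex.ofReal_im, Complex.mul_im, Complex.ofReal_re, Complex.I_im,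
        mul_one, Complex.I_re, mul_zero, add_zero, zero_add]
      linarith
    have h2 : ContinuousAt (fun x : ℝ => (x : ℂ) + (y0 : ℂ) * Complex.I) x := by fun_prop
    exact ContinuousAt.comp (f := fun x : ℝ => (x : ℂ) + (y0 : ℂ) * Complex.I) h1.continuousAt h2
  · refine ae_of_all _ ?_
    intro x
    have h := hC ((x : ℂ) + (y0 : ℂ) * Complex.I) (by simpa using hy)
    simpa [div_eq_mul_inv] using h

lemma kernel_integrable {φ : ℝ → ℂ} (hφ : Integrable φ) {y0 : ℝ} {s : ℂ} (hs : s.im ≠ y0) :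
    Integrable (fun x : ℝ => φ x / ((x : ℂ) + (y0 : ℂ) * Complex.I - s)) := by
  have h0 : 0 < |y0 - s.im| := abs_pos.mpr (sub_ne_zero.mpr (Ne.symm hs))
  refine Integrable.mono' (hφ.norm.div_const |y0 - s.im|) ?_ ?_
  · have := meas_kernel φ hφ.aestronglyMeasurable y0 s 1
    simpa using this
  · refine ae_of_all _ ?_
    intro x
    rw [norm_div]
    exact div_le_div_of_nonneg_left (norm_nonneg _) h0 (dist_line y0 x s)

/-- The jump relation. -/
theorem K_jump {g : ℂ → ℂ} (hg : ∀ s : ℂ, |s.im| < 1 / 2 → DifferentiableAt ℂ g s) {C : ℝ}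
    (hC : ∀ s : ℂ, |s.im| ≤ 1 / 4 → ‖g s‖ ≤ C / (1 + s.re ^ 2)) {s : ℂ} (hs : |s.im| < 1 / 4) :
    KK (fun x : ℝ => g ((x : ℂ) + ((-(1 / 4) : ℝ) : ℂ) * Complex.I)) (-(1 / 4)) s -
      KK (fun x : ℝ => g ((x : ℂ) + ((1 / 4 : ℝ) : ℂ) * Complex.I)) (1 / 4) s =
      2 * π * Complex.I * g s := by
  have hs' := abs_lt.mp hs
  have iA := line_integrable hg hC (y0 := -(1 / 4)) (by rw [abs_neg, abs_of_pos] <;> norm_num)
  have iB := line_integrable hg hC (y0 := 1 / 4) (by rw [abs_of_pos] <;> norm_num)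
  have nA : s.im ≠ -(1 / 4) := by linarith
  have nB : s.im ≠ 1 / 4 := by linarith
  have kA := kernel_integrable iA nA
  have kB := kernel_integrable iB nB
  have hC0 : 0 ≤ C := by
    have := (norm_nonneg _).trans (hC 0 (by norm_num))
    simpa using this
  obtain ⟨iM, hM⟩ := int_kernel (a := 1 / 4 + s.im) (b := 1 / 4 - s.im) (by linarith) (by linarith)
  have iM' := iM.comp_sub_right s.re
  have hM' : ∫ x : ℝ, ((((x - s.re : ℝ) : ℂ) - ((1 / 4 + s.im : ℝ) : ℂ) * Complex.I)⁻¹ -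
      (((x - s.re : ℝ) : ℂ) + ((1 / 4 - s.im : ℝ) : ℂ) * Complex.I)⁻¹) = 2 * π * Complex.I := by
    rw [← hM]
    exact integral_sub_right_eq_self (fun u : ℝ => ((u : ℂ) - ((1 / 4 + s.im : ℝ) : ℂ) * Complex.I)⁻¹ -
      ((u : ℂ) + ((1 / 4 - s.im : ℝ) : ℂ) * Complex.I)⁻¹) s.re
  have eA : ∀ x : ℝ, ((x - s.re : ℝ) : ℂ) - ((1 / 4 + s.im : ℝ) : ℂ) * Complex.I =
      (x : ℂ) + ((-(1 / 4) : ℝ) : ℂ) * Complex.I - s := by
    intro x
    apply Complex.ext <;> simp
    ring
  have eB : ∀ x : ℝ, ((x - s.re : ℝ) : ℂ) + ((1 / 4 - s.im : ℝ) : ℂ) * Complex.I =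
      (x : ℂ) + ((1 / 4 : ℝ) : ℂ) * Complex.I - s := by
    intro x
    apply Complex.ext <;> simp
  simp_rw [eA, eB] at iM' hM'
  set G : ℂ → ℂ := dslope g s with hG
  have hGne : ∀ ζ : ℂ, ζ ≠ s → G ζ = (g ζ - g s) / (ζ - s) := by
    intro ζ hζ
    rw [hG, dslope_of_ne _ hζ, slope_def_module, smul_eq_mul, div_eq_inv_mul]
  have neA : ∀ x : ℝ, (x : ℂ) + ((-(1 / 4) : ℝ) : ℂ) * Complex.I ≠ s := by
    intro x h
    apply nA
    rw [← h]
    simp
  have neB : ∀ x : ℝ, (x : ℂ) + ((1 / 4 : ℝ) : ℂ) * Complex.I ≠ s := by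
    intro x h
    apply nB
    rw [← h]
    simp
  set D : ℝ → ℂ := fun x => G ((x : ℂ) + ((-(1 / 4) : ℝ) : ℂ) * Complex.I) -
    G ((x : ℂ) + ((1 / 4 : ℝ) : ℂ) * Complex.I) with hD
  have hDeq : D = fun x : ℝ => (g ((x : ℂ) + ((-(1 / 4) : ℝ) : ℂ) * Complex.I) /
      ((x : ℂ) + ((-(1 / 4) : ℝ) : ℂ) * Complex.I - s) -
      g ((x : ℂ) + ((1 / 4 : ℝ) : ℂ) * Complex.I) / ((x : ℂ) + ((1 / 4 : ℝ) : ℂ) * Complex.I - s)) -
      g s * (((x : ℂ) + ((-(1 / 4) : ℝ) : ℂ) * Complex.I - s)⁻¹ -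
        ((x : ℂ) + ((1 / 4 : ℝ) : ℂ) * Complex.I - s)⁻¹) := by
    funext x
    simp only [hD]
    rw [hGne _ (neA x), hGne _ (neB x)]
    simp only [div_eq_mul_inv]
    ring
  have iD : Integrable D := by
    rw [hDeq]
    exact (kA.sub kB).sub (iM'.const_mul _)
  have vD : ∫ x, D x = KK (fun x : ℝ => g ((x : ℂ) + ((-(1 / 4) : ℝ) : ℂ) * Complex.I)) (-(1 / 4)) s -
      KK (fun x : ℝ => g ((x : ℂ) + ((1 / 4 : ℝ) : ℂ) * Complex.I)) (1 / 4) s -
      g s * (2 * π * Complex.I) := by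
    have kAB : Integrable (fun x : ℝ => g ((x : ℂ) + ((-(1 / 4) : ℝ) : ℂ) * Complex.I) /
        ((x : ℂ) + ((-(1 / 4) : ℝ) : ℂ) * Complex.I - s) -
        g ((x : ℂ) + ((1 / 4 : ℝ) : ℂ) * Complex.I) /
        ((x : ℂ) + ((1 / 4 : ℝ) : ℂ) * Complex.I - s)) := kA.sub kB
    have e1 := integral_sub kAB (iM'.const_mul (g s))
    have e2 := integral_sub kA kB
    rw [hDeq]
    refine e1.trans ?_
    rw [e2, integral_const_mul, hM']
    rfl
  -- the limit of the truncated integrals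
  have t1 : Tendsto (fun T : ℝ => ∫ x in (-T)..T, D x) atTop (𝓝 (∫ x, D x)) :=
    intervalIntegral_tendsto_integral iD tendsto_neg_atTop_atBot tendsto_id
  have t2 : Tendsto (fun T : ℝ => ∫ x in (-T)..T, D x) atTop (𝓝 0) := by
    have hb : ∀ᶠ T : ℝ in atTop, ‖∫ x in (-T)..T, D x‖ ≤ (C + ‖g s‖) / (T - |s.re|) := by
      filter_upwards [eventually_gt_atTop |s.re|] with T hT
      have hTp : 0 < T - |s.re| := by linarith
      have hT0 : 0 ≤ T := (abs_nonneg _).trans hT.le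
      have hdiffG : DifferentiableOn ℂ G {ζ : ℂ | |ζ.im| < 1 / 2} := by
        rw [hG, Complex.differentiableOn_dslope]
        · intro ζ hζ
          exact (hg ζ hζ).differentiableWithinAt
        · apply IsOpen.mem_nhds
          · exact isOpen_lt Complex.continuous_im.abs continuous_const
          · simp only [Set.mem_ofPred_eq]
            linarith
      have hrect := Complex.integral_boundary_rect_eq_zero_of_differentiableOn G
        (⟨-T, -(1 / 4)⟩ : ℂ) (⟨T, 1 / 4⟩ : ℂ) (hdiffG.mono ?_)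
      · simp only at hrect
        have bnd : ∀ c : ℝ, |c| = T → ‖∫ y in (-(1 / 4) : ℝ)..(1 / 4),
            G ((c : ℂ) + (y : ℂ) * Complex.I)‖ ≤ (C + ‖g s‖) / (T - |s.re|) * |1 / 4 - -(1 / 4)| := by
          intro c hc
          apply intervalIntegral.norm_integral_le_of_norm_le_const
          intro y hy
          rw [uIoc_of_le (by norm_num)] at hy
          have hd : T - |s.re| ≤ ‖(c : ℂ) + (y : ℂ) * Complex.I - s‖ := by
            have h1 := Complex.abs_re_le_norm ((c : ℂ) + (y : ℂ) * Complex.I - s)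
            simp only [Complex.sub_re, Complex.add_re, Complex.ofReal_re, Complex.mul_re, Complex.I_re,
              mul_zero, Complex.ofReal_im, Complex.I_im, mul_one, sub_self, add_zero] at h1
            have h2 : |c| ≤ |c - s.re| + |s.re| := by
              have : c = (c - s.re) + s.re := by ring
              conv_lhs => rw [this]
              exact abs_add_le _ _
            linarith
          have hne : (c : ℂ) + (y : ℂ) * Complex.I ≠ s := by
            intro h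
            rw [h, sub_self, norm_zero] at hd
            linarith
          rw [hGne _ hne, norm_div]
          apply div_le_div₀ (by positivity) _ hTp hd
          refine (norm_sub_le _ _).trans ?_
          have h3 := hC ((c : ℂ) + (y : ℂ) * Complex.I) (by
            simp only [Complex.add_im, Complex.ofReal_im, Complex.mul_im, Complex.ofReal_re,
              Complex.I_im, mul_one, Complex.I_re, mul_zero, add_zero, zero_add]
            rw [abs_le]
            exact ⟨hy.1.le, hy.2⟩)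
          have h4 : C / (1 + ((c : ℂ) + (y : ℂ) * Complex.I).re ^ 2) ≤ C := by
            apply div_le_self hC0
            nlinarith [sq_nonneg ((c : ℂ) + (y : ℂ) * Complex.I).re]
          linarith
        have b1 := bnd T (abs_of_nonneg hT0)
        have b2 := bnd (-T) (by rw [abs_neg, abs_of_nonneg hT0])
        have hDint : ∫ x in (-T)..T, D x =
            (∫ x in (-T)..T, G ((x : ℂ) + ((-(1 / 4) : ℝ) : ℂ) * Complex.I)) -
            ∫ x in (-T)..T, G ((x : ℂ) + ((1 / 4 : ℝ) : ℂ) * Complex.I) := by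
          have cont : ∀ y0 : ℝ, |y0| < 1 / 2 →
              Continuous fun x : ℝ => G ((x : ℂ) + (y0 : ℂ) * Complex.I) := by
            intro y0 hy0
            rw [continuous_iff_continuousAt]
            intro x
            have h1 : ContinuousAt G ((x : ℂ) + (y0 : ℂ) * Complex.I) := by
              apply (hdiffG.differentiableAt _).continuousAt
              apply IsOpen.mem_nhds
              · exact isOpen_lt Complex.continuous_im.abs continuous_const
              · simpa using hy0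
            have h2 : ContinuousAt (fun x : ℝ => (x : ℂ) + (y0 : ℂ) * Complex.I) x := by fun_prop
            exact ContinuousAt.comp (f := fun x : ℝ => (x : ℂ) + (y0 : ℂ) * Complex.I) h1 h2
          simp only [hD]
          apply intervalIntegral.integral_sub
          · exact (cont _ (by rw [abs_neg, abs_of_pos] <;> norm_num)).intervalIntegrable _ _
          · exact (cont _ (by rw [abs_of_pos] <;> norm_num)).intervalIntegrable _ _
        have e : ∫ x in (-T)..T, D x =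
            Complex.I • (∫ y in (-(1 / 4) : ℝ)..(1 / 4), G (((-T : ℝ) : ℂ) + (y : ℂ) * Complex.I)) -
            Complex.I • ∫ y in (-(1 / 4) : ℝ)..(1 / 4), G ((T : ℂ) + (y : ℂ) * Complex.I) := by
          rw [hDint]
          linear_combination hrect
        rw [e]
        refine (norm_sub_le _ _).trans ?_
        rw [norm_smul, norm_smul, Complex.norm_I, one_mul, one_mul]
        have h5 : |(1 / 4 : ℝ) - -(1 / 4)| = 1 / 2 := by norm_num
        rw [h5] at b1 b2
        linarith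
      · intro ζ hζ
        have h2 := hζ.2
        simp only [Set.mem_preimage] at h2
        rw [uIcc_of_le (by norm_num), Set.mem_Icc] at h2
        show |ζ.im| < 1 / 2
        rw [abs_lt]
        constructor <;> linarith [h2.1, h2.2]
    have hz : Tendsto (fun T : ℝ => (C + ‖g s‖) / (T - |s.re|)) atTop (𝓝 0) := by
      apply Tendsto.const_div_atTop
      exact tendsto_atTop_add_const_right _ _ tendsto_id
    exact squeeze_zero_norm' hb hz
  have h0 := tendsto_nhds_unique t1 t2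
  rw [vD] at h0
  linear_combination h0

end Pool.Agent.Helper30.F9
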