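import Pool.Agent.Helper30.F9.Strip
import Pool.Agent.Helper30.F9.CSplit

set_option autoImplicit false

namespace Pool.Agent.Helper30.F9

open Real Metric Set MeasureTheory Filter Topology

/-- Entire approximation of the indicator of a half plane. -/
theorem exists_E {d : ℂ} (h1 : |d.re| = 1) (h2 : |d.im| = 1) :
    ∃ E : ℂ → ℂ, Differentiable ℂ E ∧ ∃ R : ℝ, ∀ z : ℂ, R ≤ ‖z‖ →
      (0 ≤ (z / d).im → ‖E z - 1‖ ≤ ‖Pf z‖ / 16) ∧ ((z / d).im ≤ 0 → ‖E z‖ ≤ ‖Pf z‖ / 16) := by
  obtain ⟨hne, C, hC0, hC⟩ := strip_bound h1 h2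
  have r1 : d.re ^ 2 = 1 := by rw [← sq_abs, h1]; norm_num
  have r2 : d.im ^ 2 = 1 := by rw [← sq_abs, h2]; norm_num
  have hdn : ‖d‖ ^ 2 = 2 := by rw [norm_sq_eq, r1, r2]; norm_num
  have hd0 : d ≠ 0 := by
    rw [← norm_pos_iff]
    have := norm_nonneg d
    nlinarith
  have hdn0 : 0 < ‖d‖ := norm_pos_iff.mpr hd0
  have hdn2 : ‖d‖ ≤ 2 := by nlinarith
  set g : ℂ → ℂ := fun s => (Pf (d * s))⁻¹ with hg
  have hgd : ∀ s : ℂ, |s.im| < 1 / 2 → DifferentiableAt ℂ g s := by
    intro s hs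
    have h3 : DifferentiableAt ℂ (fun s => Pf (d * s)) s := by
      have h4 : DifferentiableAt ℂ (fun s : ℂ => d * s) s := by fun_prop
      exact DifferentiableAt.fun_comp' s (Pf_differentiable _) h4
    exact h3.inv (hne s hs)
  have hgC : ∀ s : ℂ, |s.im| ≤ 1 / 4 → ‖g s‖ ≤ C / (1 + s.re ^ 2) := by
    intro s hs
    have hP : 0 < ‖Pf (d * s)‖ := norm_pos_iff.mpr (hne s (by linarith))
    have h3 : 0 < 1 + s.re ^ 2 := by positivity
    simp only [hg]
    rw [norm_inv, inv_eq_one_div, div_le_div_iff₀ hP h3, one_mul]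
    exact hC s hs
  set K₁ : ℂ → ℂ := KK (fun x : ℝ => g ((x : ℂ) + ((-(1 / 4) : ℝ) : ℂ) * Complex.I)) (-(1 / 4))
    with hK₁
  set K₂ : ℂ → ℂ := KK (fun x : ℝ => g ((x : ℂ) + ((1 / 4 : ℝ) : ℂ) * Complex.I)) (1 / 4) with hK₂
  have iA := line_integrable hgd hgC (y0 := -(1 / 4)) (by rw [abs_neg, abs_of_pos] <;> norm_num)
  have iB := line_integrable hgd hgC (y0 := 1 / 4) (by rw [abs_of_pos]; norm_num)
  have hpi : (2 * π * Complex.I : ℂ) ≠ 0 := by
    have : (π : ℂ) ≠ 0 := by exact_mod_cast pi_ne_zero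
    simp [this]
  have hpin : ‖(2 * π * Complex.I : ℂ)‖ = 2 * π := by
    rw [norm_mul, norm_mul, Complex.norm_I, mul_one, Complex.norm_real,
      Real.norm_of_nonneg pi_pos.le]
    simp
  have hover : ∀ z : ℂ, |(z / d).im| < 1 / 4 →
      1 - Pf z * K₁ (z / d) / (2 * π * Complex.I) = -(Pf z * K₂ (z / d)) / (2 * π * Complex.I) := by
    intro z hz
    have h3 := K_jump hgd hgC hz
    rw [← hK₁, ← hK₂] at h3
    have h4 : Pf (d * (z / d)) = Pf z := by
      congr 1
      field_simp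
    have h5 : Pf z ≠ 0 := by
      rw [← h4]
      exact hne _ (by linarith)
    have h6 : g (z / d) = (Pf z)⁻¹ := by
      simp only [hg]
      rw [h4]
    rw [h6] at h3
    have h7 : K₁ (z / d) = K₂ (z / d) + 2 * π * Complex.I * (Pf z)⁻¹ := by linear_combination h3
    rw [h7]
    field_simp
    ring
  set E : ℂ → ℂ := fun z => if (z / d).im < 0 then -(Pf z * K₂ (z / d)) / (2 * π * Complex.I)
    else 1 - Pf z * K₁ (z / d) / (2 * π * Complex.I) with hE
  have hElow : ∀ z : ℂ, (z / d).im < 1 / 4 → E z = -(Pf z * K₂ (z / d)) / (2 * π * Complex.I) := by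
    intro z hz
    simp only [hE]
    split_ifs with h
    · rfl
    · apply hover
      rw [abs_lt]
      constructor <;> linarith
  have hEup : ∀ z : ℂ, 0 ≤ (z / d).im → E z = 1 - Pf z * K₁ (z / d) / (2 * π * Complex.I) := by
    intro z hz
    simp only [hE]
    rw [if_neg (by linarith)]
  refine ⟨E, ?_, ?_⟩
  · intro z0
    have hdivc : Continuous fun z : ℂ => (z / d).im := by fun_prop
    have hdivd : DifferentiableAt ℂ (fun z : ℂ => z / d) z0 := by fun_prop
    rcases lt_or_ge (z0 / d).im (1 / 4) with h3 | h3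
    · have hev : E =ᶠ[𝓝 z0] fun z => -(Pf z * K₂ (z / d)) / (2 * π * Complex.I) := by
        have : {z : ℂ | (z / d).im < 1 / 4} ∈ 𝓝 z0 :=
          (isOpen_lt hdivc continuous_const).mem_nhds h3
        filter_upwards [this] with z hz
        exact hElow z hz
      refine DifferentiableAt.congr_of_eventuallyEq ?_ hev
      have h4 : DifferentiableAt ℂ (fun z => K₂ (z / d)) z0 :=
        DifferentiableAt.fun_comp' z0 (KK_diff iB h3.ne) hdivd
      exact (((Pf_differentiable z0).mul h4).neg).div_const _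
    · have hev : E =ᶠ[𝓝 z0] fun z => 1 - Pf z * K₁ (z / d) / (2 * π * Complex.I) := by
        have : {z : ℂ | 0 < (z / d).im} ∈ 𝓝 z0 :=
          (isOpen_lt continuous_const hdivc).mem_nhds (by
            show 0 < (z0 / d).im
            linarith)
        filter_upwards [this] with z hz
        exact hEup z (le_of_lt hz)
      refine DifferentiableAt.congr_of_eventuallyEq ?_ hev
      have h4 : DifferentiableAt ℂ (fun z => K₁ (z / d)) z0 :=
        DifferentiableAt.fun_comp' z0 (KK_diff iA (by intro h; linarith)) hdivd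
      exact (((Pf_differentiable z0).mul h4).div_const _).const_sub _
  · have hε : 0 < 2 * π / 16 := by positivity
    obtain ⟨R1, hR1⟩ := KK_decay iA (y0 := -(1 / 4)) hε
    obtain ⟨R2, hR2⟩ := KK_decay iB (y0 := 1 / 4) hε
    refine ⟨2 * max (max R1 R2) 0, ?_⟩
    intro z hz
    have hzd : max (max R1 R2) 0 ≤ ‖z / d‖ := by
      rw [norm_div, le_div_iff₀ hdn0]
      have : (0 : ℝ) ≤ max (max R1 R2) 0 := le_max_right _ _
      nlinarith
    have hz1 : R1 ≤ ‖z / d‖ := ((le_max_left _ _).trans (le_max_left _ _)).trans hzd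
    have hz2 : R2 ≤ ‖z / d‖ := ((le_max_right _ _).trans (le_max_left _ _)).trans hzd
    have hP0 : 0 ≤ ‖Pf z‖ := norm_nonneg _
    constructor
    · intro h3
      rw [hEup z h3]
      have h4 := hR1 (z / d) (by rw [abs_of_neg] <;> linarith) hz1
      have h5 : 1 - Pf z * K₁ (z / d) / (2 * π * Complex.I) - 1 =
          -(Pf z * K₁ (z / d) / (2 * π * Complex.I)) := by ring
      rw [h5, norm_neg, norm_div, norm_mul, hpin, div_le_iff₀ (by positivity)]
      calc ‖Pf z‖ * ‖K₁ (z / d)‖ ≤ ‖Pf z‖ * (2 * π / 16) := mul_le_mul_of_nonneg_left h4 hP0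
        _ = ‖Pf z‖ / 16 * (2 * π) := by ring
    · intro h3
      rw [hElow z (by linarith)]
      have h4 := hR2 (z / d) (by rw [abs_of_pos] <;> linarith) hz2
      rw [norm_div, norm_neg, norm_mul, hpin, div_le_iff₀ (by positivity)]
      calc ‖Pf z‖ * ‖K₂ (z / d)‖ ≤ ‖Pf z‖ * (2 * π / 16) := mul_le_mul_of_nonneg_left h4 hP0
        _ = ‖Pf z‖ / 16 * (2 * π) := by ring

open Classical in
/-- The locally constant part. -/
noncomputable def av (z : ℂ) : ℂ :=
  (if z.re < z.im then -1 else 1) + Complex.I * (if z.re + z.im < 0 then -1 else 1)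

/-- The entire function of the construction. -/
theorem exists_f : ∃ f : ℂ → ℂ, Differentiable ℂ f ∧ ∃ R : ℝ, ∀ z : ℂ, R ≤ ‖z‖ →
    ‖f z - av z - Pf z‖ ≤ ‖Pf z‖ / 4 := by
  obtain ⟨E1, hE1, R1, hR1⟩ := exists_E (d := ⟨1, 1⟩) (by simp) (by simp)
  obtain ⟨E2, hE2, R2, hR2⟩ := exists_E (d := ⟨-1, 1⟩) (by simp) (by simp)
  refine ⟨fun z => Pf z + (1 + Complex.I) - 2 * E1 z - 2 * Complex.I * E2 z, ?_, max R1 R2, ?_⟩
  · have := Pf_differentiable
    fun_prop
  · intro z hz
    have h1 := hR1 z ((le_max_left _ _).trans hz)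
    have h2 := hR2 z ((le_max_right _ _).trans hz)
    have i1 : (z / (⟨1, 1⟩ : ℂ)).im = (z.im - z.re) / 2 := by
      rw [Complex.div_im, Complex.normSq_apply]
      simp
      ring
    have i2 : (z / (⟨-1, 1⟩ : ℂ)).im = -(z.re + z.im) / 2 := by
      rw [Complex.div_im, Complex.normSq_apply]
      simp
      ring
    rw [i1] at h1
    rw [i2] at h2
    have b1 : ‖(if z.re < z.im then (-1 : ℂ) else 1) - (1 - 2 * E1 z)‖ ≤ ‖Pf z‖ / 8 := by
      split_ifs with h
      · have h3 := h1.1 (by linarith)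
        have e : (-1 : ℂ) - (1 - 2 * E1 z) = 2 * (E1 z - 1) := by ring
        rw [e, norm_mul]
        have : ‖(2 : ℂ)‖ = 2 := by simp
        rw [this]
        linarith
      · push Not at h
        have h3 := h1.2 (by linarith)
        have e : (1 : ℂ) - (1 - 2 * E1 z) = 2 * E1 z := by ring
        rw [e, norm_mul]
        have : ‖(2 : ℂ)‖ = 2 := by simp
        rw [this]
        linarith
    have b2 : ‖(if z.re + z.im < 0 then (-1 : ℂ) else 1) - (1 - 2 * E2 z)‖ ≤ ‖Pf z‖ / 8 := by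
      split_ifs with h
      · have h3 := h2.1 (by linarith)
        have e : (-1 : ℂ) - (1 - 2 * E2 z) = 2 * (E2 z - 1) := by ring
        rw [e, norm_mul]
        have : ‖(2 : ℂ)‖ = 2 := by simp
        rw [this]
        linarith
      · push Not at h
        have h3 := h2.2 (by linarith)
        have e : (1 : ℂ) - (1 - 2 * E2 z) = 2 * E2 z := by ring
        rw [e, norm_mul]
        have : ‖(2 : ℂ)‖ = 2 := by simp
        rw [this]
        linarith
    have e : Pf z + (1 + Complex.I) - 2 * E1 z - 2 * Complex.I * E2 z - av z - Pf z =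
        -((if z.re < z.im then (-1 : ℂ) else 1) - (1 - 2 * E1 z)) -
        Complex.I * ((if z.re + z.im < 0 then (-1 : ℂ) else 1) - (1 - 2 * E2 z)) := by
      unfold av
      split_ifs <;> ring
    rw [e]
    refine (norm_sub_le _ _).trans ?_
    rw [norm_neg, norm_mul, Complex.norm_I, one_mul]
    linarith

end Pool.Agent.Helper30.F9
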