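import Pool.Agent.Helper30.F9.Lim4

/-! Explicit constants: an explicit interval of angles on which the limit potential is negative. -/

set_option autoImplicit false

namespace Pool.Agent.Helper30.F9

open Real Metric Set MeasureTheory Filter Topology

lemma log_pert {a b : ℂ} {m : ℝ} (hm : 0 < m) (ha : m ≤ ‖a‖) (hb : b ≠ 0) :
    Real.log ‖b‖ ≤ Real.log ‖a‖ + ‖b - a‖ / m := by
  have ha0 : 0 < ‖a‖ := hm.trans_le ha
  have h1 : ‖b‖ ≤ ‖a‖ * (1 + ‖b - a‖ / ‖a‖) := by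
    rw [mul_add, mul_one, mul_div_cancel₀ _ ha0.ne']
    calc ‖b‖ = ‖a + (b - a)‖ := by rw [add_sub_cancel]
      _ ≤ _ := norm_add_le _ _
  have h2 := Real.log_le_log (norm_pos_iff.mpr hb) h1
  rw [Real.log_mul ha0.ne' (by positivity)] at h2
  have h3 := Real.log_le_sub_one_of_pos (show 0 < 1 + ‖b - a‖ / ‖a‖ by positivity)
  have h4 : ‖b - a‖ / ‖a‖ ≤ ‖b - a‖ / m := div_le_div_of_nonneg_left (norm_nonneg _) hm ha
  linarith

lemma Lf_lip {w w0 : ℂ} (hw : ‖w‖ ≤ 62 / 100) (hw0 : ‖w0‖ ≤ 62 / 100) :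
    ‖Lf w - Lf w0‖ ≤ 11 * ‖w - w0‖ := by
  have hd : ∀ y ∈ closedBall (0 : ℂ) (62 / 100), HasDerivWithinAt Lf
      (-∑' n : ℕ, y ^ n / cf (n + 1)) (closedBall (0 : ℂ) (62 / 100)) y := by
    intro y hy
    rw [mem_closedBall_zero_iff] at hy
    exact (Lf_hasDerivAt (by linarith)).hasDerivWithinAt
  have hb : ∀ y ∈ closedBall (0 : ℂ) (62 / 100), ‖-∑' n : ℕ, y ^ n / cf (n + 1)‖ ≤ 11 := by
    intro y hy
    rw [mem_closedBall_zero_iff] at hy
    rw [norm_neg]
    have h1 : HasSum (fun n : ℕ => 4 * (62 / 100 : ℝ) ^ n) (4 * (1 - 62 / 100)⁻¹) :=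
      (hasSum_geometric_of_lt_one (by norm_num) (by norm_num)).mul_left 4
    have h2 : ‖∑' n : ℕ, y ^ n / cf (n + 1)‖ ≤ 4 * (1 - 62 / 100)⁻¹ := by
      apply tsum_of_norm_bounded h1
      intro n
      rw [norm_div, norm_pow]
      have h3 := cf_norm (n + 1)
      rw [div_le_iff₀ (by linarith)]
      have h5 : ‖y‖ ^ n ≤ (62 / 100 : ℝ) ^ n := pow_le_pow_left₀ (norm_nonneg _) hy n
      have h6 : (0 : ℝ) ≤ (62 / 100 : ℝ) ^ n := by positivity
      nlinarith
    refine h2.trans ?_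
    norm_num
  exact Convex.norm_image_sub_le_of_norm_hasDerivWithin_le (𝕜 := ℂ) hd hb (convex_closedBall _ _)
    (by rwa [mem_closedBall_zero_iff]) (by rwa [mem_closedBall_zero_iff])

/-- Decomposition of `log |P|` on `|t| = 13/10`. -/
lemma log_Pf3 {t : ℂ} (hnt : ‖t‖ = 13 / 10) (htP : Pf t ≠ 0) :
    (1 - t ≠ 0 ∧ 1 - t / lam ≠ 0 ∧ 1 - t / lam ^ 2 ≠ 0) ∧
    Real.log ‖Pf t‖ = Real.log ‖1 - t‖ + 2 * Real.log ‖1 - t / lam‖ +
      4 * Real.log ‖1 - t / lam ^ 2‖ + 8 * (Lf (t / lam ^ 3)).re := by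
  have hlt : ‖t‖ < qr ^ 3 := by rw [hnt]; norm_num [qr]
  have e1 : Pf t = ((1 - t) * (1 - t / lam) ^ 2 * (1 - t / lam ^ 2) ^ 4) *
      Complex.exp (8 * Lf (t / lam ^ 3)) := by
    rw [Pf_eq hlt]
    unfold Pm
    simp only [Finset.prod_range_succ, Finset.prod_range_zero]
    norm_num
  have e2 := htP
  rw [e1] at e2
  have e3 := (mul_ne_zero_iff.mp e2).1
  have n3 : 1 - t / lam ^ 2 ≠ 0 := by
    intro h; apply e3; rw [h]; ring
  have n2 : 1 - t / lam ≠ 0 := by
    intro h; apply e3; rw [h]; ring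
  have n1 : 1 - t ≠ 0 := by
    intro h; apply e3; rw [h]; ring
  refine ⟨⟨n1, n2, n3⟩, ?_⟩
  have p1 := norm_ne_zero_iff.mpr n1
  have p2 := norm_ne_zero_iff.mpr n2
  have p3 := norm_ne_zero_iff.mpr n3
  have r8 : (8 * Lf (t / lam ^ 3)).re = 8 * (Lf (t / lam ^ 3)).re := by
    have : (8 : ℂ) = ((8 : ℝ) : ℂ) := by norm_num
    rw [this, Complex.re_ofReal_mul]
  rw [e1, norm_mul, norm_mul, norm_mul, norm_pow, norm_pow, Complex.norm_exp,
    Real.log_mul (by positivity) (Real.exp_pos _).ne', Real.log_mul (by positivity) (by positivity),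
    Real.log_mul p1 (by positivity), Real.log_pow, Real.log_pow, Real.log_exp, r8]
  push_cast
  ring

lemma Pf13_ne {t : ℂ} (hnt : ‖t‖ = 13 / 10) : Pf t ≠ 0 := by
  apply Pf_ne_zero
  intro j hj
  have h1 : ‖t‖ = qr ^ j := by rw [hj, norm_lam_pow]
  rw [hnt] at h1
  rcases j with _ | _ | j
  · norm_num at h1
  · norm_num [qr] at h1
  · have h2 : qr ^ 2 ≤ qr ^ (j + 2) := pow_le_pow_right₀ qr_gt.le (by omega)
    have h3 : (qr : ℝ) ^ 2 = 1024 / 625 := by norm_num [qr]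
    have h4 : j + 1 + 1 = j + 2 := rfl
    rw [h4] at h1
    rw [← h1, h3] at h2
    norm_num at h2

/-- The numerical bound at the test point (from the proof of `V_t2`). -/
lemma G_t0 : Real.log ‖Pf ((13 / 10 : ℝ) : ℂ)‖ + Lk 6 ((13 / 10 : ℝ) : ℂ) ≤ -(3 / 10) := by
  set t : ℂ := ((13 / 10 : ℝ) : ℂ) with ht
  have hnt : ‖t‖ = 13 / 10 := by
    rw [ht, Complex.norm_real, Real.norm_of_nonneg (by norm_num)]
  have htU : t ∈ UU := by
    show (4 / 5 : ℝ) < ‖t‖
    rw [hnt]; norm_num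
  have htP : Pf t ≠ 0 := Pf13_ne hnt
  have h3 : Lk 6 t ≤ 1 / 2 * (67 / 100) + (1 / 4) * (115 / 100) + (1 / 8) * (108 / 100) +
      (1 / 16) * (92 / 100) + (1 / 32) * (154 / 100) + (1 / 64) * (193 / 100) := by
    obtain ⟨f1, f2, f3, f4, f5, f6⟩ := fac_checks
    have g1 := lchk_sound f1
    have g2 := lchk_sound f2
    have g3 := lchk_sound f3
    have g4 := lchk_sound f4
    have g5 := lchk_sound f5
    have g6 := lchk_sound f6
    rw [toC_fac, toC_tq] at g1 g2 g3 g4 g5 g6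
    unfold Lk
    simp only [Finset.sum_range_succ, Finset.sum_range_zero, zero_add]
    push_cast at g1 g2 g3 g4 g5 g6
    norm_num at g1 g2 g3 g4 g5 g6 ⊢
    rw [ht]
    push_cast
    norm_num
    linarith
  have h4 : Real.log ‖Pf t‖ ≤ 186 / 100 - 306 / 100 := by
    have hlt : ‖t‖ < qr ^ 3 := by rw [hnt]; norm_num [qr]
    have e1 : Pf t = toC prodq * Complex.exp (8 * Lf (t / lam ^ 3)) := by
      rw [Pf_eq hlt]
      unfold Pm
      simp only [Finset.prod_range_succ, Finset.prod_range_zero]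
      have hi : lam⁻¹ = toC (0, -25 / 32) := by
        rw [lam_inv]
        apply Complex.ext <;> simp [toC]
        norm_num
      have a1 : toC (1, 0 + 13 / 10 * (25 / 32)) = 1 - t / lam ^ 1 := by
        rw [pow_one, div_eq_mul_inv t, hi, ht]
        apply Complex.ext <;> simp [toC]
        norm_num
      have a2 : toC (1 + 13 / 10 * (25 / 32) ^ 2, 0) = 1 - t / lam ^ 2 := by
        rw [div_eq_mul_inv t, ← inv_pow, hi, ht, pow_two (toC _)]
        apply Complex.ext <;> simp [toC]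
        norm_num
      have a0 : toC (-3 / 10, 0) = 1 - t / lam ^ 0 := by
        rw [pow_zero, ht]
        apply Complex.ext <;> simp [toC]
        norm_num
      unfold prodq
      rw [toC_gm, toC_gm, toC_gpow, toC_gpow, a0, a1, a2]
      norm_num
    have hp0 : toC prodq ≠ 0 := by
      intro h
      rw [h, zero_mul] at e1
      exact htP e1
    rw [e1, norm_mul, Complex.norm_exp, Real.log_mul (norm_ne_zero_iff.mpr hp0) (Real.exp_pos _).ne',
      Real.log_exp]
    have b1 := lchk_sound prod_check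
    have w1 : t / lam ^ 3 = toC (gm tq (0, kap)) := by
      rw [toC_gm, toC_kap, toC_tq, div_eq_mul_inv]
    have w2 : ‖t / lam ^ 3‖ ≤ (62 / 100 : ℝ) := by
      rw [norm_div_lam_pow, hnt]; norm_num [qr]
    have b2 := Lf_approx w2 (by norm_num)
    have w7 := horner_spec (gm tq (0, kap)) (divl 0 cs) 0
    rw [pow_zero, one_mul] at w7
    rw [w1, ← w7] at b2
    have b3 := (Complex.abs_re_le_norm _).trans b2
    rw [abs_le] at b3
    have b4 := b3.1
    rw [Complex.sub_re, Complex.neg_re] at b4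
    have b5 : ((horner (gm tq (0, kap)) (divl 0 cs)).1 : ℝ) =
        (toC (horner (gm tq (0, kap)) (divl 0 cs))).re := rfl
    have b6 := (Rat.cast_le (K := ℝ)).mpr horner_check
    rw [b5] at b6
    push_cast at b6
    have r8 : (8 * Lf (t / lam ^ 3)).re = 8 * (Lf (t / lam ^ 3)).re := by
      have : (8 : ℂ) = ((8 : ℝ) : ℂ) := by norm_num
      rw [this, Complex.re_ofReal_mul]
    rw [r8, w1]
    push_cast at b1
    have b7 : (4 * (62 / 100 : ℝ) ^ 17 / (1 - 62 / 100) + 1 / 3000) ≤ 35 / 10000 := by norm_num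
    linarith
  linarith

end Pool.Agent.Helper30.F9
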