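import Pool.Agent.Helper30.F9.Expl1

/-! Explicit constants, continued. -/

set_option autoImplicit false

namespace Pool.Agent.Helper30.F9

open Real Metric Set MeasureTheory Filter Topology

lemma re_le_norm_of {z : ℂ} {a : ℝ} (h : a ≤ |z.re|) : a ≤ ‖z‖ := h.trans (Complex.abs_re_le_norm z)

lemma fac_ge (j : ℕ) (hj : j < 6) : 1 ≤ ‖1 - lam ^ (j + 1) * ((13 / 10 : ℝ) : ℂ)‖ := by
  have l2 : lam ^ 2 = ((-(32 / 25) ^ 2 : ℝ) : ℂ) := by
    rw [pow_two lam]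
    apply Complex.ext
    · rw [Complex.mul_re, Complex.ofReal_re]
      simp only [lam]
      norm_num
    · rw [Complex.mul_im, Complex.ofReal_im]
      simp only [lam]
      norm_num
  have key1 : ∀ c : ℝ, (1 - ((c : ℂ) * lam) * ((13 / 10 : ℝ) : ℂ)).re = 1 := by
    intro c
    rw [Complex.sub_re, Complex.one_re, mul_assoc, Complex.re_ofReal_mul, Complex.mul_re,
      Complex.ofReal_re, Complex.ofReal_im]
    simp only [lam]
    ring
  have key2 : ∀ c : ℝ, (1 - (c : ℂ) * ((13 / 10 : ℝ) : ℂ)).re = 1 - c * (13 / 10) := by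
    intro c
    rw [Complex.sub_re, Complex.one_re, Complex.re_ofReal_mul, Complex.ofReal_re]
  have l4 : lam ^ 4 = (((32 / 25) ^ 4 : ℝ) : ℂ) := by
    have : lam ^ 4 = (lam ^ 2) ^ 2 := by ring
    rw [this, l2]
    push_cast
    ring
  have l6 : lam ^ 6 = ((-(32 / 25) ^ 6 : ℝ) : ℂ) := by
    have : lam ^ 6 = (lam ^ 2) ^ 3 := by ring
    rw [this, l2]
    push_cast
    ring
  have l1 : lam ^ 1 = ((1 : ℝ) : ℂ) * lam := by rw [pow_one, Complex.ofReal_one, one_mul]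
  have l3 : lam ^ 3 = ((-(32 / 25) ^ 2 : ℝ) : ℂ) * lam := by rw [pow_succ, l2]
  have l5 : lam ^ 5 = (((32 / 25) ^ 4 : ℝ) : ℂ) * lam := by rw [pow_succ, l4]
  apply re_le_norm_of
  interval_cases j
  · rw [show 0 + 1 = 1 from rfl, l1, key1]; norm_num
  · rw [show 1 + 1 = 2 from rfl, l2, key2]; norm_num
  · rw [show 2 + 1 = 3 from rfl, l3, key1]; norm_num
  · rw [show 3 + 1 = 4 from rfl, l4, key2]; norm_num
  · rw [show 4 + 1 = 5 from rfl, l5, key1]; norm_num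
  · rw [show 5 + 1 = 6 from rfl, l6, key2]; norm_num

lemma fac0_ge : 3 / 10 ≤ ‖1 - ((13 / 10 : ℝ) : ℂ)‖ ∧ 1 ≤ ‖1 - ((13 / 10 : ℝ) : ℂ) / lam‖ ∧
    1 ≤ ‖1 - ((13 / 10 : ℝ) : ℂ) / lam ^ 2‖ := by
  refine ⟨re_le_norm_of ?_, re_le_norm_of ?_, re_le_norm_of ?_⟩
  · rw [Complex.sub_re, Complex.one_re, Complex.ofReal_re]
    norm_num
  · rw [div_eq_mul_inv, lam_inv, Complex.sub_re, Complex.one_re, Complex.re_ofReal_mul]
    norm_num
  · rw [div_eq_mul_inv, ← inv_pow, lam_inv, pow_two, Complex.sub_re, Complex.one_re,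
      Complex.re_ofReal_mul, Complex.mul_re]
    norm_num

/-- The limit potential is negative at `13/10 e^{iθ}`, `0 ≤ θ ≤ 1/1000`. -/
lemma V_neg_expl {θ : ℝ} (h0 : 0 ≤ θ) (h1 : θ ≤ 1 / 1000) : Vf (pt (Real.log (13 / 10)) θ) < 0 := by
  set t : ℂ := pt (Real.log (13 / 10)) θ with ht
  set t0 : ℂ := ((13 / 10 : ℝ) : ℂ) with ht0
  have hexp1 : Real.exp (Real.log (13 / 10)) = 13 / 10 := Real.exp_log (by norm_num)
  have hnt : ‖t‖ = 13 / 10 := by rw [ht, norm_pt, hexp1]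
  have hnt0 : ‖t0‖ = 13 / 10 := by
    rw [ht0, Complex.norm_real, Real.norm_of_nonneg (by norm_num)]
  have hU : ∀ s : ℂ, ‖s‖ = 13 / 10 → s ∈ UU := by
    intro s hs
    show (4 / 5 : ℝ) < ‖s‖
    rw [hs]; norm_num
  have hd : ‖t - t0‖ ≤ 13 / 10000 := by
    have e : t - t0 = t0 * (Complex.exp (Complex.I * θ) - 1) := by
      rw [ht, pt_eq, hexp1, ← ht0, mul_comm (θ : ℂ) Complex.I]
      ring
    rw [e, norm_mul, hnt0]
    have h2 := Real.norm_exp_I_mul_ofReal_sub_one_le (x := θ)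
    rw [Real.norm_of_nonneg h0] at h2
    linarith
  have hd0 : 0 ≤ ‖t - t0‖ := norm_nonneg _
  have hPt := Pf13_ne hnt
  have hPt0 := Pf13_ne hnt0
  obtain ⟨⟨n1, n2, n3⟩, e1⟩ := log_Pf3 hnt hPt
  obtain ⟨_, e0⟩ := log_Pf3 hnt0 hPt0
  obtain ⟨g1, g2, g3⟩ := fac0_ge
  have p1 := log_pert (by norm_num) g1 n1
  have p2 := log_pert (by norm_num) g2 n2
  have p3 := log_pert (by norm_num) g3 n3
  have q1 : ‖(1 - t) - (1 - t0)‖ = ‖t - t0‖ := by
    rw [sub_sub_sub_cancel_left, norm_sub_rev]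
  have q2 : ‖(1 - t / lam) - (1 - t0 / lam)‖ ≤ ‖t - t0‖ := by
    rw [sub_sub_sub_cancel_left, ← sub_div, norm_div, norm_lam, norm_sub_rev]
    exact div_le_self hd0 qr_gt.le
  have q3 : ‖(1 - t / lam ^ 2) - (1 - t0 / lam ^ 2)‖ ≤ ‖t - t0‖ := by
    rw [sub_sub_sub_cancel_left, ← sub_div, norm_div, norm_lam_pow, norm_sub_rev]
    exact div_le_self hd0 (one_le_pow₀ qr_gt.le)
  have w : ∀ s : ℂ, ‖s‖ = 13 / 10 → ‖s / lam ^ 3‖ ≤ (62 / 100 : ℝ) := by
    intro s hs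
    rw [norm_div_lam_pow, hs]; norm_num [qr]
  have q4 : (Lf (t / lam ^ 3)).re ≤ (Lf (t0 / lam ^ 3)).re + 11 * (‖t - t0‖ / 2) := by
    have h3 := Lf_lip (w t hnt) (w t0 hnt0)
    have h4 : ‖t / lam ^ 3 - t0 / lam ^ 3‖ ≤ ‖t - t0‖ / 2 := by
      rw [← sub_div, norm_div, norm_lam_pow]
      apply div_le_div_of_nonneg_left hd0 (by norm_num)
      norm_num [qr]
    have h5 := (Complex.abs_re_le_norm _).trans h3
    rw [abs_le] at h5
    have h6 := h5.2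
    rw [Complex.sub_re] at h6
    linarith
  -- the iterated factors
  have hL : Lk 6 t ≤ Lk 6 t0 + 2 * ‖t - t0‖ := by
    unfold Lk
    have h3 : ∀ j ∈ Finset.range 6, (1 / 2 : ℝ) ^ (j + 1) * Real.log ‖1 - lam ^ (j + 1) * t‖ ≤
        (1 / 2 : ℝ) ^ (j + 1) * Real.log ‖1 - lam ^ (j + 1) * t0‖ +
        (1 / 2 : ℝ) ^ (j + 1) * (qr ^ (j + 1) * ‖t - t0‖) := by
      intro j hj
      rw [Finset.mem_range] at hj
      rw [← mul_add]
      apply mul_le_mul_of_nonneg_left _ (by positivity)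
      have h4 := log_pert (by norm_num) (fac_ge j hj) (one_sub_ne (hU t hnt) j)
      have h5 : ‖(1 - lam ^ (j + 1) * t) - (1 - lam ^ (j + 1) * t0)‖ = qr ^ (j + 1) * ‖t - t0‖ := by
        rw [sub_sub_sub_cancel_left, ← mul_sub, norm_mul, norm_lam_pow, norm_sub_rev]
      rw [h5, div_one] at h4
      exact h4
    refine (Finset.sum_le_sum h3).trans ?_
    rw [Finset.sum_add_distrib]
    have h6 : ∑ j ∈ Finset.range 6, (1 / 2 : ℝ) ^ (j + 1) * (qr ^ (j + 1) * ‖t - t0‖) ≤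
        2 * ‖t - t0‖ := by
      have h7 : ∑ j ∈ Finset.range 6, (1 / 2 : ℝ) ^ (j + 1) * (qr ^ (j + 1) * ‖t - t0‖) =
          (∑ j ∈ Finset.range 6, (1 / 2 : ℝ) ^ (j + 1) * qr ^ (j + 1)) * ‖t - t0‖ := by
        rw [Finset.sum_mul]
        refine Finset.sum_congr rfl fun j _ => ?_
        ring
      rw [h7]
      apply mul_le_mul_of_nonneg_right _ hd0
      simp only [Finset.sum_range_succ, Finset.sum_range_zero]
      norm_num [qr]
    linarith
  have h8 := lower_iter (hU t hnt) (by rw [hnt]; norm_num) hPt 6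
  have h9 := Pf_iter_log (hU t hnt) hPt 6
  have h10 : Vf t ≤ Real.log ‖Pf t‖ + Lk 6 t + 10 / 64 := by
    rw [← h9]
    norm_num at h8 ⊢
    linarith
  have h11 := G_t0
  rw [← ht0] at h11
  rw [q1] at p1
  have p1' : Real.log ‖1 - t‖ ≤ Real.log ‖1 - t0‖ + (13 / 10000) / (3 / 10) :=
    p1.trans (add_le_add le_rfl (div_le_div_of_nonneg_right hd (by norm_num)))
  have p2' : Real.log ‖1 - t / lam‖ ≤ Real.log ‖1 - t0 / lam‖ + 13 / 10000 := by
    rw [div_one] at p2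
    linarith
  have p3' : Real.log ‖1 - t / lam ^ 2‖ ≤ Real.log ‖1 - t0 / lam ^ 2‖ + 13 / 10000 := by
    rw [div_one] at p3
    linarith
  linarith

lemma bb_mono_expl : ∀ x x' : ℝ, Real.log (101 / 100) ≤ x → x ≤ x' →
    x' ≤ Real.log (13 / 10) → 1 / 70000 * (x' - x) ≤ bb x' - bb x := by
  have h0 : (0 : ℝ) < 1 / 1000 := by norm_num
  have h1 : (1 / 1000 : ℝ) < π / 4 := by linarith [Real.pi_gt_three]
  have h2 : ∀ θ ∈ Icc (0 : ℝ) (1 / 1000), Vf (pt (Real.log (13 / 10)) θ) < 0 :=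
    fun θ hθ => V_neg_expl hθ.1 hθ.2
  obtain ⟨K, hK0, hK⟩ := exists_K
  intro x x' hx0 hxx hx1
  have i1 := fun a b => Bf_int hK0 hK hx0 (hxx.trans hx1) a b
  have i2 := fun a b => Bf_int hK0 hK (hx0.trans hxx) hx1 a b
  have hpi : (1 / 1000 : ℝ) ≤ 2 * π := by linarith [pi_pos]
  have e : bb x' - bb x = (2 * π)⁻¹ * ∫ θ in (0 : ℝ)..(2 * π), (Bf x' θ - Bf x θ) := by
    unfold bb
    rw [intervalIntegral.integral_sub (i2 _ _) (i1 _ _)]
    ring
  have s : ∫ θ in (0 : ℝ)..(2 * π), (Bf x' θ - Bf x θ) =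
      (∫ θ in (0 : ℝ)..(1 / 1000), (Bf x' θ - Bf x θ)) + ∫ θ in (1 / 1000)..(2 * π), (Bf x' θ - Bf x θ) :=
    (intervalIntegral.integral_add_adjacent_intervals ((i2 _ _).sub (i1 _ _))
      ((i2 _ _).sub (i1 _ _))).symm
  have p1 : 1 / 10 * (1 / 1000) * (x' - x) ≤ ∫ θ in (0 : ℝ)..(1 / 1000), (Bf x' θ - Bf x θ) := by
    have : ∫ _ in (0 : ℝ)..(1 / 1000), (1 / 10 * (x' - x)) = 1 / 10 * (1 / 1000) * (x' - x) := by
      rw [intervalIntegral.integral_const]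
      simp only [sub_zero, smul_eq_mul]
      ring
    rw [← this]
    apply intervalIntegral.integral_mono_on h0.le intervalIntegrable_const ((i2 _ _).sub (i1 _ _))
    intro θ hθ
    have hc : 0 < Real.cos (2 * θ) := Real.cos_pos_of_mem_Ioo
      ⟨by linarith [hθ.1, pi_pos], by linarith [hθ.2]⟩
    have hc2 : 0 < Real.cos θ := Real.cos_pos_of_mem_Ioo
      ⟨by linarith [hθ.1, pi_pos], by linarith [hθ.2, pi_pos]⟩
    rw [Real.cos_two_mul'] at hc
    have hsec : |Real.sin θ| < Real.cos θ := by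
      apply abs_lt_of_sq_lt_sq _ hc2.le
      linarith
    have v1 := V_sector' hx0 hxx hx1 hsec.le
    have v2 := V_sector' (hx0.trans hxx) hx1 le_rfl hsec.le
    have v3 := h2 θ hθ
    have v4 : 0 ≤ 1 / 10 * (Real.log (13 / 10) - x') := by
      have : x' ≤ Real.log (13 / 10) := hx1
      nlinarith
    have v5 : 0 ≤ 1 / 10 * (x' - x) := by nlinarith
    unfold Bf
    rw [if_pos ((sector_iff x θ).mpr hsec), if_pos ((sector_iff x' θ).mpr hsec)]
    rw [min_eq_left (by linarith), min_eq_left (by linarith)]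
    linarith
  have p2 : 0 ≤ ∫ θ in (1 / 1000)..(2 * π), (Bf x' θ - Bf x θ) := by
    apply intervalIntegral.integral_nonneg hpi
    intro θ _
    exact sub_nonneg.mpr (Bf_mono hx0 hxx hx1)
  rw [e, s]
  have hp : (2 * π)⁻¹ * (1 / 10 * (1 / 1000) * (x' - x)) ≤ (2 * π)⁻¹ *
      ((∫ θ in (0 : ℝ)..(1 / 1000), (Bf x' θ - Bf x θ)) + ∫ θ in (1 / 1000)..(2 * π), (Bf x' θ - Bf x θ)) := by
    apply mul_le_mul_of_nonneg_left _ (by positivity)
    linarith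
  refine le_trans ?_ hp
  have h5 : (1 : ℝ) / 70000 ≤ (2 * π)⁻¹ * (1 / 10 * (1 / 1000)) := by
    have : (7 : ℝ)⁻¹ ≤ (2 * π)⁻¹ := inv_anti₀ (by positivity) (by linarith [Real.pi_lt_d2])
    linarith
  have h6 : 0 ≤ x' - x := by linarith
  calc 1 / 70000 * (x' - x) ≤ ((2 * π)⁻¹ * (1 / 10 * (1 / 1000))) * (x' - x) :=
        mul_le_mul_of_nonneg_right h5 h6
    _ = _ := by ring

end Pool.Agent.Helper30.F9
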