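import Pool.Agent.Helper30.F9.Expl2

/-! Explicit constants: an upper bound for the derivative of the limit characteristic. -/

set_option autoImplicit false

namespace Pool.Agent.Helper30.F9

open Real Metric Set MeasureTheory Filter Topology

lemma Sf_bound {z : ℂ} (hz : z ∈ UU) : ‖Sf z‖ ≤ 23 := by
  unfold Sf
  have h := hasSum_half.mul_right (23 : ℝ)
  rw [one_mul] at h
  exact tsum_of_norm_bounded h (Sterm_norm hz)

lemma Lf_bound {w : ℂ} (hw : ‖w‖ ≤ 62 / 100) : ‖Lf w‖ ≤ 66 / 10 := by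
  have h1 : HasSum (fun n : ℕ => 4 * (62 / 100 : ℝ) ^ (n + 1)) (4 * (62 / 100) * (1 - 62 / 100)⁻¹) := by
    have := (hasSum_geometric_of_lt_one (r := (62 / 100 : ℝ)) (by norm_num) (by norm_num)).mul_left
      (4 * (62 / 100 : ℝ))
    refine this.congr_fun ?_
    intro n
    ring
  have h2 : ‖∑' n : ℕ, w ^ (n + 1) / (((n : ℂ) + 1) * cf (n + 1))‖ ≤ 4 * (62 / 100) * (1 - 62 / 100)⁻¹ := by
    apply tsum_of_norm_bounded h1
    intro n
    refine (Lterm_norm w n).trans ?_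
    exact mul_le_mul_of_nonneg_left (pow_le_pow_left₀ (norm_nonneg _) hw _) (by norm_num)
  unfold Lf
  rw [norm_neg]
  refine h2.trans ?_
  norm_num

lemma Pf_bound {z : ℂ} (h2 : ‖z‖ ≤ 13 / 10) : ‖Pf z‖ ≤ Real.exp 58 := by
  have hlt : ‖z‖ < qr ^ 3 := by
    refine h2.trans_lt ?_
    norm_num [qr]
  have e1 : Pf z = ((1 - z) * (1 - z / lam) ^ 2 * (1 - z / lam ^ 2) ^ 4) *
      Complex.exp (8 * Lf (z / lam ^ 3)) := by
    rw [Pf_eq hlt]
    unfold Pm
    simp only [Finset.prod_range_succ, Finset.prod_range_zero]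
    norm_num
  have hz0 : 0 ≤ ‖z‖ := norm_nonneg _
  have f1 : ‖1 - z‖ ≤ 23 / 10 := by
    refine (norm_sub_le _ _).trans ?_
    rw [norm_one]
    linarith
  have f2 : ‖1 - z / lam‖ ≤ 23 / 10 := by
    refine (norm_sub_le _ _).trans ?_
    rw [norm_one, norm_div, norm_lam]
    have := div_le_self hz0 qr_gt.le
    linarith
  have f3 : ‖1 - z / lam ^ 2‖ ≤ 18 / 10 := by
    refine (norm_sub_le _ _).trans ?_
    rw [norm_one, norm_div_lam_pow]
    have h3 : ‖z‖ / qr ^ 2 ≤ 8 / 10 := by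
      rw [div_le_iff₀ (pow_pos qr_pos 2)]
      have : (qr : ℝ) ^ 2 = 1024 / 625 := by norm_num [qr]
      rw [this]
      linarith
    linarith
  have f4 : ‖Lf (z / lam ^ 3)‖ ≤ 66 / 10 := by
    apply Lf_bound
    rw [norm_div_lam_pow, div_le_iff₀ (pow_pos qr_pos 3)]
    have : (qr : ℝ) ^ 3 = 32768 / 15625 := by norm_num [qr]
    rw [this]
    linarith
  have f5 : (8 * Lf (z / lam ^ 3)).re ≤ 53 := by
    refine (Complex.re_le_norm _).trans ?_
    rw [norm_mul]
    have : ‖(8 : ℂ)‖ = 8 := by simp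
    rw [this]
    linarith
  rw [e1, norm_mul, norm_mul, norm_mul, norm_pow, norm_pow, Complex.norm_exp]
  have f6 : ‖1 - z‖ * ‖1 - z / lam‖ ^ 2 * ‖1 - z / lam ^ 2‖ ^ 4 ≤ (23 / 10) * (23 / 10) ^ 2 * (18 / 10) ^ 4 := by
    gcongr
  have f7 : (23 / 10 : ℝ) * (23 / 10) ^ 2 * (18 / 10) ^ 4 ≤ Real.exp 5 := by
    have h5 : Real.exp 5 = Real.exp 1 ^ 5 := by
      rw [← Real.exp_nat_mul]; norm_num
    have h6 := Real.exp_one_gt_d9
    rw [h5]
    calc (23 / 10 : ℝ) * (23 / 10) ^ 2 * (18 / 10) ^ 4 ≤ (2.7182818283 : ℝ) ^ 5 := by norm_num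
      _ ≤ Real.exp 1 ^ 5 := pow_le_pow_left₀ (by norm_num) h6.le 5
  calc _ ≤ Real.exp 5 * Real.exp 53 := mul_le_mul (f6.trans f7) (Real.exp_le_exp.mpr f5)
        (Real.exp_pos _).le (Real.exp_pos _).le
    _ = Real.exp 58 := by rw [← Real.exp_add]; norm_num

lemma Wf_bound {z : ℂ} (h1 : 1 ≤ ‖z‖) (h2 : ‖z‖ ≤ 13 / 10) : ‖Wf z‖ ≤ Real.exp 82 := by
  have hz : z ∈ UU := by
    show (4 / 5 : ℝ) < ‖z‖
    linarith
  unfold Wf
  have e1 : ‖((qr ^ 2 : ℝ) : ℂ)‖ = qr ^ 2 := by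
    rw [Complex.norm_real, Real.norm_of_nonneg (by have := qr_pos; positivity)]
  have e2 : (qr : ℝ) ^ 2 = 1024 / 625 := by norm_num [qr]
  rw [norm_mul, norm_mul, norm_mul, e1, e2, Complex.norm_exp]
  have h3 := Pf_bound h2
  have h4 : Real.exp (Sf z).re ≤ Real.exp 23 :=
    Real.exp_le_exp.mpr ((Complex.re_le_norm _).trans (Sf_bound hz))
  have h5 : 1024 / 625 * ‖z‖ ≤ Real.exp 1 := by
    have := Real.exp_one_gt_d9
    linarith
  calc 1024 / 625 * ‖z‖ * ‖Pf z‖ * Real.exp (Sf z).re ≤ Real.exp 1 * Real.exp 58 * Real.exp 23 := by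
        gcongr
    _ = Real.exp 82 := by rw [← Real.exp_add, ← Real.exp_add]; norm_num

lemma Tinf_le {x : ℝ} (h0 : 0 ≤ x) (h1 : x ≤ Real.log (13 / 10)) : Tinf x ≤ 82 := by
  unfold Tinf
  have h2 : ∫ θ in (0 : ℝ)..(2 * π), log⁺ ‖Wf (pt x θ)‖ ≤ ∫ _ in (0 : ℝ)..(2 * π), (82 : ℝ) := by
    apply intervalIntegral.integral_mono_on (by positivity) ((A_cont h0).intervalIntegrable _ _)
      intervalIntegrable_const
    intro θ _
    have h3 : ‖Wf (pt x θ)‖ ≤ Real.exp 82 := by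
      apply Wf_bound _ (norm_pt_le h1 θ)
      rw [norm_pt]
      exact Real.one_le_exp h0
    exact posLog_le (norm_nonneg _) (by norm_num) h3
  rw [intervalIntegral.integral_const, smul_eq_mul, sub_zero] at h2
  calc _ ≤ (2 * π)⁻¹ * (2 * π * 82) := mul_le_mul_of_nonneg_left h2 (by positivity)
    _ = 82 := by
      have := pi_pos
      field_simp

/-- Convexity of the characteristic in the logarithm of the radius. -/
lemma Tc_slope {F : ℂ → ℂ} (hF : Differentiable ℂ F) {r R S : ℝ} (h0 : 0 < r) (h1 : r < R) (h2 : R < S) :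
    (Tc F R - Tc F r) * Real.log (S / R) ≤ (Tc F S - Tc F R) * Real.log (R / r) := by
  have hR : 0 < R := h0.trans h1
  have l1 : 0 < Real.log (R / r) := Real.log_pos ((one_lt_div h0).mpr h1)
  have l2 : 0 < Real.log (S / R) := Real.log_pos ((one_lt_div hR).mpr h2)
  set κ : ℝ := Real.log (R / r) / Real.log (S / R) with hκ
  have key : Tc F R - Tc F r ≤ κ * (Tc F S - Tc F R) := by
    rw [Tc_sub hF, Tc_sub hF, ← smul_eq_mul, ← circleAverage_fun_smul]
    apply circleAverage_mono ((Mc_ci hF R).sub (Mc_ci hF r))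
    · exact ((Mc_ci hF S).sub (Mc_ci hF R)).const_smul
    intro a _
    have b1 := (jensen_bounds (hF.sub_const a) h0 h1.le).2
    have b2 := (jensen_bounds (hF.sub_const a) hR h2.le).1
    have b3 : (ncount (fun w => F w - a) R : ℝ) ≤ (Mc F a S - Mc F a R) / Real.log (S / R) := by
      rw [le_div_iff₀ l2]
      exact b2
    have b4 : Mc F a R - Mc F a r ≤ (ncount (fun w => F w - a) R : ℝ) * Real.log (R / r) := b1
    rw [smul_eq_mul, hκ, div_mul_eq_mul_div, mul_comm (Real.log (R / r)), mul_div_right_comm]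
    exact b4.trans (mul_le_mul_of_nonneg_right b3 l1.le)
  have h3 := mul_le_mul_of_nonneg_right key l2.le
  refine h3.trans (le_of_eq ?_)
  rw [hκ]
  field_simp

/-- The slope bound for the limit characteristic. -/
lemma Tinf_slope {f : ℂ → ℂ} {R0 : ℝ} (hf : Good9 f R0) {x0 x : ℝ} (h0 : 0 ≤ x0) (h1 : x0 < x)
    (h2 : x ≤ Real.log (13 / 10)) : Tinf x - Tinf x0 ≤ 375 * (x - x0) := by
  have t1 := T_tendsto hf (x := x) (h0.trans h1.le) h2
  have t0 := T_tendsto hf (x := x0) h0 (h1.le.trans h2)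
  have t2 : Tendsto (fun k : ℕ => (1 / 2 : ℝ) ^ k * Tc f (qr ^ (k + 1) * Real.exp x)) atTop
      (𝓝 (2 * Tinf x)) := by
    have := ((tendsto_add_atTop_iff_nat 1).mpr t1).const_mul 2
    refine this.congr ?_
    intro k
    rw [pow_succ (1 / 2 : ℝ)]
    ring
  have hL : 0 < Real.log qr := Real.log_pos qr_gt
  have key : (Tinf x - Tinf x0) * Real.log qr ≤ (2 * Tinf x - Tinf x) * (x - x0) := by
    refine le_of_tendsto_of_tendsto ((t1.sub t0).mul_const (Real.log qr))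
      ((t2.sub t1).mul_const (x - x0)) ?_
    apply Eventually.of_forall
    intro k
    have hq : 0 < qr ^ k := pow_pos qr_pos k
    have a1 : qr ^ k * Real.exp x0 < qr ^ k * Real.exp x :=
      mul_lt_mul_of_pos_left (Real.exp_lt_exp.mpr h1) hq
    have a2 : qr ^ k * Real.exp x < qr ^ (k + 1) * Real.exp x := by
      apply mul_lt_mul_of_pos_right _ (Real.exp_pos _)
      exact pow_lt_pow_right₀ qr_gt (by omega)
    have a3 := Tc_slope hf.1 (by positivity) a1 a2
    have e1 : qr ^ (k + 1) * Real.exp x / (qr ^ k * Real.exp x) = qr := by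
      rw [pow_succ]
      field_simp
    have e2 : Real.log (qr ^ k * Real.exp x / (qr ^ k * Real.exp x0)) = x - x0 := by
      rw [mul_div_mul_left _ _ hq.ne', ← Real.exp_sub, Real.log_exp]
    rw [e1, e2] at a3
    have hhalf : (0 : ℝ) < (1 / 2 : ℝ) ^ k := by positivity
    have a4 := mul_le_mul_of_nonneg_left a3 hhalf.le
    simp only
    linarith
  have hT := Tinf_le (h0.trans h1.le) h2
  have hLq : (7 : ℝ) / 32 ≤ Real.log qr := by
    have := Real.one_sub_inv_le_log_of_pos qr_pos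
    have e : 1 - qr⁻¹ = 7 / 32 := by norm_num [qr]
    linarith
  have hx : 0 < x - x0 := by linarith
  have h5 : (Tinf x - Tinf x0) * Real.log qr ≤ 82 * (x - x0) := by
    refine key.trans ?_
    apply mul_le_mul_of_nonneg_right _ hx.le
    linarith
  by_contra hcon
  push Not at hcon
  have h6 : 375 * (x - x0) * (7 / 32) ≤ (Tinf x - Tinf x0) * Real.log qr :=
    mul_le_mul hcon.le hLq (by norm_num) (by nlinarith)
  nlinarith

lemma deriv_Tinf_le {f : ℂ → ℂ} {R0 : ℝ} (hf : Good9 f R0) {x0 : ℝ} (h0 : 0 < x0)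
    (h1 : x0 < Real.log (13 / 10)) : deriv Tinf x0 ≤ 375 := by
  have hd := (Tinf_diff h0 h1).hasDerivAt
  have h2 := (hasDerivAt_iff_tendsto_slope.mp hd).mono_left
    (nhdsWithin_mono x0 (show Ioi x0 ⊆ {x0}ᶜ from fun y hy => ne_of_gt hy))
  refine le_of_tendsto h2 ?_
  have h3 : ∀ᶠ y in 𝓝[>] x0, y < Real.log (13 / 10) :=
    (eventually_lt_nhds h1).filter_mono nhdsWithin_le_nhds
  filter_upwards [h3, self_mem_nhdsWithin] with y hy hy'
  have hy'' : x0 < y := hy'
  rw [slope_def_field, div_le_iff₀ (by linarith)]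
  exact Tinf_slope hf h0.le hy'' hy.le

end Pool.Agent.Helper30.F9
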