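import Pool.Agent.Helper30.F9.Lim4

set_option autoImplicit false

namespace Pool.Agent.Helper30.F9

open Real Metric Set MeasureTheory Filter Topology

/-- The valence bound at a radius. -/
def Bad (f : ℂ → ℂ) (ε r : ℝ) : Prop :=
  ∀ a : ℂ, ((∑ᶠ z ∈ Metric.closedBall (0 : ℂ) r,
      analyticOrderNatAt (fun w => f w - a) z : ℕ) : ENNReal) ≤
    ENNReal.ofReal ((1 + ε) / Real.pi) *
      ∫⁻ b : ℂ, ((∑ᶠ z ∈ Metric.closedBall (0 : ℂ) r,
          analyticOrderNatAt (fun w => f w - b) z : ℕ) : ENNReal) /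
        ENNReal.ofReal ((1 + ‖b‖ ^ 2) ^ 2)

lemma Bad.mono {f : ℂ → ℂ} {ε ε' r : ℝ} (h : Bad f ε r) (hε : ε ≤ ε') : Bad f ε' r := by
  intro a
  refine (h a).trans ?_
  apply mul_le_mul_left
  apply ENNReal.ofReal_le_ofReal
  have := pi_pos
  gcongr

lemma choose_e {D c0 : ℝ} (hc0 : 0 < c0) : ∃ e : ℝ, 0 < e ∧ e < 1 ∧
    (1 + e) * (1 + e) ^ 2 * (D + e) < (1 - e) * ((D + c0) * (1 - e) - e * (1 + e)) := by
  have hcont : Continuous fun e : ℝ => (1 - e) * ((D + c0) * (1 - e) - e * (1 + e)) -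
      (1 + e) * (1 + e) ^ 2 * (D + e) := by fun_prop
  have h0 : (0 : ℝ) < (fun e : ℝ => (1 - e) * ((D + c0) * (1 - e) - e * (1 + e)) -
      (1 + e) * (1 + e) ^ 2 * (D + e)) 0 := by
    simp only
    ring_nf
    exact hc0
  have h1 := hcont.continuousAt.eventually (lt_mem_nhds h0)
  obtain ⟨ε, hε, hε2⟩ := Metric.eventually_nhds_iff.mp h1
  refine ⟨min (ε / 2) (1 / 2), by positivity, ?_, ?_⟩
  · exact (min_le_right _ _).trans_lt (by norm_num)
  · have h2 := hε2 (y := min (ε / 2) (1 / 2)) (by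
      rw [dist_zero_right, Real.norm_of_nonneg (by positivity)]
      exact (min_le_left _ _).trans_lt (by linarith))
    linarith

lemma local_step {f : ℂ → ℂ} {R0 : ℝ} (hf : Good9 f R0) {x0 : ℝ} (h0 : Real.log (101 / 100) < x0)
    (h1 : x0 < Real.log (13 / 10)) :
    ∃ ε : ℝ, 0 < ε ∧ ∃ τ : ℝ, 0 < τ ∧ ∃ k0 : ℕ, ∀ k : ℕ, k0 ≤ k → ∀ x : ℝ, |x - x0| < τ →
      ¬ Bad f ε (qr ^ k * Real.exp x) := by
  obtain ⟨K, hK0, hK⟩ := exists_K
  obtain ⟨c0, hc0, hbb⟩ := bb_mono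
  have hx0pos : 0 < x0 := log101.trans_lt h0
  set D : ℝ := deriv Tinf x0 with hD
  have hder : HasDerivAt Tinf D x0 := (Tinf_diff hx0pos h1).hasDerivAt
  obtain ⟨e, he0, he1, he⟩ := choose_e (D := D) hc0
  -- the scale delta
  have hlo := (hasDerivAt_iff_isLittleO.mp hder).def he0
  obtain ⟨δ1, hδ1, hδ1'⟩ := Metric.eventually_nhds_iff.mp hlo
  set δ : ℝ := min (δ1 / 2) (min (x0 - Real.log (101 / 100)) (Real.log (13 / 10) - x0)) with hδ
  have hδ0 : 0 < δ := lt_min (by linarith) (lt_min (by linarith) (by linarith))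
  have hδa : δ ≤ δ1 / 2 := min_le_left _ _
  have hδb : δ ≤ x0 - Real.log (101 / 100) := (min_le_right _ _).trans (min_le_left _ _)
  have hδc : δ ≤ Real.log (13 / 10) - x0 := (min_le_right _ _).trans (min_le_right _ _)
  set τ : ℝ := e * δ with hτ
  have hτ0 : 0 < τ := by positivity
  have hτδ : τ < δ := by rw [hτ]; nlinarith
  have hT : ∀ x : ℝ, |x - x0| ≤ δ → |Tinf x - Tinf x0 - D * (x - x0)| ≤ e * |x - x0| := by
    intro x hx
    have h2 := hδ1' (y := x) (by rw [Real.dist_eq]; linarith)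
    rw [Real.norm_eq_abs, Real.norm_eq_abs, smul_eq_mul] at h2
    rw [mul_comm D]
    exact h2
  -- limits
  have n1 := N_tendsto hf hK0 hK (x := x0 - τ) (by linarith) (by linarith)
  have n2 := N_tendsto hf hK0 hK (x := x0 - δ) (by linarith) (by linarith)
  have hl101 := log101
  have t1 := T_tendsto hf (x := x0 + δ) (by linarith) (by linarith)
  have t2 := T_tendsto hf (x := x0 - τ) (by linarith) (by linarith)
  have hπ : Tendsto (fun k : ℕ => (1 / 2 : ℝ) ^ k * π) atTop (𝓝 (0 * π)) :=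
    (tendsto_pow_atTop_nhds_zero_of_lt_one (by norm_num) (by norm_num)).mul_const _
  rw [zero_mul] at hπ
  have hL := n1.sub n2
  have hR := ((((t1.sub t2).add hπ).const_mul (1 + e)).mul_const ((δ + τ) / (δ - τ)))
  have hlt : (1 + e) * (Tinf (x0 + δ) - Tinf (x0 - τ) + 0) * ((δ + τ) / (δ - τ)) <
      K + Tinf (x0 - τ) + bb (x0 - τ) - (K + Tinf (x0 - δ) + bb (x0 - δ)) := by
    have a1 := hT (x0 + δ) (by rw [add_sub_cancel_left, abs_of_pos hδ0])
    have a2 := hT (x0 - τ) (by rw [sub_sub_cancel_left, abs_neg, abs_of_pos hτ0]; exact hτδ.le)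
    have a3 := hT (x0 - δ) (by rw [sub_sub_cancel_left, abs_neg, abs_of_pos hδ0])
    rw [add_sub_cancel_left, abs_of_pos hδ0, abs_le] at a1
    rw [sub_sub_cancel_left, abs_neg, abs_of_pos hτ0, abs_le] at a2
    rw [sub_sub_cancel_left, abs_neg, abs_of_pos hδ0, abs_le] at a3
    have a4 := hbb (x0 - δ) (x0 - τ) (by linarith) (by linarith) (by linarith)
    have b1 : Tinf (x0 + δ) - Tinf (x0 - τ) ≤ (D + e) * (δ + τ) := by linarith [a1.2, a2.1]
    have b2 : D * (δ - τ) - e * (δ + τ) + c0 * (δ - τ) ≤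
        K + Tinf (x0 - τ) + bb (x0 - τ) - (K + Tinf (x0 - δ) + bb (x0 - δ)) := by
      linarith [a2.1, a3.2]
    refine lt_of_lt_of_le ?_ b2
    have hdt : 0 < δ - τ := by linarith
    have b3 : (1 + e) * (Tinf (x0 + δ) - Tinf (x0 - τ) + 0) * ((δ + τ) / (δ - τ)) ≤
        (1 + e) * ((D + e) * (δ + τ)) * ((δ + τ) / (δ - τ)) := by
      rw [add_zero]
      apply mul_le_mul_of_nonneg_right _ (by positivity)
      exact mul_le_mul_of_nonneg_left b1 (by linarith)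
    refine lt_of_le_of_lt b3 ?_
    rw [mul_div_assoc', div_lt_iff₀ hdt]
    have e1 : δ + τ = δ * (1 + e) := by rw [hτ]; ring
    have e2 : δ - τ = δ * (1 - e) := by rw [hτ]; ring
    rw [e1, e2]
    have h5 : (1 + e) * ((D + e) * (δ * (1 + e))) * (δ * (1 + e)) =
        δ ^ 2 * ((1 + e) * (1 + e) ^ 2 * (D + e)) := by ring
    have h6 : (D * (δ * (1 - e)) - e * (δ * (1 + e)) + c0 * (δ * (1 - e))) * (δ * (1 - e)) =
        δ ^ 2 * ((1 - e) * ((D + c0) * (1 - e) - e * (1 + e))) := by ring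
    rw [h5, h6]
    exact mul_lt_mul_of_pos_left he (by positivity)
  have hev := hR.eventually_lt hL hlt
  obtain ⟨k0, hk0⟩ := eventually_atTop.mp hev
  refine ⟨e, he0, τ, hτ0, k0, ?_⟩
  intro k hk x hx hbad
  have hk' := hk0 k hk
  rw [abs_lt] at hx
  have hq : 0 < qr ^ k := pow_pos qr_pos k
  have hp : ∀ y : ℝ, 0 < qr ^ k * Real.exp y := fun y => by positivity
  have hlt' : ∀ y y' : ℝ, y < y' → qr ^ k * Real.exp y < qr ^ k * Real.exp y' := fun y y' h =>
    mul_lt_mul_of_pos_left (Real.exp_lt_exp.mpr h) hq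
  have hle' : ∀ y y' : ℝ, y ≤ y' → qr ^ k * Real.exp y ≤ qr ^ k * Real.exp y' := fun y y' h =>
    mul_le_mul_of_nonneg_left (Real.exp_le_exp.mpr h) hq.le
  have hlog : ∀ y y' : ℝ, Real.log (qr ^ k * Real.exp y / (qr ^ k * Real.exp y')) = y - y' := by
    intro y y'
    rw [mul_div_mul_left _ _ hq.ne', ← Real.exp_sub, Real.log_exp]
  have hA := A_main hf.1 he0 (hp (x0 - δ)) (hlt' (x0 - δ) x (by linarith))
    (hlt' x (x0 + δ) (by linarith)) hbad (ak k) (sk K k) (sk_ne K k)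
  rw [hlog, hlog] at hA
  have hFd : Differentiable ℂ (fun z => (f z - ak k) / sk K k) := (hf.1.sub_const _).div_const _
  have m1 := Tc_mono hFd (hp (x0 - τ)) (hle' (x0 - τ) x (by linarith))
  have m2 := Tc_mono hf.1 (hp (x0 - τ)) (hle' (x0 - τ) x (by linarith))
  have m3 := Tc_mono hf.1 (hp x) (hle' x (x0 + δ) (by linarith))
  set TR := Tc f (qr ^ k * Real.exp (x0 + δ)) with hTR
  set Tm := Tc f (qr ^ k * Real.exp (x0 - τ)) with hTm
  set Tr := Tc f (qr ^ k * Real.exp x) with hTr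
  have hdt : 0 < δ - τ := by linarith
  have hπ0 := pi_pos
  have c1 : (1 + e) * (TR - Tr + π) / (x0 + δ - x) * (x - (x0 - δ)) ≤
      (1 + e) * (TR - Tm + π) / (δ - τ) * (δ + τ) := by
    apply mul_le_mul _ (by linarith) (by linarith) _
    · apply div_le_div₀ _ _ hdt (by linarith)
      · have : 0 ≤ TR - Tm + π := by linarith
        positivity
      · apply mul_le_mul_of_nonneg_left _ (by linarith)
        linarith
    · have : 0 ≤ TR - Tm + π := by linarith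
      positivity
  have c2 := hA.trans c1
  have hhalf : (0 : ℝ) < (1 / 2 : ℝ) ^ k := by positivity
  have c3 : (1 / 2 : ℝ) ^ k * Tc (fun z => (f z - ak k) / sk K k) (qr ^ k * Real.exp (x0 - τ)) -
      (1 / 2 : ℝ) ^ k * Tc (fun z => (f z - ak k) / sk K k) (qr ^ k * Real.exp (x0 - δ)) ≤
      (1 + e) * ((1 / 2 : ℝ) ^ k * TR - (1 / 2 : ℝ) ^ k * Tm + (1 / 2 : ℝ) ^ k * π) *
        ((δ + τ) / (δ - τ)) := by
    have c4 : Tc (fun z => (f z - ak k) / sk K k) (qr ^ k * Real.exp (x0 - τ)) -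
        Tc (fun z => (f z - ak k) / sk K k) (qr ^ k * Real.exp (x0 - δ)) ≤
        (1 + e) * (TR - Tm + π) / (δ - τ) * (δ + τ) := by linarith
    have c5 := mul_le_mul_of_nonneg_left c4 hhalf.le
    calc _ = (1 / 2 : ℝ) ^ k * (Tc (fun z => (f z - ak k) / sk K k) (qr ^ k * Real.exp (x0 - τ)) -
        Tc (fun z => (f z - ak k) / sk K k) (qr ^ k * Real.exp (x0 - δ))) := by ring
      _ ≤ _ := c5
      _ = _ := by ring
  exact absurd c3 (not_le.mpr hk')

lemma global_step {f : ℂ → ℂ} {R0 : ℝ} (hf : Good9 f R0) :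
    ∃ ε : ℝ, 0 < ε ∧ ∃ R : ℝ, ∀ r : ℝ, R ≤ r → ¬ Bad f ε r := by
  set W : Set ℝ := Icc (Real.log (1015 / 1000)) (Real.log (12992 / 10000)) with hW
  have key : ∃ ε : ℝ, 0 < ε ∧ ∃ k0 : ℕ, ∀ k : ℕ, k0 ≤ k → ∀ x ∈ W,
      ¬ Bad f ε (qr ^ k * Real.exp x) := by
    refine IsCompact.induction_on (s := W) isCompact_Icc
      (p := fun S => ∃ ε : ℝ, 0 < ε ∧ ∃ k0 : ℕ, ∀ k : ℕ, k0 ≤ k → ∀ x ∈ S,
      ¬ Bad f ε (qr ^ k * Real.exp x)) ?_ ?_ ?_ ?_
    · exact ⟨1, one_pos, 0, fun k _ x hx => absurd hx (Set.notMem_empty x)⟩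
    · rintro s t hst ⟨ε, hε, k0, h⟩
      exact ⟨ε, hε, k0, fun k hk x hx => h k hk x (hst hx)⟩
    · rintro s t ⟨ε, hε, k0, h⟩ ⟨ε', hε', k0', h'⟩
      refine ⟨min ε ε', lt_min hε hε', max k0 k0', ?_⟩
      intro k hk x hx hbad
      rcases hx with hx | hx
      · exact h k ((le_max_left _ _).trans hk) x hx (hbad.mono (min_le_left _ _))
      · exact h' k ((le_max_right _ _).trans hk) x hx (hbad.mono (min_le_right _ _))
    · intro x0 hx0
      have a1 : Real.log (101 / 100) < x0 :=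
        (Real.log_lt_log (by norm_num) (by norm_num)).trans_le hx0.1
      have a2 : x0 < Real.log (13 / 10) :=
        hx0.2.trans_lt (Real.log_lt_log (by norm_num) (by norm_num))
      obtain ⟨ε, hε, τ, hτ, k0, h⟩ := local_step hf a1 a2
      refine ⟨{x | |x - x0| < τ}, mem_nhdsWithin_of_mem_nhds ?_, ε, hε, k0, fun k hk x hx => h k hk x hx⟩
      have := Metric.ball_mem_nhds x0 hτ
      filter_upwards [this] with x hx
      rwa [mem_ball, Real.dist_eq] at hx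
  obtain ⟨ε, hε, k0, h⟩ := key
  refine ⟨ε, hε, 1015 / 1000 * qr ^ k0, ?_⟩
  intro r hr
  have hr1 : qr ^ k0 ≤ r / (1015 / 1000) := by
    rw [le_div_iff₀ (by norm_num), mul_comm]
    exact hr
  have hr2 : 1 ≤ r / (1015 / 1000) := (one_le_pow₀ qr_gt.le).trans hr1
  obtain ⟨k, hk, hk'⟩ := exists_nat_pow_near hr2 qr_gt
  have hkk : k0 ≤ k := by
    have : qr ^ k0 < qr ^ (k + 1) := hr1.trans_lt hk'
    have := (pow_lt_pow_iff_right₀ qr_gt).mp this
    omega
  have hq : 0 < qr ^ k := pow_pos qr_pos k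
  have hrpos : 0 < r := by
    have h2 : r = r / (1015 / 1000) * (1015 / 1000) := by field_simp
    rw [h2]
    have : 0 < r / (1015 / 1000) := by linarith
    positivity
  have e : qr ^ k * Real.exp (Real.log (r / qr ^ k)) = r := by
    rw [Real.exp_log (by positivity)]
    field_simp
  rw [← e]
  apply h k hkk
  constructor
  · apply Real.log_le_log (by norm_num)
    rw [le_div_iff₀ hq]
    rw [le_div_iff₀ (by norm_num)] at hk
    linarith
  · apply Real.log_le_log (by positivity)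
    rw [div_le_iff₀ hq]
    rw [div_lt_iff₀ (by norm_num), pow_succ] at hk'
    have : (qr : ℝ) = 32 / 25 := rfl
    nlinarith

lemma nonconst {f : ℂ → ℂ} {R0 : ℝ} (hf : Good9 f R0) : ¬ ∃ c : ℂ, ∀ z : ℂ, f z = c := by
  rintro ⟨c, hc⟩
  have key : ∀ k : ℕ, R0 ≤ qr ^ k → c = av (lam ^ k) := by
    intro k hk
    have h1 := hf.2 (lam ^ k) (by rw [norm_lam_pow]; exact hk)
    have h2 : Pf (lam ^ k) = 0 := (Pf_eq_zero_iff _).mpr ⟨k, rfl⟩
    rw [h2, hc, norm_zero, zero_div, sub_zero] at h1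
    have h3 := le_antisymm h1 (norm_nonneg _)
    exact sub_eq_zero.mp (norm_eq_zero.mp h3)
  have h15 : Tendsto (fun k : ℕ => qr ^ k) atTop atTop :=
    tendsto_pow_atTop_atTop_of_one_lt qr_gt
  obtain ⟨k1, hk1⟩ := eventually_atTop.mp (h15.eventually_ge_atTop R0)
  have e0 : lam ^ (4 * k1) = (((32 / 25 : ℝ) ^ (4 * k1) : ℝ) : ℂ) := by
    have hl : lam = ((32 / 25 : ℝ) : ℂ) * Complex.I := by
      apply Complex.ext <;> simp [lam]
    rw [hl, mul_pow, pow_mul Complex.I, Complex.I_pow_four, one_pow, mul_one, ← Complex.ofReal_pow]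
  have e2 : lam ^ (4 * k1 + 2) = ((-(32 / 25 : ℝ) ^ (4 * k1 + 2) : ℝ) : ℂ) := by
    rw [pow_add, e0]
    have : lam ^ 2 = ((-(32 / 25 : ℝ) ^ 2 : ℝ) : ℂ) := by
      rw [pow_two lam]
      apply Complex.ext
      · rw [Complex.mul_re, Complex.ofReal_re]
        simp only [lam]
        norm_num
      · rw [Complex.mul_im, Complex.ofReal_im]
        simp only [lam]
        norm_num
    rw [this, ← Complex.ofReal_mul]
    congr 1
    rw [pow_add]
    ring
  have h1 := key (4 * k1) (hk1 _ (by omega))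
  have h2 := key (4 * k1 + 2) (hk1 _ (by omega))
  have p0 : (0 : ℝ) < (32 / 25 : ℝ) ^ (4 * k1) := by positivity
  have p2 : (0 : ℝ) < (32 / 25 : ℝ) ^ (4 * k1 + 2) := by positivity
  rw [e0, av_in (by rw [Complex.ofReal_im, Complex.ofReal_re, abs_zero]; exact p0)] at h1
  rw [e2] at h2
  unfold av at h2
  rw [Complex.ofReal_im, Complex.ofReal_re, if_pos (by linarith), if_pos (by linarith)] at h2
  have h3 := congrArg Complex.re (h1.symm.trans h2)
  norm_num at h3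

/-- The main theorem. -/
theorem main :
    ¬ (∀ f : ℂ → ℂ, Differentiable ℂ f → (¬ ∃ c : ℂ, ∀ z : ℂ, f z = c) →
    ∀ ε : ℝ, 0 < ε → ∀ R : ℝ, ∃ r : ℝ, R ≤ r ∧ ∀ a : ℂ,
      ((∑ᶠ z ∈ Metric.closedBall (0 : ℂ) r, analyticOrderNatAt (fun w => f w - a) z : ℕ) : ENNReal) ≤
        ENNReal.ofReal ((1 + ε) / Real.pi) *
          ∫⁻ b : ℂ,
            ((∑ᶠ z ∈ Metric.closedBall (0 : ℂ) r, analyticOrderNatAt (fun w => f w - b) z : ℕ) : ENNReal) /
              ENNReal.ofReal ((1 + ‖b‖ ^ 2) ^ 2)) := by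
  intro H
  obtain ⟨f, hfd, R0, hR0⟩ := exists_f
  have hf : Good9 f R0 := ⟨hfd, hR0⟩
  obtain ⟨ε, hε, R, hR⟩ := global_step hf
  obtain ⟨r, hr, hbad⟩ := H f hfd (nonconst hf) ε hε R
  exact hR r hr hbad

end Pool.Agent.Helper30.F9
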