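import Pool.Agent.Helper30.F9.Expl4

/-! Open discs: measurability of the counting function and passage to the open disc. -/

set_option autoImplicit false

namespace Pool.Agent.Helper30.F9

open Real Metric Set MeasureTheory Filter Topology
open scoped ENNReal

/-- number of zeros in the open disc, with multiplicity -/
noncomputable def nop (h : ℂ → ℂ) (r : ℝ) : ℕ :=
  ∑ᶠ z ∈ Metric.ball (0 : ℂ) r, analyticOrderNatAt h z

lemma nop_eq {h : ℂ → ℂ} (hh : Differentiable ℂ h) {r R : ℝ} (hr : r ≤ R) :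
    nop h r = ∑ z ∈ zs hh R, if ‖z‖ < r then analyticOrderNatAt h z else 0 := by
  unfold nop
  have h2 : ∀ z : ℂ, (∑ᶠ (_ : z ∈ ball (0 : ℂ) r), analyticOrderNatAt h z)
      = if ‖z‖ < r then analyticOrderNatAt h z else 0 := by
    intro z
    by_cases hz : ‖z‖ < r
    · simp [hz]
    · simp [hz]
  rw [finsum_congr h2]
  apply finsum_eq_sum_of_support_subset
  intro z hz
  simp only [Function.mem_support, ne_eq, ite_eq_right_iff, Classical.not_imp] at hz
  simp only [zs, Finite.coe_toFinset, Set.mem_ofPred_eq]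
  exact ⟨hz.1.le.trans hr, hz.2⟩

lemma ncount_mono {h : ℂ → ℂ} (hh : Differentiable ℂ h) {r s : ℝ} (hr : r ≤ s) :
    ncount h r ≤ ncount h s := by
  rw [ncount_eq hh hr, ncount_eq hh (le_refl s)]
  apply Finset.sum_le_sum
  intro z _
  by_cases h1 : ‖z‖ ≤ r
  · rw [if_pos h1, if_pos (h1.trans hr)]
  · rw [if_neg h1]; exact Nat.zero_le _

lemma ncount_le_nop {h : ℂ → ℂ} (hh : Differentiable ℂ h) {r s : ℝ} (hr : r < s) :
    ncount h r ≤ nop h s := by
  rw [ncount_eq hh hr.le, nop_eq hh (le_refl s)]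
  apply Finset.sum_le_sum
  intro z _
  by_cases h1 : ‖z‖ ≤ r
  · rw [if_pos h1, if_pos (h1.trans_lt hr)]
  · rw [if_neg h1]; exact Nat.zero_le _

lemma nop_le_ncount {h : ℂ → ℂ} (hh : Differentiable ℂ h) (r : ℝ) : nop h r ≤ ncount h r := by
  rw [ncount_eq hh (le_refl r), nop_eq hh (le_refl r)]
  apply Finset.sum_le_sum
  intro z _
  by_cases h1 : ‖z‖ < r
  · rw [if_pos h1, if_pos h1.le]
  · rw [if_neg h1]; exact Nat.zero_le _

/-- right continuity of the counting function -/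
lemma ncount_right {h : ℂ → ℂ} (hh : Differentiable ℂ h) (r : ℝ) :
    ∀ᶠ s in 𝓝[>] r, ncount h s = ncount h r := by
  have h1 : ∀ z ∈ zs hh (r + 1), ∀ᶠ s in 𝓝[>] r, (‖z‖ ≤ s ↔ ‖z‖ ≤ r) := by
    intro z _
    rcases le_or_gt ‖z‖ r with h2 | h2
    · filter_upwards [self_mem_nhdsWithin] with s hs
      exact ⟨fun _ => h2, fun _ => h2.trans (le_of_lt hs)⟩
    · filter_upwards [(eventually_lt_nhds h2).filter_mono nhdsWithin_le_nhds] with s hs
      exact ⟨fun h3 => absurd h3 (not_le.mpr hs), fun h3 => absurd h3 (not_le.mpr h2)⟩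
  have h2 := (Finset.eventually_all (zs hh (r + 1))).mpr h1
  have h3 : ∀ᶠ s in 𝓝[>] r, s < r + 1 :=
    (eventually_lt_nhds (by linarith)).filter_mono nhdsWithin_le_nhds
  filter_upwards [h2, h3] with s hs hs'
  rw [ncount_eq hh (le_of_lt hs'), ncount_eq hh (show r ≤ r + 1 by linarith)]
  apply Finset.sum_congr rfl
  intro z hz
  by_cases h4 : ‖z‖ ≤ r
  · rw [if_pos h4, if_pos ((hs z hz).mpr h4)]
  · rw [if_neg h4, if_neg (fun h5 => h4 ((hs z hz).mp h5))]

/-- measurability of the mean of `log |F - a|` in `a` -/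
lemma Mc_meas {F : ℂ → ℂ} (hF : Differentiable ℂ F) (R : ℝ) : Measurable (fun a => Mc F a R) := by
  unfold Mc circleAverage
  simp only [smul_eq_mul]
  apply Measurable.const_mul
  have h1 : Measurable (fun p : ℂ × ℝ => Real.log ‖F (circleMap 0 R p.2) - p.1‖) := by
    apply Real.measurable_log.comp
    apply Measurable.norm
    apply Measurable.sub _ measurable_fst
    exact hF.continuous.measurable.comp ((continuous_circleMap 0 R).measurable.comp measurable_snd)
  simp only [intervalIntegral.integral_of_le (show (0 : ℝ) ≤ 2 * π by positivity)]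
  exact (h1.stronglyMeasurable.integral_prod_right').measurable

lemma ncount_meas {f : ℂ → ℂ} (hf : Differentiable ℂ f) {r : ℝ} (hr : 0 < r) :
    Measurable (fun a : ℂ => (ncount (fun w => f w - a) r : ℝ)) := by
  set s : ℕ → ℝ := fun j => r * (1 + 1 / (j + 1)) with hs
  have hsr : ∀ j, r < s j := by
    intro j
    have : (0 : ℝ) < 1 / ((j : ℝ) + 1) := by positivity
    simp only [hs]
    nlinarith
  have hst : Tendsto s atTop (𝓝[>] r) := by
    apply tendsto_nhdsWithin_of_tendsto_nhds_of_eventually_within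
    · have h1 : Tendsto (fun j : ℕ => r * (1 + 1 / ((j : ℝ) + 1))) atTop (𝓝 (r * (1 + 0))) :=
        (tendsto_one_div_add_atTop_nhds_zero_nat.const_add 1).const_mul r
      rw [add_zero, mul_one] at h1
      exact h1
    · exact Eventually.of_forall hsr
  refine measurable_of_tendsto_metrizable
    (f := fun (j : ℕ) (a : ℂ) => (Mc f a (s j) - Mc f a r) / Real.log (s j / r)) ?_ ?_
  · intro j
    exact ((Mc_meas hf (s j)).sub (Mc_meas hf r)).div_const _
  · rw [tendsto_pi_nhds]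
    intro a
    have h1 : ∀ᶠ j in atTop, ncount (fun w => f w - a) (s j) = ncount (fun w => f w - a) r :=
      hst.eventually (ncount_right (hf.sub_const a) r)
    apply tendsto_const_nhds.congr'
    filter_upwards [h1] with j hj
    have hL : 0 < Real.log (s j / r) := Real.log_pos ((one_lt_div hr).mpr (hsr j))
    obtain ⟨b1, b2⟩ := jensen_bounds (hf.sub_const a) hr (hsr j).le
    rw [hj] at b2
    have b3 : Mc f a (s j) - Mc f a r = (ncount (fun w => f w - a) r : ℝ) * Real.log (s j / r) :=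
      le_antisymm b2 b1
    rw [b3, mul_div_cancel_right₀ _ hL.ne']

/-- the radii `r (1 - 1/(j+2))` -/
noncomputable def rj (r : ℝ) (j : ℕ) : ℝ := r * (1 - 1 / (j + 2))

lemma rj_lt {r : ℝ} (hr : 0 < r) (j : ℕ) : rj r j < r := by
  unfold rj
  have : (0 : ℝ) < 1 / ((j : ℝ) + 2) := by positivity
  nlinarith

lemma rj_ge {r : ℝ} (hr : 0 < r) (j : ℕ) : r / 2 ≤ rj r j := by
  unfold rj
  have : (1 : ℝ) / ((j : ℝ) + 2) ≤ 1 / 2 := by
    apply one_div_le_one_div_of_le (by norm_num)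
    have : (0 : ℝ) ≤ j := Nat.cast_nonneg j
    linarith
  nlinarith

lemma rj_mono {r : ℝ} (hr : 0 < r) : Monotone (rj r) := by
  intro i j hij
  unfold rj
  have : (1 : ℝ) / ((j : ℝ) + 2) ≤ 1 / ((i : ℝ) + 2) := by
    apply one_div_le_one_div_of_le (by positivity)
    have : (i : ℝ) ≤ j := by exact_mod_cast hij
    linarith
  nlinarith

lemma rj_tendsto (r : ℝ) : Tendsto (rj r) atTop (𝓝 r) := by
  have h0 : Tendsto (fun j : ℕ => (1 : ℝ) / ((j : ℝ) + 2)) atTop (𝓝 0) := by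
    have := (tendsto_add_atTop_iff_nat 1).mpr (tendsto_one_div_add_atTop_nhds_zero_nat (𝕜 := ℝ))
    refine this.congr ?_
    intro j
    push_cast
    ring_nf
  have h1 : Tendsto (fun j : ℕ => r * (1 - 1 / ((j : ℝ) + 2))) atTop (𝓝 (r * (1 - 0))) :=
    (h0.const_sub 1).const_mul r
  rw [sub_zero, mul_one] at h1
  exact h1

lemma nop_sup {h : ℂ → ℂ} (hh : Differentiable ℂ h) {r : ℝ} (hr : 0 < r) :
    (nop h r : ℝ≥0∞) = ⨆ j : ℕ, (ncount h (rj r j) : ℝ≥0∞) := by
  apply le_antisymm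
  · have h1 : ∀ z ∈ zs hh r, ∀ᶠ j in atTop, (‖z‖ < r → ‖z‖ ≤ rj r j) := by
      intro z _
      by_cases h2 : ‖z‖ < r
      · filter_upwards [(rj_tendsto r).eventually (lt_mem_nhds h2)] with j hj _
        exact hj.le
      · exact Eventually.of_forall (fun j h3 => absurd h3 h2)
    obtain ⟨j, hj⟩ := ((Finset.eventually_all (zs hh r)).mpr h1).exists
    refine le_trans ?_ (le_iSup _ j)
    have h3 : nop h r ≤ ncount h (rj r j) := by
      rw [ncount_eq hh (rj_lt hr j).le, nop_eq hh (le_refl r)]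
      apply Finset.sum_le_sum
      intro z hz
      by_cases h1 : ‖z‖ < r
      · rw [if_pos h1, if_pos (hj z hz h1)]
      · rw [if_neg h1]; exact Nat.zero_le _
    exact_mod_cast h3
  · apply iSup_le
    intro j
    exact_mod_cast ncount_le_nop hh (rj_lt hr j)

/-- the integral over the sphere, open disc -/
lemma lint_sup {f : ℂ → ℂ} (hf : Differentiable ℂ f) {r : ℝ} (hr : 0 < r) :
    ∫⁻ b : ℂ, (nop (fun w => f w - b) r : ℝ≥0∞) / ENNReal.ofReal ((1 + ‖b‖ ^ 2) ^ 2) =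
      ⨆ j : ℕ, ∫⁻ b : ℂ, (ncount (fun w => f w - b) (rj r j) : ℝ≥0∞) /
        ENNReal.ofReal ((1 + ‖b‖ ^ 2) ^ 2) := by
  rw [← lintegral_iSup]
  · apply lintegral_congr
    intro b
    rw [nop_sup (hf.sub_const b) hr, ENNReal.iSup_div]
  · intro j
    have h1 := (ncount_meas hf (show 0 < rj r j by linarith [rj_ge hr j])).ennreal_ofReal
    simp only [ENNReal.ofReal_natCast] at h1
    apply h1.div
    fun_prop
  · intro i j hij b
    apply ENNReal.div_le_div_right
    exact_mod_cast ncount_mono (hf.sub_const b) (rj_mono hr hij)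

/-- the order of the example -/
noncomputable def ord9 : ℝ := Real.log 2 / Real.log (32 / 25)

lemma Pf_growth : ∃ C : ℝ, 0 < C ∧ ∀ w : ℂ, 1 ≤ ‖w‖ → ‖Pf w‖ ≤ Real.exp (C * ‖w‖ ^ ord9) := by
  obtain ⟨C, hC, h⟩ := upper_iter
  refine ⟨C, hC, ?_⟩
  intro w hw
  obtain ⟨k, hk, hk'⟩ := exists_nat_pow_near hw qr_gt
  have hq : 0 < qr ^ k := pow_pos qr_pos k
  have hz : ‖w / lam ^ k‖ ≤ 2 := by
    rw [norm_div_lam_pow, div_le_iff₀ hq]
    rw [pow_succ] at hk'
    have : qr ≤ 2 := by norm_num [qr]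
    nlinarith
  have h1 := h (w / lam ^ k) hz k
  rw [mul_div_cancel₀ _ (pow_ne_zero k lam_ne)] at h1
  refine h1.trans (Real.exp_le_exp.mpr ?_)
  rw [mul_comm]
  apply mul_le_mul_of_nonneg_left _ hC.le
  have hL : 0 < Real.log (32 / 25) := Real.log_pos (by norm_num)
  have hord : 0 ≤ ord9 := by
    unfold ord9
    have : 0 < Real.log 2 := Real.log_pos (by norm_num)
    positivity
  have h2 : (2 : ℝ) ^ k = (qr ^ k) ^ ord9 := by
    rw [Real.rpow_def_of_pos hq, Real.log_pow]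
    have e : (k : ℝ) * Real.log qr * ord9 = k * Real.log 2 := by
      unfold ord9
      have : Real.log qr = Real.log (32 / 25) := rfl
      rw [this]
      field_simp
    rw [e, ← Real.log_pow, Real.exp_log (by positivity)]
  rw [h2]
  exact Real.rpow_le_rpow hq.le hk hord

lemma f_growth {f : ℂ → ℂ} {R0 : ℝ} (hf : Good9 f R0) : ∃ C R : ℝ, ∀ z : ℂ, R ≤ ‖z‖ →
    ‖f z‖ ≤ Real.exp (C * ‖z‖ ^ ord9) := by
  obtain ⟨C, hC, h⟩ := Pf_growth
  refine ⟨C + 3, max R0 1, ?_⟩
  intro z hz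
  have hz1 : 1 ≤ ‖z‖ := (le_max_right _ _).trans hz
  have h1 := hf.2 z ((le_max_left _ _).trans hz)
  have h2 := h z hz1
  have h3 := (av_norm z).2
  have e : f z = (f z - av z - Pf z) + av z + Pf z := by ring
  have h4 := norm_add₃_le (a := f z - av z - Pf z) (b := av z) (c := Pf z)
  rw [← e] at h4
  have hord : 0 ≤ ord9 := by
    unfold ord9
    have a1 : 0 < Real.log 2 := Real.log_pos (by norm_num)
    have a2 : 0 < Real.log (32 / 25) := Real.log_pos (by norm_num)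
    positivity
  have h5 : 1 ≤ ‖z‖ ^ ord9 := Real.one_le_rpow hz1 hord
  have h6 : Real.exp ((C + 3) * ‖z‖ ^ ord9) = Real.exp (C * ‖z‖ ^ ord9) * Real.exp (3 * ‖z‖ ^ ord9) := by
    rw [← Real.exp_add]; ring_nf
  have h7 : (4 : ℝ) ≤ Real.exp (3 * ‖z‖ ^ ord9) := by
    have := Real.add_one_le_exp (3 * ‖z‖ ^ ord9)
    linarith
  have h8 : 1 ≤ Real.exp (C * ‖z‖ ^ ord9) := Real.one_le_exp (by positivity)
  rw [h6]
  nlinarith

/-- open disc, explicit constant -/
theorem open_expl {f : ℂ → ℂ} {R0 : ℝ} (hf : Good9 f R0) : ∃ R : ℝ, ∀ r : ℝ, R ≤ r → ∃ a : ℂ,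
    ENNReal.ofReal ((1 + 1 / 10 ^ 8) / Real.pi) *
      (∫⁻ b : ℂ, (nop (fun w => f w - b) r : ℝ≥0∞) / ENNReal.ofReal ((1 + ‖b‖ ^ 2) ^ 2)) <
      (nop (fun w => f w - a) r : ℝ≥0∞) := by
  obtain ⟨R, hR⟩ := global_expl hf
  refine ⟨2 * max R 1, ?_⟩
  intro r hr
  have hr1 : 2 * R ≤ r := le_trans (by linarith [le_max_left R 1]) hr
  have hr2 : 2 ≤ r := le_trans (by linarith [le_max_right R 1]) hr
  have hr0 : 0 < r := by linarith
  have hbad : ∀ s : ℝ, R ≤ s → ∃ a : ℂ,
      ENNReal.ofReal ((1 + 1 / (5 * 10 ^ 7)) / Real.pi) *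
      (∫⁻ b : ℂ, (ncount (fun w => f w - b) s : ℝ≥0∞) / ENNReal.ofReal ((1 + ‖b‖ ^ 2) ^ 2)) <
      (ncount (fun w => f w - a) s : ℝ≥0∞) := by
    intro s hs
    have h1 := hR s hs
    unfold Bad at h1
    push Not at h1
    exact h1
  by_contra hcon
  push Not at hcon
  set I : ℝ≥0∞ := ∫⁻ b : ℂ, (nop (fun w => f w - b) r : ℝ≥0∞) / ENNReal.ofReal ((1 + ‖b‖ ^ 2) ^ 2) with hI
  have hπ := Real.pi_pos
  -- finiteness
  have hfin : I ≠ ⊤ := by
    obtain ⟨a, ha⟩ := hbad r (by linarith)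
    have h1 : I ≤ ∫⁻ b : ℂ, (ncount (fun w => f w - b) r : ℝ≥0∞) / ENNReal.ofReal ((1 + ‖b‖ ^ 2) ^ 2) := by
      apply lintegral_mono
      intro b
      apply ENNReal.div_le_div_right
      exact_mod_cast nop_le_ncount (hf.1.sub_const b) r
    intro htop
    rw [htop, top_le_iff] at h1
    rw [h1, ENNReal.mul_top (by simp only [ne_eq, ENNReal.ofReal_eq_zero, not_le]; positivity)] at ha
    exact not_top_lt ha
  have hpos : I ≠ 0 := by
    obtain ⟨a, ha⟩ := hbad (rj r 0) (by linarith [rj_ge hr0 0])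
    intro h0
    have h1 := hcon a
    rw [h0, mul_zero] at h1
    have h2 : (ncount (fun w => f w - a) (rj r 0) : ℝ≥0∞) ≤ (nop (fun w => f w - a) r : ℝ≥0∞) := by
      exact_mod_cast ncount_le_nop (hf.1.sub_const a) (rj_lt hr0 0)
    exact absurd (lt_of_lt_of_le ha (h2.trans h1)) not_lt_zero
  have h1 : ENNReal.ofReal ((1 + 1 / (5 * 10 ^ 7)) / Real.pi) * I ≤
      ENNReal.ofReal ((1 + 1 / 10 ^ 8) / Real.pi) * I := by
    conv_lhs => rw [hI, lint_sup hf.1 hr0, ENNReal.mul_iSup]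
    apply iSup_le
    intro j
    obtain ⟨a, ha⟩ := hbad (rj r j) (by linarith [rj_ge hr0 j])
    have h2 : (ncount (fun w => f w - a) (rj r j) : ℝ≥0∞) ≤ (nop (fun w => f w - a) r : ℝ≥0∞) := by
      exact_mod_cast ncount_le_nop (hf.1.sub_const a) (rj_lt hr0 j)
    exact ha.le.trans (h2.trans (hcon a))
  rw [ENNReal.mul_le_mul_iff_left hpos hfin, ENNReal.ofReal_le_ofReal_iff (by positivity),
    div_le_div_iff_of_pos_right hπ] at h1
  norm_num at h1

end Pool.Agent.Helper30.F9
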