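import Pool.Agent.Helper30.F9.WFun

set_option autoImplicit false

namespace Pool.Agent.Helper30.F9

open Real Metric Set MeasureTheory Filter Topology

/-- The logarithmic derivative times `z`. -/
noncomputable def Jf (z : ℂ) : ℂ := z * (deriv Pf z / Pf z)

/-- The power series part. -/
noncomputable def Hf (w : ℂ) : ℂ := ∑' n : ℕ, w ^ (n + 1) / cf (n + 1)

lemma Jf_formula {z : ℂ} (hz : ‖z‖ < qr ^ 3) (h0 : z ≠ 1) (h1 : z ≠ lam) (h2 : z ≠ lam ^ 2) :
    Jf z = z / (z - 1) + 2 * (z / (z - lam)) + 4 * (z / (z - lam ^ 2)) - 8 * Hf (z / lam ^ 3) := by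
  have hl := lam_ne
  have hw : ‖z / lam ^ 3‖ < 1 := by
    rw [norm_div_lam_pow, div_lt_one (pow_pos qr_pos 3)]
    exact hz
  have hP : Pf =ᶠ[𝓝 z] fun z => ((1 - z) * (1 - z / lam) ^ 2 * (1 - z / lam ^ 2) ^ 4) *
      Complex.exp (8 * Lf (z / lam ^ 3)) := by
    refine (Pf_eventuallyEq hz).trans (Eventually.of_forall ?_)
    intro w
    simp only [Pm, Finset.prod_range_succ, Finset.prod_range_zero]
    norm_num
  have e0 : (1 - z) ≠ 0 := sub_ne_zero.mpr (Ne.symm h0)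
  have e1 : (1 - z / lam) ≠ 0 := by
    intro h
    apply h1
    field_simp at h
    linear_combination -h
  have e2 : (1 - z / lam ^ 2) ≠ 0 := by
    intro h
    apply h2
    field_simp at h
    linear_combination -h
  have d0 : HasDerivAt (fun z : ℂ => 1 - z) (-1) z := by
    simpa using (hasDerivAt_id z).const_sub 1
  have d1 : HasDerivAt (fun z : ℂ => 1 - z / lam) (-(1 / lam)) z := by
    simpa using ((hasDerivAt_id z).div_const lam).const_sub 1
  have d2 : HasDerivAt (fun z : ℂ => 1 - z / lam ^ 2) (-(1 / lam ^ 2)) z := by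
    simpa using ((hasDerivAt_id z).div_const (lam ^ 2)).const_sub 1
  have d3 : HasDerivAt (fun z : ℂ => Lf (z / lam ^ 3))
      ((-∑' n : ℕ, (z / lam ^ 3) ^ n / cf (n + 1)) * (1 / lam ^ 3)) z :=
    HasDerivAt.comp (h₂ := Lf) (h := fun z : ℂ => z / lam ^ 3) z (Lf_hasDerivAt hw)
      ((hasDerivAt_id z).div_const (lam ^ 3))
  have d4 := (d3.const_mul 8).cexp
  have d5 := ((d0.mul (d1.fun_pow 2)).mul (d2.fun_pow 4)).mul d4
  have hd : deriv Pf z = _ := hP.deriv_eq.trans d5.deriv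
  have hHf : Hf (z / lam ^ 3) = (z / lam ^ 3) * ∑' n : ℕ, (z / lam ^ 3) ^ n / cf (n + 1) := by
    unfold Hf
    rw [← tsum_mul_left]
    congr 1
    funext n
    rw [pow_succ]
    ring
  unfold Jf
  rw [hd, hP.eq_of_nhds, hHf]
  set T := ∑' n : ℕ, (z / lam ^ 3) ^ n / cf (n + 1) with hT
  set E := Complex.exp (8 * Lf (z / lam ^ 3)) with hE
  have hE0 : E ≠ 0 := Complex.exp_ne_zero _
  have f0 : z / (z - 1) = -z / (1 - z) := by
    rw [div_eq_div_iff (sub_ne_zero.mpr h0) e0]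
    ring
  have f1 : z / (z - lam) = -(z / lam) / (1 - z / lam) := by
    rw [div_eq_div_iff (sub_ne_zero.mpr h1) e1]
    field_simp
    ring
  have f2 : z / (z - lam ^ 2) = -(z / lam ^ 2) / (1 - z / lam ^ 2) := by
    rw [div_eq_div_iff (sub_ne_zero.mpr h2) e2]
    field_simp
    ring
  rw [f0, f1, f2]
  simp only [Pi.mul_apply]
  set A := (1 - z) with hA
  set B := (1 - z / lam) with hB
  set C := (1 - z / lam ^ 2) with hC
  clear_value A B C E T
  field_simp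
  ring

lemma quad_ineq {u : ℂ} {r r' : ℝ} (h : r ≤ r') (h1 : 1 ≤ r * ‖u‖) :
    ‖1 - (r : ℂ) * u‖ ^ 2 * r' ≤ ‖1 - (r' : ℂ) * u‖ ^ 2 * r := by
  have e : ∀ s : ℝ, ‖1 - (s : ℂ) * u‖ ^ 2 = 1 - 2 * s * u.re + s ^ 2 * ‖u‖ ^ 2 := by
    intro s
    rw [← Complex.normSq_eq_norm_sq, ← Complex.normSq_eq_norm_sq, Complex.normSq_apply,
      Complex.normSq_apply]
    simp
    ring
  rw [e, e]
  have h2 : 1 ≤ r * r' * ‖u‖ ^ 2 := by
    have h3 : 1 ≤ r' * ‖u‖ := h1.trans (mul_le_mul_of_nonneg_right h (norm_nonneg _))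
    have h4 : 1 * 1 ≤ (r * ‖u‖) * (r' * ‖u‖) := mul_le_mul h1 h3 (by norm_num) (by positivity)
    calc (1 : ℝ) = 1 * 1 := by ring
      _ ≤ (r * ‖u‖) * (r' * ‖u‖) := h4
      _ = r * r' * ‖u‖ ^ 2 := by ring
  have h5 : 0 ≤ (r' - r) * (r * r' * ‖u‖ ^ 2 - 1) := mul_nonneg (by linarith) (by linarith)
  nlinarith

lemma exp_mul_mem {ω : ℂ} (hω : ‖ω‖ = 1) {x : ℝ} (hx : 0 ≤ x) : (Real.exp x : ℂ) * ω ∈ UU := by
  show (4 / 5 : ℝ) < ‖(Real.exp x : ℂ) * ω‖
  rw [norm_mul, Complex.norm_real, hω, mul_one, Real.norm_of_nonneg (Real.exp_pos _).le]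
  have := Real.add_one_le_exp x
  linarith

lemma term_mono {ω : ℂ} (hω : ‖ω‖ = 1) {x x' : ℝ} (hx : 0 ≤ x) (h : x ≤ x') (j : ℕ) :
    (x' - x) / 2 ≤ Real.log ‖1 - lam ^ (j + 1) * ((Real.exp x' : ℂ) * ω)‖ -
      Real.log ‖1 - lam ^ (j + 1) * ((Real.exp x : ℂ) * ω)‖ := by
  set u : ℂ := lam ^ (j + 1) * ω with hu
  have hu1 : 1 ≤ ‖u‖ := by
    rw [hu, norm_mul, norm_lam_pow, hω, mul_one]
    exact one_le_pow₀ qr_gt.le
  have e1 : ∀ y : ℝ, lam ^ (j + 1) * ((Real.exp y : ℂ) * ω) = (Real.exp y : ℂ) * u := by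
    intro y
    rw [hu]
    ring
  have h0 : 1 - (Real.exp x : ℂ) * u ≠ 0 := by
    rw [← e1]
    exact one_sub_ne (exp_mul_mem hω hx) j
  have h0' : 1 - (Real.exp x' : ℂ) * u ≠ 0 := by
    rw [← e1]
    exact one_sub_ne (exp_mul_mem hω (hx.trans h)) j
  rw [e1, e1]
  have h2 : 1 ≤ Real.exp x * ‖u‖ := by
    have h3 : 1 ≤ Real.exp x := Real.one_le_exp hx
    nlinarith
  have h4 := quad_ineq (Real.exp_le_exp.mpr h) h2
  have n0 : 0 < ‖1 - (Real.exp x : ℂ) * u‖ := norm_pos_iff.mpr h0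
  have n0' : 0 < ‖1 - (Real.exp x' : ℂ) * u‖ := norm_pos_iff.mpr h0'
  have h5 := Real.log_le_log (by positivity) h4
  rw [Real.log_mul (by positivity) (Real.exp_pos _).ne', Real.log_mul (by positivity)
    (Real.exp_pos _).ne', Real.log_pow, Real.log_pow, Real.log_exp, Real.log_exp] at h5
  simp only [Nat.cast_ofNat] at h5
  linarith

lemma hasDerivAt_log_norm {h : ℝ → ℂ} {h' : ℂ} {x : ℝ} (hd : HasDerivAt h h' x) (h0 : h x ≠ 0) :
    HasDerivAt (fun t => Real.log ‖h t‖) (h' / h x).re x := by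
  have h1 := hd.norm_sq
  have h2 : ‖h x‖ ^ 2 ≠ 0 := by
    have := norm_pos_iff.mpr h0
    positivity
  have h3 := (h1.log h2).const_mul (1 / 2)
  have h4 : (fun t => Real.log ‖h t‖) = fun t => 1 / 2 * Real.log (‖h t‖ ^ 2) := by
    funext t
    rw [Real.log_pow]
    push_cast
    ring
  rw [h4]
  have h5 : (h' / h x).re = 1 / 2 * (2 * inner ℝ (h x) h' / ‖h x‖ ^ 2) := by
    rw [Complex.div_re, Complex.inner, ← Complex.normSq_eq_norm_sq]
    simp
    ring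
  rw [h5]
  exact h3

lemma logP_mono {ω : ℂ} {g x x' : ℝ} (h : x ≤ x')
    (hP : ∀ u ∈ Icc x x', Pf ((Real.exp u : ℂ) * ω) ≠ 0)
    (hJ : ∀ u ∈ Icc x x', g ≤ (Jf ((Real.exp u : ℂ) * ω)).re) :
    g * (x' - x) ≤ Real.log ‖Pf ((Real.exp x' : ℂ) * ω)‖ -
      Real.log ‖Pf ((Real.exp x : ℂ) * ω)‖ := by
  have hder : ∀ u ∈ Icc x x', HasDerivAt (fun u : ℝ => Real.log ‖Pf ((Real.exp u : ℂ) * ω)‖ - g * u)
      ((Jf ((Real.exp u : ℂ) * ω)).re - g) u := by
    intro u hu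
    have d1 : HasDerivAt (fun u : ℝ => (Real.exp u : ℂ) * ω) ((Real.exp u : ℂ) * ω) u :=
      (Real.hasDerivAt_exp u).ofReal_comp.mul_const ω
    have d2 : HasDerivAt Pf (deriv Pf ((Real.exp u : ℂ) * ω)) ((Real.exp u : ℂ) * ω) :=
      (Pf_differentiable _).hasDerivAt
    have d3 : HasDerivAt (fun u : ℝ => Pf ((Real.exp u : ℂ) * ω))
        (deriv Pf ((Real.exp u : ℂ) * ω) * ((Real.exp u : ℂ) * ω)) u :=
      HasDerivAt.comp (h₂ := Pf) (h := fun u : ℝ => (Real.exp u : ℂ) * ω) u d2 d1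
    have d4 := hasDerivAt_log_norm d3 (hP u hu)
    have d5 : HasDerivAt (fun u : ℝ => g * u) g u := by
      simpa using (hasDerivAt_id u).const_mul g
    have d6 := d4.fun_sub d5
    have e1 : Jf ((Real.exp u : ℂ) * ω) = deriv Pf ((Real.exp u : ℂ) * ω) *
        ((Real.exp u : ℂ) * ω) / Pf ((Real.exp u : ℂ) * ω) := by
      unfold Jf
      ring
    rw [e1]
    exact d6
  have hm : MonotoneOn (fun u : ℝ => Real.log ‖Pf ((Real.exp u : ℂ) * ω)‖ - g * u) (Icc x x') := by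
    apply monotoneOn_of_deriv_nonneg (convex_Icc x x')
    · intro u hu
      exact (hder u hu).continuousAt.continuousWithinAt
    · intro u hu
      rw [interior_Icc] at hu
      exact (hder u (Ioo_subset_Icc_self hu)).differentiableAt.differentiableWithinAt
    · intro u hu
      rw [interior_Icc] at hu
      rw [(hder u (Ioo_subset_Icc_self hu)).deriv]
      linarith [hJ u (Ioo_subset_Icc_self hu)]
  have h2 := hm (left_mem_Icc.mpr h) (right_mem_Icc.mpr h) h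
  simp only at h2
  linarith

/-- Radial monotonicity of the potential. -/
theorem V_mono {ω : ℂ} (hω : ‖ω‖ = 1) {g x x' : ℝ} (hx : 0 ≤ x) (h : x ≤ x')
    (hP : ∀ u ∈ Icc x x', Pf ((Real.exp u : ℂ) * ω) ≠ 0)
    (hJ : ∀ u ∈ Icc x x', -1 / 2 + g ≤ (Jf ((Real.exp u : ℂ) * ω)).re) :
    g * (x' - x) ≤ Vf ((Real.exp x' : ℂ) * ω) - Vf ((Real.exp x : ℂ) * ω) := by
  have h1 := logP_mono h hP hJ
  have t1 := Vf_tendsto' (exp_mul_mem hω hx) (hP x (left_mem_Icc.mpr h))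
  have t2 := Vf_tendsto' (exp_mul_mem hω (hx.trans h)) (hP x' (right_mem_Icc.mpr h))
  have t3 := t2.sub t1
  have t4 : Tendsto (fun k : ℕ => g * (x' - x) - (1 / 2 : ℝ) ^ k * ((x' - x) / 2)) atTop
      (𝓝 (g * (x' - x) - 0 * ((x' - x) / 2))) :=
    (((tendsto_pow_atTop_nhds_zero_of_lt_one (by norm_num) (by norm_num)).mul_const _).const_sub _)
  rw [zero_mul, sub_zero] at t4
  refine le_of_tendsto_of_tendsto' t4 t3 ?_
  intro k
  have h5 : (1 - (1 / 2 : ℝ) ^ k) * ((x' - x) / 2) ≤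
      Lk k ((Real.exp x' : ℂ) * ω) - Lk k ((Real.exp x : ℂ) * ω) := by
    unfold Lk
    rw [← Finset.sum_sub_distrib]
    have h6 : (1 - (1 / 2 : ℝ) ^ k) = ∑ j ∈ Finset.range k, (1 / 2 : ℝ) ^ (j + 1) := by
      induction k with
      | zero => simp
      | succ k ih =>
        rw [Finset.sum_range_succ, ← ih, pow_succ]
        ring
    rw [h6, Finset.sum_mul]
    apply Finset.sum_le_sum
    intro j _
    rw [← mul_sub]
    exact mul_le_mul_of_nonneg_left (term_mono hω hx h j) (by positivity)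
  nlinarith

end Pool.Agent.Helper30.F9
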