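import Pool.Agent.Helper30.F9.EFun

set_option autoImplicit false

namespace Pool.Agent.Helper30.F9

open Real Metric Set MeasureTheory Filter Topology

lemma pow_half_mul (k : ℕ) : (1 / 2 : ℝ) ^ k * 2 ^ k = 1 := by rw [← mul_pow]; norm_num

lemma lim_log_perturb {p y : ℕ → ℝ} {V c : ℝ} (hc : 1 ≤ c)
    (hy : ∀ᶠ k in atTop, 0 < p k ∧ p k / c ≤ y k ∧ y k ≤ c * p k)
    (hV : Tendsto (fun k : ℕ => (1 / 2 : ℝ) ^ k * Real.log (p k)) atTop (𝓝 V)) :
    Tendsto (fun k : ℕ => (1 / 2 : ℝ) ^ k * Real.log (y k)) atTop (𝓝 V) := by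
  have hc0 : 0 < c := by linarith
  have h1 : Tendsto (fun k : ℕ => (1 / 2 : ℝ) ^ k * Real.log (y k) -
      (1 / 2 : ℝ) ^ k * Real.log (p k)) atTop (𝓝 0) := by
    have h2 : Tendsto (fun k : ℕ => (1 / 2 : ℝ) ^ k * Real.log c) atTop (𝓝 (0 * Real.log c)) :=
      (tendsto_pow_atTop_nhds_zero_of_lt_one (by norm_num) (by norm_num)).mul_const _
    rw [zero_mul] at h2
    refine squeeze_zero_norm' ?_ h2
    filter_upwards [hy] with k hk
    obtain ⟨k1, k2, k3⟩ := hk
    have k0 : 0 < y k := (by positivity : 0 < p k / c).trans_le k2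
    rw [← mul_sub, norm_mul, Real.norm_of_nonneg (by positivity)]
    apply mul_le_mul_of_nonneg_left _ (by positivity)
    rw [Real.norm_eq_abs, abs_le]
    have l1 := Real.log_le_log (by positivity) k2
    have l2 := Real.log_le_log k0 k3
    rw [Real.log_div k1.ne' hc0.ne'] at l1
    rw [Real.log_mul hc0.ne' k1.ne'] at l2
    constructor <;> linarith
  have h3 := h1.add hV
  simp only [sub_add_cancel, zero_add] at h3
  exact h3

lemma lim_posLog {y : ℕ → ℝ} {V : ℝ}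
    (h : Tendsto (fun k : ℕ => (1 / 2 : ℝ) ^ k * Real.log (y k)) atTop (𝓝 V)) :
    Tendsto (fun k : ℕ => (1 / 2 : ℝ) ^ k * log⁺ (y k)) atTop (𝓝 (max 0 V)) := by
  have h1 : Tendsto (fun k : ℕ => max 0 ((1 / 2 : ℝ) ^ k * Real.log (y k))) atTop
      (𝓝 (max 0 V)) := tendsto_const_nhds.max h
  refine h1.congr ?_
  intro k
  have h2 : log⁺ (y k) = max 0 (Real.log (y k)) := rfl
  rw [h2, mul_max_of_nonneg _ _ (by positivity), mul_zero]

lemma half_log_exp (K : ℝ) {p : ℝ} (hp : 0 < p) (k : ℕ) :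
    (1 / 2 : ℝ) ^ k * Real.log (p * Real.exp (K * 2 ^ k)) = (1 / 2 : ℝ) ^ k * Real.log p + K := by
  rw [Real.log_mul hp.ne' (Real.exp_pos _).ne', Real.log_exp, mul_add]
  congr 1
  calc (1 / 2 : ℝ) ^ k * (K * 2 ^ k) = K * ((1 / 2 : ℝ) ^ k * 2 ^ k) := by ring
    _ = K := by rw [pow_half_mul, mul_one]

lemma ev_large {p : ℕ → ℝ} {V : ℝ} (hV : 0 < V) (hp : ∀ k, 0 < p k)
    (h : Tendsto (fun k : ℕ => (1 / 2 : ℝ) ^ k * Real.log (p k)) atTop (𝓝 V)) (B : ℝ) (hB : 0 < B) :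
    ∀ᶠ k in atTop, B ≤ p k := by
  have h1 := (tendsto_order.mp h).1 (V / 2) (by linarith)
  have h15 : Tendsto (fun k : ℕ => (2 : ℝ) ^ k) atTop atTop :=
    tendsto_pow_atTop_atTop_of_one_lt (by norm_num)
  filter_upwards [h1, h15.eventually_ge_atTop (Real.log B / (V / 2))] with k k1 k2
  rw [div_le_iff₀ (by linarith)] at k2
  rw [← Real.log_le_log_iff hB (hp k)]
  have k3 : (0 : ℝ) < 2 ^ k := by positivity
  have k4 : 2 ^ k * (V / 2) ≤ Real.log (p k) := by
    have := mul_le_mul_of_nonneg_left k1.le k3.le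
    calc _ ≤ 2 ^ k * ((1 / 2) ^ k * Real.log (p k)) := this
      _ = ((1 / 2 : ℝ) ^ k * 2 ^ k) * Real.log (p k) := by ring
      _ = _ := by rw [pow_half_mul, one_mul]
  linarith

lemma ev_small {p : ℕ → ℝ} {V : ℝ} (hV : V < 0) (hp : ∀ k, 0 < p k)
    (h : Tendsto (fun k : ℕ => (1 / 2 : ℝ) ^ k * Real.log (p k)) atTop (𝓝 V)) (B : ℝ) (hB : 0 < B) :
    ∀ᶠ k in atTop, p k ≤ B := by
  have h1 : Tendsto (fun k : ℕ => (1 / 2 : ℝ) ^ k * Real.log ((p k)⁻¹)) atTop (𝓝 (-V)) := by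
    refine h.neg.congr ?_
    intro k
    rw [Real.log_inv]
    ring
  have h2 := ev_large (V := -V) (by linarith) (fun k => inv_pos.mpr (hp k)) h1 B⁻¹ (inv_pos.mpr hB)
  filter_upwards [h2] with k hk
  exact (inv_le_inv₀ hB (hp k)).mp hk

/-- Convergence when a bounded nonzero constant part is present. -/
lemma lim_out {z : ℂ} (hz : z ∈ UU) (hW : ‖Wf z‖ ≠ 1) {K : ℝ} {w F : ℕ → ℂ}
    (hw : ∀ k, 1 ≤ ‖w k‖ ∧ ‖w k‖ ≤ 4)
    (hF : ∀ᶠ k in atTop, ‖F k - w k - Pf (lam ^ k * z)‖ ≤ ‖Pf (lam ^ k * z)‖ / 4) :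
    Tendsto (fun k : ℕ => (1 / 2 : ℝ) ^ k * Real.log (‖F k‖ * Real.exp (K * 2 ^ k))) atTop
      (𝓝 (log⁺ ‖Wf z‖ + K)) := by
  have hFb : ∀ k, ‖F k - w k - Pf (lam ^ k * z)‖ ≤ ‖Pf (lam ^ k * z)‖ / 4 →
      ‖F k‖ ≤ 4 + 5 / 4 * ‖Pf (lam ^ k * z)‖ ∧ 3 / 4 * ‖Pf (lam ^ k * z)‖ - 4 ≤ ‖F k‖ ∧
      1 - 5 / 4 * ‖Pf (lam ^ k * z)‖ ≤ ‖F k‖ := by
    intro k hk
    obtain ⟨w1, w2⟩ := hw k
    refine ⟨?_, ?_, ?_⟩
    · have e : F k = (F k - w k - Pf (lam ^ k * z)) + w k + Pf (lam ^ k * z) := by ring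
      have := norm_add₃_le (a := F k - w k - Pf (lam ^ k * z)) (b := w k)
        (c := Pf (lam ^ k * z))
      rw [← e] at this
      linarith
    · have e : Pf (lam ^ k * z) = -(F k - w k - Pf (lam ^ k * z)) + (-w k) + F k := by ring
      have := norm_add₃_le (a := -(F k - w k - Pf (lam ^ k * z))) (b := -w k) (c := F k)
      rw [← e, norm_neg, norm_neg] at this
      linarith
    · have e : w k = -(F k - w k - Pf (lam ^ k * z)) + (-Pf (lam ^ k * z)) + F k := by ring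
      have := norm_add₃_le (a := -(F k - w k - Pf (lam ^ k * z))) (b := -Pf (lam ^ k * z))
        (c := F k)
      rw [← e, norm_neg, norm_neg] at this
      linarith
  have hsmall : (∀ᶠ k in atTop, ‖Pf (lam ^ k * z)‖ ≤ 1 / 2) → log⁺ ‖Wf z‖ = 0 →
      Tendsto (fun k : ℕ => (1 / 2 : ℝ) ^ k * Real.log (‖F k‖ * Real.exp (K * 2 ^ k))) atTop
      (𝓝 (log⁺ ‖Wf z‖ + K)) := by
    intro h1 h2
    rw [h2, zero_add]
    refine lim_log_perturb (p := fun k => 1 * Real.exp (K * 2 ^ k)) (c := 8) (by norm_num) ?_ ?_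
    · filter_upwards [h1, hF] with k k1 k2
      obtain ⟨b1, b2, b3⟩ := hFb k k2
      have e0 := Real.exp_pos (K * 2 ^ k)
      refine ⟨by positivity, ?_, ?_⟩
      · rw [one_mul, div_eq_inv_mul]
        apply mul_le_mul_of_nonneg_right _ e0.le
        linarith
      · rw [one_mul]
        apply mul_le_mul_of_nonneg_right _ e0.le
        linarith
    · have : (fun k : ℕ => (1 / 2 : ℝ) ^ k * Real.log (1 * Real.exp (K * 2 ^ k))) = fun _ => K := by
        funext k
        rw [half_log_exp K one_pos, Real.log_one, mul_zero, zero_add]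
      rw [this]
      exact tendsto_const_nhds
  by_cases hP : Pf z = 0
  · apply hsmall
    · refine Eventually.of_forall ?_
      intro k
      have : Pf (lam ^ k * z) = 0 := by
        induction k with
        | zero => simpa using hP
        | succ k ih => rw [Pf_succ, ih]; ring
      rw [this, norm_zero]
      norm_num
    · rw [(Wf_eq_zero_iff hz).mpr hP, norm_zero]
      simp
  · have hp : ∀ k, 0 < ‖Pf (lam ^ k * z)‖ := fun k => norm_pos_iff.mpr (Pf_iter_ne hz hP k)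
    have hV := Vf_tendsto hz hP
    have hW0 : 0 < ‖Wf z‖ := norm_pos_iff.mpr (fun h => hP ((Wf_eq_zero_iff hz).mp h))
    rcases lt_or_gt_of_ne hW with h1 | h1
    · have hVneg : Vf z < 0 := Real.log_neg hW0 h1
      apply hsmall
      · exact ev_small hVneg hp hV (1 / 2) (by norm_num)
      · rw [posLog_eq_zero_iff, abs_of_pos hW0]
        exact h1.le
    · have hVpos : 0 < Vf z := Real.log_pos h1
      have h2 : log⁺ ‖Wf z‖ = Vf z := by
        rw [posLog_eq_log (by rw [abs_of_pos hW0]; exact h1.le)]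
        rfl
      rw [h2]
      refine lim_log_perturb (p := fun k => ‖Pf (lam ^ k * z)‖ * Real.exp (K * 2 ^ k)) (c := 2)
        (by norm_num) ?_ ?_
      · filter_upwards [ev_large hVpos hp hV 16 (by norm_num), hF] with k k1 k2
        obtain ⟨b1, b2, b3⟩ := hFb k k2
        have e0 := Real.exp_pos (K * 2 ^ k)
        have p0 := hp k
        refine ⟨by positivity, ?_, ?_⟩
        · rw [mul_div_right_comm]
          apply mul_le_mul_of_nonneg_right _ e0.le
          linarith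
        · rw [← mul_assoc]
          apply mul_le_mul_of_nonneg_right _ e0.le
          linarith
      · have : (fun k : ℕ => (1 / 2 : ℝ) ^ k * Real.log (‖Pf (lam ^ k * z)‖ *
            Real.exp (K * 2 ^ k))) =
            fun k : ℕ => (1 / 2 : ℝ) ^ k * Real.log ‖Pf (lam ^ k * z)‖ + K := by
          funext k
          rw [half_log_exp K (hp k)]
        rw [this]
        exact hV.add_const K

/-- Convergence when the constant part vanishes. -/
lemma lim_in {z : ℂ} (hz : z ∈ UU) (hP : Pf z ≠ 0) {K : ℝ} {F : ℕ → ℂ}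
    (hF : ∀ᶠ k in atTop, ‖F k - Pf (lam ^ k * z)‖ ≤ ‖Pf (lam ^ k * z)‖ / 4) :
    Tendsto (fun k : ℕ => (1 / 2 : ℝ) ^ k * Real.log (‖F k‖ * Real.exp (K * 2 ^ k))) atTop
      (𝓝 (Vf z + K)) := by
  have hp : ∀ k, 0 < ‖Pf (lam ^ k * z)‖ := fun k => norm_pos_iff.mpr (Pf_iter_ne hz hP k)
  have hV := Vf_tendsto hz hP
  refine lim_log_perturb (p := fun k => ‖Pf (lam ^ k * z)‖ * Real.exp (K * 2 ^ k)) (c := 2)
    (by norm_num) ?_ ?_
  · filter_upwards [hF] with k k2
    have e0 := Real.exp_pos (K * 2 ^ k)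
    have p0 := hp k
    have b1 : ‖F k‖ ≤ ‖F k - Pf (lam ^ k * z)‖ + ‖Pf (lam ^ k * z)‖ := by
      have e : F k = (F k - Pf (lam ^ k * z)) + Pf (lam ^ k * z) := by ring
      conv_lhs => rw [e]
      exact norm_add_le _ _
    have b2 : ‖Pf (lam ^ k * z)‖ ≤ ‖F k‖ + ‖F k - Pf (lam ^ k * z)‖ := by
      have e : Pf (lam ^ k * z) = F k - (F k - Pf (lam ^ k * z)) := by ring
      conv_lhs => rw [e]
      exact norm_sub_le _ _
    refine ⟨by positivity, ?_, ?_⟩
    · rw [mul_div_right_comm]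
      apply mul_le_mul_of_nonneg_right _ e0.le
      linarith
    · rw [← mul_assoc]
      apply mul_le_mul_of_nonneg_right _ e0.le
      linarith
  · have : (fun k : ℕ => (1 / 2 : ℝ) ^ k * Real.log (‖Pf (lam ^ k * z)‖ * Real.exp (K * 2 ^ k))) =
        fun k : ℕ => (1 / 2 : ℝ) ^ k * Real.log ‖Pf (lam ^ k * z)‖ + K := by
      funext k
      rw [half_log_exp K (hp k)]
    rw [this]
    exact hV.add_const K

lemma av_norm (z : ℂ) : 1 ≤ ‖av z‖ ∧ ‖av z‖ ≤ 2 := by
  have h : ‖av z‖ ^ 2 = 2 := by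
    unfold av
    rw [norm_sq_eq]
    split_ifs <;> simp <;> norm_num
  have := norm_nonneg (av z)
  constructor <;> nlinarith

lemma av_in {z : ℂ} (h : |z.im| < z.re) : av z = 1 + Complex.I := by
  rw [abs_lt] at h
  unfold av
  rw [if_neg (by linarith), if_neg (by linarith), mul_one]

lemma av_out {z : ℂ} (h : z.re < |z.im|) : 1 ≤ ‖av z - (1 + Complex.I)‖ ∧
    ‖av z - (1 + Complex.I)‖ ≤ 4 := by
  have h2 : 4 ≤ ‖av z - (1 + Complex.I)‖ ^ 2 ∧ ‖av z - (1 + Complex.I)‖ ^ 2 ≤ 8 := by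
    unfold av
    rw [norm_sq_eq]
    rcases le_or_gt z.im 0 with h0 | h0
    · rw [abs_of_nonpos h0] at h
      rw [if_pos (by linarith : z.re + z.im < 0)]
      split_ifs <;> simp <;> norm_num
    · rw [abs_of_pos h0] at h
      rw [if_pos h]
      split_ifs <;> simp <;> norm_num
  have := norm_nonneg (av z - (1 + Complex.I))
  constructor <;> nlinarith

lemma lam_re (z : ℂ) : (lam * z).re = -(32 / 25) * z.im := by
  simp [lam]

lemma lam_im (z : ℂ) : (lam * z).im = (32 / 25) * z.re := by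
  simp [lam]

lemma av_lam {z : ℂ} (h : |z.re| ≠ |z.im|) : av (lam * z) = Complex.I * av z := by
  have h1 : z.re + z.im ≠ 0 := by
    intro h0
    apply h
    have : z.re = -z.im := by linarith
    rw [this, abs_neg]
  unfold av
  rw [lam_re, lam_im]
  rcases lt_or_gt_of_ne h1 with h2 | h2 <;> rcases lt_or_ge z.re z.im with h3 | h3
  · rw [if_neg (by linarith), if_pos (by linarith), if_pos h3, if_pos h2]
    linear_combination (1 : ℂ) * Complex.I_sq
  · rw [if_neg (by linarith), if_neg (by linarith), if_neg (by linarith), if_pos h2]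
    linear_combination (1 : ℂ) * Complex.I_sq
  · rw [if_pos (by linarith), if_pos (by linarith), if_pos h3, if_neg (by linarith)]
    linear_combination (-1 : ℂ) * Complex.I_sq
  · rw [if_pos (by linarith), if_neg (by linarith), if_neg (by linarith), if_neg (by linarith)]
    linear_combination (-1 : ℂ) * Complex.I_sq

lemma av_lam_pow {z : ℂ} (h : |z.re| ≠ |z.im|) (k : ℕ) :
    |(lam ^ k * z).re| ≠ |(lam ^ k * z).im| ∧ av (lam ^ k * z) = Complex.I ^ k * av z := by
  induction k with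
  | zero => simpa using h
  | succ k ih =>
    have e : lam ^ (k + 1) * z = lam * (lam ^ k * z) := by ring
    rw [e]
    constructor
    · rw [lam_re, lam_im, abs_mul, abs_mul, abs_neg]
      intro h0
      apply ih.1
      have : |(32 / 25 : ℝ)| ≠ 0 := by norm_num
      exact (mul_left_cancel₀ this h0).symm
    · rw [av_lam ih.1, ih.2]
      ring

end Pool.Agent.Helper30.F9
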