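import Mathlib

set_option autoImplicit false

namespace Pool.Agent.Helper30.F9

open Real Metric Set MeasureTheory Filter Topology
open scoped ENNReal

/-- Number of zeros in the closed disc, with multiplicity. -/
noncomputable def ncount (h : ℂ → ℂ) (r : ℝ) : ℕ :=
  ∑ᶠ z ∈ Metric.closedBall (0 : ℂ) r, analyticOrderNatAt h z

lemma divisor_eq {h : ℂ → ℂ} (hh : Differentiable ℂ h) {r : ℝ} {z : ℂ}
    (hz : z ∈ closedBall (0 : ℂ) |r|) :
    MeromorphicOn.divisor h (closedBall (0 : ℂ) |r|) z = (analyticOrderNatAt h z : ℤ) := by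
  have ha : AnalyticOnNhd ℂ h (closedBall (0 : ℂ) |r|) := fun x _ => hh.analyticAt x
  rw [MeromorphicOn.AnalyticOnNhd.divisor_apply ha hz, analyticOrderNatAt]
  by_cases h1 : analyticOrderAt h z = ⊤
  · rw [h1]
    simp
  · obtain ⟨n, hn⟩ := ENat.ne_top_iff_exists.mp h1
    rw [← hn]
    simp

lemma finite_zeros {h : ℂ → ℂ} (hh : Differentiable ℂ h) (R : ℝ) :
    {z : ℂ | ‖z‖ ≤ R ∧ analyticOrderNatAt h z ≠ 0}.Finite := by
  have h1 := (MeromorphicOn.divisor h (closedBall (0 : ℂ) |R|)).finiteSupport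
    (isCompact_closedBall 0 |R|)
  refine h1.subset ?_
  intro z hz
  have hz' : z ∈ closedBall (0 : ℂ) |R| := by
    simpa using hz.1.trans (le_abs_self R)
  rw [Function.mem_support, divisor_eq hh hz']
  exact_mod_cast hz.2

/-- The finite set of zeros. -/
noncomputable def zs {h : ℂ → ℂ} (hh : Differentiable ℂ h) (R : ℝ) : Finset ℂ :=
  (finite_zeros hh R).toFinset

lemma ncount_eq {h : ℂ → ℂ} (hh : Differentiable ℂ h) {r R : ℝ} (hr : r ≤ R) :
    ncount h r = ∑ z ∈ zs hh R, if ‖z‖ ≤ r then analyticOrderNatAt h z else 0 := by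
  unfold ncount
  have h2 : ∀ z : ℂ, (∑ᶠ (_ : z ∈ closedBall (0 : ℂ) r), analyticOrderNatAt h z)
      = if ‖z‖ ≤ r then analyticOrderNatAt h z else 0 := by
    intro z
    by_cases hz : ‖z‖ ≤ r
    · simp [hz]
    · simp [hz]
  rw [finsum_congr h2]
  apply finsum_eq_sum_of_support_subset
  intro z hz
  simp only [Function.mem_support, ne_eq, ite_eq_right_iff, Classical.not_imp] at hz
  simp only [zs, Finite.coe_toFinset, Set.mem_ofPred_eq]
  exact ⟨hz.1.trans hr, hz.2⟩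

lemma jensen {h : ℂ → ℂ} (hh : Differentiable ℂ h) {r R : ℝ} (h0 : 0 < r) (hr : r ≤ R) :
    circleAverage (fun z => Real.log ‖h z‖) 0 r =
      (∑ z ∈ zs hh R, if ‖z‖ ≤ r then (analyticOrderNatAt h z : ℝ) * (Real.log r - Real.log ‖z‖)
        else 0) + Real.log ‖meromorphicTrailingCoeffAt h 0‖ := by
  have ha : AnalyticOnNhd ℂ h (closedBall (0 : ℂ) |r|) := fun x _ => hh.analyticAt x
  rw [ha.meromorphicOn.circleAverage_log_norm h0.ne']
  congr 1
  have h3 := countingFunction_finsum_eq_finsum_add (c := (0 : ℂ)) (R := r)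
    (D := MeromorphicOn.divisor h (closedBall (0 : ℂ) |r|)) h0.ne'
    ((MeromorphicOn.divisor h (closedBall (0 : ℂ) |r|)).finiteSupport
    (isCompact_closedBall 0 |r|))
  rw [← h3]
  have h2 : ∀ z : ℂ, ((MeromorphicOn.divisor h (closedBall (0 : ℂ) |r|) z : ℤ) : ℝ) *
      (Real.log r - Real.log ‖0 - z‖)
      = if ‖z‖ ≤ r then (analyticOrderNatAt h z : ℝ) * (Real.log r - Real.log ‖z‖)
        else 0 := by
    intro z
    by_cases hz : ‖z‖ ≤ r
    · rw [divisor_eq hh (by simpa [abs_of_pos h0] using hz)]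
      simp [hz]
    · have : z ∉ closedBall (0 : ℂ) |r| := by simpa [abs_of_pos h0] using hz
      simp [hz, this]
  rw [finsum_congr h2]
  apply finsum_eq_sum_of_support_subset
  intro z hz
  simp only [Function.mem_support, ne_eq, ite_eq_right_iff, Classical.not_imp] at hz
  simp only [zs, Finite.coe_toFinset, Set.mem_ofPred_eq]
  refine ⟨hz.1.trans hr, ?_⟩
  intro h5
  apply hz.2
  simp [h5]

lemma jensen_bounds {h : ℂ → ℂ} (hh : Differentiable ℂ h) {r R : ℝ} (h0 : 0 < r) (hr : r ≤ R) :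
    (ncount h r : ℝ) * Real.log (R / r) ≤
      circleAverage (fun z => Real.log ‖h z‖) 0 R - circleAverage (fun z => Real.log ‖h z‖) 0 r ∧
    circleAverage (fun z => Real.log ‖h z‖) 0 R - circleAverage (fun z => Real.log ‖h z‖) 0 r ≤
      (ncount h R : ℝ) * Real.log (R / r) := by
  have hR : 0 < R := h0.trans_le hr
  rw [jensen hh h0 hr, jensen hh hR le_rfl, ncount_eq hh hr, ncount_eq hh (le_refl R),
    Real.log_div hR.ne' h0.ne']
  push_cast
  rw [add_sub_add_right_eq_sub, ← Finset.sum_sub_distrib, Finset.sum_mul, Finset.sum_mul]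
  have key : ∀ z ∈ zs hh R, ‖z‖ ≤ R := by
    intro z hz
    simp only [zs, Set.Finite.mem_toFinset, Set.mem_ofPred_eq] at hz
    exact hz.1
  constructor
  · apply Finset.sum_le_sum
    intro z hz
    have h1 := key z hz
    rw [if_pos h1]
    by_cases h2 : ‖z‖ ≤ r
    · rw [if_pos h2, if_pos h2]
      linarith
    · rw [if_neg h2, if_neg h2]
      push Not at h2
      have h3 : Real.log ‖z‖ ≤ Real.log R := Real.log_le_log (h0.trans h2) h1
      have : 0 ≤ (analyticOrderNatAt h z : ℝ) * (Real.log R - Real.log ‖z‖) :=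
        mul_nonneg (Nat.cast_nonneg _) (by linarith)
      simpa using this
  · apply Finset.sum_le_sum
    intro z hz
    have h1 := key z hz
    rw [if_pos h1, if_pos h1]
    by_cases h2 : ‖z‖ ≤ r
    · rw [if_pos h2]
      linarith
    · rw [if_neg h2]
      push Not at h2
      have h3 : Real.log r ≤ Real.log ‖z‖ := Real.log_le_log h0 h2.le
      rw [sub_zero]
      exact mul_le_mul_of_nonneg_left (by linarith) (Nat.cast_nonneg _)

/-- The characteristic function of an entire function. -/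
noncomputable def Tc (f : ℂ → ℂ) (r : ℝ) : ℝ := circleAverage (fun z => log⁺ ‖f z‖) 0 r

/-- The circle average of `log ‖F - a‖`. -/
noncomputable def Mc (F : ℂ → ℂ) (a : ℂ) (r : ℝ) : ℝ :=
  circleAverage (fun z => Real.log ‖F z - a‖) 0 r

lemma order_scale {f : ℂ → ℂ} (hf : Differentiable ℂ f) (c s a : ℂ) (hs : s ≠ 0) (z : ℂ) :
    analyticOrderNatAt (fun w => (f w - c) / s - a) z =
      analyticOrderNatAt (fun w => f w - (c + s * a)) z := by
  have h1 : (fun w => (f w - c) / s - a) = (fun _ => s⁻¹) * (fun w => f w - (c + s * a)) := by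
    funext w
    simp only [Pi.mul_apply]
    field_simp
    ring
  unfold analyticOrderNatAt
  rw [h1, analyticOrderAt_mul analyticAt_const ((hf.sub_const _).analyticAt z)]
  have h2 : analyticOrderAt (fun _ : ℂ => s⁻¹) z = 0 := by
    rw [analyticAt_const.analyticOrderAt_eq_zero]
    exact inv_ne_zero hs
  rw [h2, zero_add]

lemma ncount_scale {f : ℂ → ℂ} (hf : Differentiable ℂ f) (c s a : ℂ) (hs : s ≠ 0) (r : ℝ) :
    ncount (fun w => (f w - c) / s - a) r = ncount (fun w => f w - (c + s * a)) r := by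
  unfold ncount
  congr 1
  funext z
  rw [order_scale hf c s a hs z]

lemma mero {F : ℂ → ℂ} (hF : Differentiable ℂ F) : Meromorphic F :=
  fun z => (hF.analyticAt z).meromorphicAt

lemma Tc_eq {F : ℂ → ℂ} (hF : Differentiable ℂ F) (R : ℝ) :
    Tc F R = circleAverage (fun a => Mc F a R) 0 1 := by
  have h1 := congrFun (ValueDistribution.circleAverage_circleAverage_eq_proximity_top (mero hF)) R
  rw [ValueDistribution.proximity_top] at h1
  exact h1.symm

lemma Mc_ci {F : ℂ → ℂ} (hF : Differentiable ℂ F) (R : ℝ) :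
    CircleIntegrable (fun a => Mc F a R) 0 1 :=
  ValueDistribution.circleIntegrable_circleAverage_log_norm_sub (mero hF)

lemma Tc_sub {F : ℂ → ℂ} (hF : Differentiable ℂ F) (R r : ℝ) :
    Tc F R - Tc F r = circleAverage (fun a => Mc F a R - Mc F a r) 0 1 := by
  rw [Tc_eq hF, Tc_eq hF]
  exact (circleAverage_sub (Mc_ci hF R) (Mc_ci hF r)).symm

lemma L1 {f : ℂ → ℂ} (hf : Differentiable ℂ f) {r' r : ℝ} (h0 : 0 < r') (h1 : r' ≤ r) (B : ℝ)
    (hB : ∀ a : ℂ, (ncount (fun w => f w - a) r : ℝ) ≤ B) (c s : ℂ) (hs : s ≠ 0) :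
    Tc (fun z => (f z - c) / s) r - Tc (fun z => (f z - c) / s) r' ≤ B * Real.log (r / r') := by
  have hF : Differentiable ℂ (fun z => (f z - c) / s) := (hf.sub_const c).div_const s
  rw [Tc_sub hF]
  have h2 : circleAverage (fun _ : ℂ => B * Real.log (r / r')) 0 1 = B * Real.log (r / r') :=
    circleAverage_const _ _ _
  rw [← h2]
  apply circleAverage_mono ((Mc_ci hF r).sub (Mc_ci hF r')) (circleIntegrable_const _ _ _)
  intro a _
  refine (jensen_bounds (hF.sub_const a) h0 h1).2.trans ?_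
  rw [ncount_scale hf c s a hs]
  apply mul_le_mul_of_nonneg_right (hB _)
  exact Real.log_nonneg ((one_le_div h0).mpr h1)

lemma psi_lower {F : ℂ → ℂ} (hF : Differentiable ℂ F) {r R : ℝ} (h0 : 0 < r) (h1 : r < R)
    (a : ℂ) : (ncount (fun w => F w - a) r : ℝ) ≤ (Mc F a R - Mc F a r) / Real.log (R / r) := by
  have hL : 0 < Real.log (R / r) := Real.log_pos ((one_lt_div h0).mpr h1)
  rw [le_div_iff₀ hL]
  exact (jensen_bounds (hF.sub_const a) h0 h1.le).1

lemma psi_nonneg {F : ℂ → ℂ} (hF : Differentiable ℂ F) {r R : ℝ} (h0 : 0 < r) (h1 : r < R)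
    (a : ℂ) : 0 ≤ Mc F a R - Mc F a r := by
  have hL : 0 < Real.log (R / r) := Real.log_pos ((one_lt_div h0).mpr h1)
  have h2 := psi_lower hF h0 h1 a
  rw [le_div_iff₀ hL] at h2
  exact le_trans (mul_nonneg (Nat.cast_nonneg _) hL.le) h2

lemma Tc_mono {F : ℂ → ℂ} (hF : Differentiable ℂ F) {r R : ℝ} (h0 : 0 < r) (h1 : r ≤ R) :
    Tc F r ≤ Tc F R := by
  rcases h1.eq_or_lt with h1 | h1
  · rw [h1]
  rw [← sub_nonneg, Tc_sub hF]
  apply circleAverage_nonneg_of_nonneg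
  intro a _
  exact psi_nonneg hF h0 h1 a

/-- Integral of the majorant over a circle. -/
lemma inner_bound {f : ℂ → ℂ} (hf : Differentiable ℂ f) {r R : ℝ} (h0 : 0 < r) (h1 : r < R)
    {ρ : ℝ} (hρ : 0 < ρ) :
    ∫⁻ α in Ioo (-π) π, (ncount (fun w => f w - (ρ : ℂ) * circleMap 0 1 α) r : ℝ≥0∞) ≤
      ENNReal.ofReal (2 * π * (Tc (fun z => f z / ρ) R - Tc (fun z => f z / ρ) r) /
        Real.log (R / r)) := by
  have hL : 0 < Real.log (R / r) := Real.log_pos ((one_lt_div h0).mpr h1)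
  have hρ' : (ρ : ℂ) ≠ 0 := by exact_mod_cast hρ.ne'
  have hF : Differentiable ℂ (fun z => f z / ρ) := hf.div_const _
  set Ψ : ℂ → ℝ := fun a => Mc (fun z => f z / ρ) a R - Mc (fun z => f z / ρ) a r with hΨ
  have hci : CircleIntegrable Ψ 0 1 := (Mc_ci hF R).sub (Mc_ci hF r)
  have hpt : ∀ α : ℝ, (ncount (fun w => f w - (ρ : ℂ) * circleMap 0 1 α) r : ℝ≥0∞) ≤
      ENNReal.ofReal (Ψ (circleMap 0 1 α) / Real.log (R / r)) := by
    intro α
    have h2 := psi_lower hF h0 h1 (circleMap 0 1 α)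
    have h3 := ncount_scale hf 0 ρ (circleMap 0 1 α) hρ' r
    simp only [sub_zero, zero_add] at h3
    rw [h3] at h2
    calc (ncount (fun w => f w - (ρ : ℂ) * circleMap 0 1 α) r : ℝ≥0∞)
        = ENNReal.ofReal (ncount (fun w => f w - (ρ : ℂ) * circleMap 0 1 α) r : ℝ) := by
          rw [ENNReal.ofReal_natCast]
      _ ≤ _ := ENNReal.ofReal_le_ofReal h2
  have hint : IntervalIntegrable (fun α => Ψ (circleMap 0 1 α)) volume (-π) π := by
    have hper : Function.Periodic (fun α => Ψ (circleMap 0 1 α)) (2 * π) := by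
      intro α
      simp only
      rw [periodic_circleMap]
    exact hper.intervalIntegrable₀ (by positivity) hci _ _
  have hval : ∫ α in (-π)..π, Ψ (circleMap 0 1 α) = 2 * π * circleAverage Ψ 0 1 := by
    have hper : Function.Periodic (fun α => Ψ (circleMap 0 1 α)) (2 * π) := by
      intro α
      simp only
      rw [periodic_circleMap]
    have h5 := hper.intervalIntegral_add_eq (-π) 0
    rw [zero_add] at h5
    have h6 : -π + 2 * π = π := by ring
    rw [h6] at h5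
    rw [h5, circleAverage]
    simp only [smul_eq_mul]
    field_simp
  calc ∫⁻ α in Ioo (-π) π, (ncount (fun w => f w - (ρ : ℂ) * circleMap 0 1 α) r : ℝ≥0∞)
      ≤ ∫⁻ α in Ioo (-π) π, ENNReal.ofReal (Ψ (circleMap 0 1 α) / Real.log (R / r)) :=
        lintegral_mono (fun α => hpt α)
    _ ≤ ∫⁻ α in Ioc (-π) π, ENNReal.ofReal (Ψ (circleMap 0 1 α) / Real.log (R / r)) :=
        lintegral_mono_set Ioo_subset_Ioc_self
    _ = ENNReal.ofReal (∫ α in Ioc (-π) π, Ψ (circleMap 0 1 α) / Real.log (R / r)) := by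
        rw [ofReal_integral_eq_lintegral_ofReal]
        · exact ((intervalIntegrable_iff_integrableOn_Ioc_of_le (by linarith [pi_pos])).mp
            hint).div_const _
        · exact ae_of_all _ fun α => div_nonneg (psi_nonneg hF h0 h1 _) hL.le
    _ = _ := by
        congr 1
        rw [← intervalIntegral.integral_of_le (by linarith [pi_pos]),
          intervalIntegral.integral_div, hval, Tc_sub hF]

lemma posLog_div_le {x ρ : ℝ} :
    log⁺ (x / ρ) ≤ log⁺ x + log⁺ ρ⁻¹ := by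
  rw [div_eq_mul_inv]
  exact posLog_mul

lemma posLog_le_div {x ρ : ℝ} (hρ : 0 < ρ) :
    log⁺ x ≤ log⁺ (x / ρ) + log⁺ ρ := by
  have : x = x / ρ * ρ := by field_simp
  conv_lhs => rw [this]
  exact posLog_mul

lemma ci_posLog {F : ℂ → ℂ} (hF : Differentiable ℂ F) (R : ℝ) :
    CircleIntegrable (fun z => log⁺ ‖F z‖) 0 R :=
  MeromorphicOn.circleIntegrable_posLog_norm (fun z _ => mero hF z)

lemma Tc_div_le {f : ℂ → ℂ} (hf : Differentiable ℂ f) (R : ℝ) {ρ : ℝ} (hρ : 0 < ρ) :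
    Tc (fun z => f z / ρ) R ≤ Tc f R + log⁺ ρ⁻¹ := by
  have h2 : circleAverage (fun _ : ℂ => log⁺ ρ⁻¹) 0 R = log⁺ ρ⁻¹ := circleAverage_const _ _ _
  unfold Tc
  rw [← h2, ← circleAverage_fun_add (ci_posLog hf R) (circleIntegrable_const _ _ _)]
  apply circleAverage_mono (ci_posLog (hf.div_const _) R)
    ((ci_posLog hf R).add (circleIntegrable_const _ _ _))
  intro z _
  rw [norm_div, Complex.norm_real, Real.norm_of_nonneg hρ.le]
  exact posLog_div_le

lemma Tc_le_div {f : ℂ → ℂ} (hf : Differentiable ℂ f) (R : ℝ) {ρ : ℝ} (hρ : 0 < ρ) :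
    Tc f R ≤ Tc (fun z => f z / ρ) R + log⁺ ρ := by
  have h2 : circleAverage (fun _ : ℂ => log⁺ ρ) 0 R = log⁺ ρ := circleAverage_const _ _ _
  unfold Tc
  rw [← h2, ← circleAverage_fun_add (ci_posLog (hf.div_const _) R) (circleIntegrable_const _ _ _)]
  apply circleAverage_mono (ci_posLog hf R)
    ((ci_posLog (hf.div_const _) R).add (circleIntegrable_const _ _ _))
  intro z _
  simp only [Pi.add_apply]
  rw [norm_div, Complex.norm_real, Real.norm_of_nonneg hρ.le]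
  exact posLog_le_div hρ

lemma weight_bound {ρ : ℝ} (hρ : 0 < ρ) :
    ρ / (1 + ρ ^ 2) ^ 2 * (log⁺ ρ⁻¹ + log⁺ ρ) ≤ (1 + ρ ^ 2)⁻¹ := by
  have h1 : ρ * (log⁺ ρ⁻¹ + log⁺ ρ) ≤ 1 + ρ ^ 2 := by
    rcases le_total ρ 1 with h | h
    · have h2 : log⁺ ρ = 0 := by
        rw [posLog_eq_zero_iff, abs_of_pos hρ]
        exact h
      have h3 : log⁺ ρ⁻¹ ≤ ρ⁻¹ := by
        rw [posLog_def]
        apply max_le (by positivity)
        have := Real.log_le_sub_one_of_pos (inv_pos.mpr hρ)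
        linarith
      have h4 : ρ * log⁺ ρ⁻¹ ≤ ρ * ρ⁻¹ := mul_le_mul_of_nonneg_left h3 hρ.le
      rw [mul_inv_cancel₀ hρ.ne'] at h4
      rw [h2, add_zero]
      nlinarith [sq_nonneg ρ]
    · have h2 : log⁺ ρ⁻¹ = 0 := by
        rw [posLog_eq_zero_iff, abs_of_pos (inv_pos.mpr hρ)]
        exact inv_le_one_of_one_le₀ h
      have h3 : log⁺ ρ ≤ ρ := by
        rw [posLog_def]
        apply max_le (by positivity)
        have := Real.log_le_sub_one_of_pos hρ
        linarith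
      have h4 : ρ * log⁺ ρ ≤ ρ * ρ := mul_le_mul_of_nonneg_left h3 hρ.le
      rw [h2, zero_add]
      nlinarith
  have h5 : 0 < (1 + ρ ^ 2) := by positivity
  rw [div_mul_eq_mul_div, div_le_iff₀ (by positivity)]
  calc ρ * (log⁺ ρ⁻¹ + log⁺ ρ) ≤ 1 + ρ ^ 2 := h1
    _ = (1 + ρ ^ 2)⁻¹ * (1 + ρ ^ 2) ^ 2 := by field_simp

lemma integral_w1 : IntegrableOn (fun ρ : ℝ => ρ / (1 + ρ ^ 2) ^ 2) (Ioi 0) ∧
    ∫ ρ in Ioi (0 : ℝ), ρ / (1 + ρ ^ 2) ^ 2 = 1 / 2 := by
  have hd : ∀ x ∈ Ioi (0 : ℝ), HasDerivAt (fun ρ : ℝ => -(1 / 2) * (1 + ρ ^ 2)⁻¹)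
      (x / (1 + x ^ 2) ^ 2) x := by
    intro x _
    have h5 : (1 + x ^ 2) ≠ 0 := by positivity
    have h1 : HasDerivAt (fun ρ : ℝ => 1 + ρ ^ 2) (2 * x) x := by
      simpa using (hasDerivAt_pow 2 x).const_add 1
    have h6 : x / (1 + x ^ 2) ^ 2 = -(1 / 2 : ℝ) * (-(2 * x) / (1 + x ^ 2) ^ 2) := by ring
    rw [h6]
    exact (h1.inv h5).const_mul (-(1 / 2 : ℝ))
  have hc : ContinuousWithinAt (fun ρ : ℝ => -(1 / 2) * (1 + ρ ^ 2)⁻¹) (Ici 0) 0 := by
    apply Continuous.continuousWithinAt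
    have : ∀ x : ℝ, 1 + x ^ 2 ≠ 0 := fun x => by positivity
    exact continuous_const.mul ((continuous_const.add (continuous_pow 2)).inv₀ this)
  have ht : Tendsto (fun ρ : ℝ => -(1 / 2) * (1 + ρ ^ 2)⁻¹) atTop (𝓝 0) := by
    have h1 : Tendsto (fun ρ : ℝ => 1 + ρ ^ 2) atTop atTop :=
      tendsto_atTop_add_const_left _ _ (tendsto_pow_atTop (by norm_num))
    simpa using h1.inv_tendsto_atTop.const_mul (-(1 / 2 : ℝ))
  have hi : IntegrableOn (fun ρ : ℝ => ρ / (1 + ρ ^ 2) ^ 2) (Ioi 0) := by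
    apply integrableOn_Ioi_deriv_of_nonneg hc hd _ ht
    intro x hx
    have : 0 < x := hx
    positivity
  refine ⟨hi, ?_⟩
  rw [integral_Ioi_of_hasDerivAt_of_tendsto hc hd hi ht]
  norm_num

/-- The main upper bound. -/
lemma U1 {f : ℂ → ℂ} (hf : Differentiable ℂ f) {r R : ℝ} (h0 : 0 < r) (h1 : r < R) :
    ∫⁻ b : ℂ, (ncount (fun w => f w - b) r : ℝ≥0∞) / ENNReal.ofReal ((1 + ‖b‖ ^ 2) ^ 2) ≤
      ENNReal.ofReal (π * (Tc f R - Tc f r + π) / Real.log (R / r)) := by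
  have hL : 0 < Real.log (R / r) := Real.log_pos ((one_lt_div h0).mpr h1)
  have hT : 0 ≤ Tc f R - Tc f r := by linarith [Tc_mono hf h0 h1.le]
  rw [← Complex.lintegral_comp_polarCoord_symm]
  have htar : polarCoord.target = Ioi (0 : ℝ) ×ˢ Ioo (-π) π := rfl
  rw [htar, Measure.volume_eq_prod, ← Measure.prod_restrict]
  refine (lintegral_prod_le _).trans ?_
  have hin : ∀ ρ ∈ Ioi (0 : ℝ),
      ∫⁻ α in Ioo (-π) π, ENNReal.ofReal ρ • ((ncount (fun w => f w -
        Complex.polarCoord.symm (ρ, α)) r : ℝ≥0∞) /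
        ENNReal.ofReal ((1 + ‖Complex.polarCoord.symm (ρ, α)‖ ^ 2) ^ 2)) ≤
      ENNReal.ofReal (2 * π / Real.log (R / r) *
        ((Tc f R - Tc f r) * (ρ / (1 + ρ ^ 2) ^ 2) + (1 + ρ ^ 2)⁻¹)) := by
    intro ρ hρ
    have hρ : 0 < ρ := hρ
    have e1 : ∀ α : ℝ, Complex.polarCoord.symm (ρ, α) = (ρ : ℂ) * circleMap 0 1 α := by
      intro α
      rw [Complex.polarCoord_symm_apply, circleMap, Complex.exp_mul_I]
      simp
    have e2 : ∀ α : ℝ, ‖(ρ : ℂ) * circleMap 0 1 α‖ = ρ := by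
      intro α
      rw [norm_mul, Complex.norm_real, Real.norm_of_nonneg hρ.le, norm_circleMap_zero]
      simp
    have e3 : ∀ α : ℝ, ENNReal.ofReal ρ • ((ncount (fun w => f w -
        Complex.polarCoord.symm (ρ, α)) r : ℝ≥0∞) /
        ENNReal.ofReal ((1 + ‖Complex.polarCoord.symm (ρ, α)‖ ^ 2) ^ 2)) =
        ENNReal.ofReal (ρ / (1 + ρ ^ 2) ^ 2) *
        (ncount (fun w => f w - (ρ : ℂ) * circleMap 0 1 α) r : ℝ≥0∞) := by
      intro α
      rw [e1, e2, ENNReal.ofReal_div_of_pos (by positivity), smul_eq_mul, div_eq_mul_inv,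
        div_eq_mul_inv]
      ring
    simp_rw [e3]
    rw [lintegral_const_mul' _ _ ENNReal.ofReal_ne_top]
    refine (mul_le_mul_right (inner_bound hf h0 h1 hρ) _).trans ?_
    rw [← ENNReal.ofReal_mul (by positivity)]
    apply ENNReal.ofReal_le_ofReal
    have h3 := Tc_div_le hf R hρ
    have h4 := Tc_le_div hf r hρ
    have h5 := weight_bound hρ
    have h6 : 0 ≤ ρ / (1 + ρ ^ 2) ^ 2 := by positivity
    have h7 : Tc (fun z => f z / ρ) R - Tc (fun z => f z / ρ) r ≤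
        (Tc f R - Tc f r) + (log⁺ ρ⁻¹ + log⁺ ρ) := by linarith
    have h8 : ρ / (1 + ρ ^ 2) ^ 2 * (Tc (fun z => f z / ρ) R - Tc (fun z => f z / ρ) r) ≤
        (Tc f R - Tc f r) * (ρ / (1 + ρ ^ 2) ^ 2) + (1 + ρ ^ 2)⁻¹ := by
      calc _ ≤ ρ / (1 + ρ ^ 2) ^ 2 * ((Tc f R - Tc f r) + (log⁺ ρ⁻¹ + log⁺ ρ)) :=
            mul_le_mul_of_nonneg_left h7 h6
        _ = (Tc f R - Tc f r) * (ρ / (1 + ρ ^ 2) ^ 2) +
            ρ / (1 + ρ ^ 2) ^ 2 * (log⁺ ρ⁻¹ + log⁺ ρ) := by ring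
        _ ≤ _ := by linarith
    calc ρ / (1 + ρ ^ 2) ^ 2 * (2 * π * (Tc (fun z => f z / ρ) R - Tc (fun z => f z / ρ) r) /
          Real.log (R / r)) = 2 * π / Real.log (R / r) *
          (ρ / (1 + ρ ^ 2) ^ 2 * (Tc (fun z => f z / ρ) R - Tc (fun z => f z / ρ) r)) := by ring
      _ ≤ _ := mul_le_mul_of_nonneg_left h8 (by positivity)
  have hi2 : IntegrableOn (fun ρ : ℝ => (1 + ρ ^ 2)⁻¹) (Ioi 0) :=
    integrable_inv_one_add_sq.integrableOn
  calc _ ≤ ∫⁻ ρ in Ioi (0 : ℝ), ENNReal.ofReal (2 * π / Real.log (R / r) *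
        ((Tc f R - Tc f r) * (ρ / (1 + ρ ^ 2) ^ 2) + (1 + ρ ^ 2)⁻¹)) :=
        setLIntegral_mono' measurableSet_Ioi hin
    _ = ENNReal.ofReal (∫ ρ in Ioi (0 : ℝ), 2 * π / Real.log (R / r) *
        ((Tc f R - Tc f r) * (ρ / (1 + ρ ^ 2) ^ 2) + (1 + ρ ^ 2)⁻¹)) := by
        rw [ofReal_integral_eq_lintegral_ofReal]
        · exact ((integral_w1.1.const_mul _).add hi2).const_mul _
        · refine (ae_restrict_iff' measurableSet_Ioi).mpr (ae_of_all _ ?_)
          intro ρ hρ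
          have hρ : 0 < ρ := hρ
          simp only [Pi.zero_apply]
          positivity
    _ = _ := by
        congr 1
        rw [integral_const_mul, integral_add (integral_w1.1.const_mul _) hi2,
          integral_const_mul, integral_w1.2, integral_Ioi_inv_one_add_sq]
        simp only [arctan_zero]
        ring

/-- Consequence of the pointwise valence bound. -/
theorem A_main {f : ℂ → ℂ} (hf : Differentiable ℂ f) {ε r r' R : ℝ} (hε : 0 < ε) (h0 : 0 < r')
    (h1 : r' < r) (h2 : r < R)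
    (H : ∀ a : ℂ, ((∑ᶠ z ∈ Metric.closedBall (0 : ℂ) r,
        analyticOrderNatAt (fun w => f w - a) z : ℕ) : ENNReal) ≤
        ENNReal.ofReal ((1 + ε) / Real.pi) *
          ∫⁻ b : ℂ,
            ((∑ᶠ z ∈ Metric.closedBall (0 : ℂ) r,
              analyticOrderNatAt (fun w => f w - b) z : ℕ) : ENNReal) /
              ENNReal.ofReal ((1 + ‖b‖ ^ 2) ^ 2)) (c s : ℂ) (hs : s ≠ 0) :
    Tc (fun z => (f z - c) / s) r - Tc (fun z => (f z - c) / s) r' ≤
      (1 + ε) * (Tc f R - Tc f r + π) / Real.log (R / r) * Real.log (r / r') := by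
  have hr : 0 < r := h0.trans h1
  have hL : 0 < Real.log (R / r) := Real.log_pos ((one_lt_div hr).mpr h2)
  have hT : 0 ≤ Tc f R - Tc f r := by linarith [Tc_mono hf hr h2.le]
  apply L1 hf h0 h1.le _ _ c s hs
  intro a
  have h3 := (H a).trans (mul_le_mul_right (U1 hf hr h2) _)
  rw [← ENNReal.ofReal_mul (by positivity)] at h3
  have h4 : (ncount (fun w => f w - a) r : ℝ≥0∞) ≤
      ENNReal.ofReal ((1 + ε) / π * (π * (Tc f R - Tc f r + π) / Real.log (R / r))) := h3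
  rw [← ENNReal.ofReal_natCast, ENNReal.ofReal_le_ofReal_iff (by positivity)] at h4
  refine h4.trans (le_of_eq ?_)
  field_simp

end Pool.Agent.Helper30.F9
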