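import Pool.Agent.Helper30.F9.Lim1
import Pool.Agent.Helper30.F9.VD

set_option autoImplicit false

namespace Pool.Agent.Helper30.F9

open Real Metric Set MeasureTheory Filter Topology

lemma Tc_lam (F : ℂ → ℂ) (k : ℕ) (x : ℝ) :
    Tc F (qr ^ k * Real.exp x) =
      (2 * π)⁻¹ * ∫ θ in (0 : ℝ)..(2 * π), log⁺ ‖F (lam ^ k * pt x θ)‖ := by
  unfold Tc
  rw [Real.circleAverage_eq_integral_add (Complex.arg (lam ^ k)), smul_eq_mul]
  congr 1
  apply intervalIntegral.integral_congr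
  intro θ _
  simp only
  congr 3
  rw [circleMap_zero, pt_eq, ← norm_lam_pow]
  conv_rhs => rw [← Complex.norm_mul_exp_arg_mul_I (lam ^ k)]
  push_cast
  rw [add_mul, Complex.exp_add]
  ring

lemma pt_mem {x : ℝ} (hx : 0 ≤ x) (θ : ℝ) : pt x θ ∈ UU := by
  rw [pt_eq]
  exact exp_mul_mem (Complex.norm_exp_ofReal_mul_I θ) hx

lemma pt_cont (x : ℝ) : Continuous fun θ : ℝ => pt x θ := by
  unfold pt
  fun_prop

lemma ae_ne_of_analytic {F : ℝ → ℝ} (hF : AnalyticOnNhd ℝ F univ) {θ0 : ℝ} (h0 : F θ0 ≠ 0) :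
    ∀ᵐ θ : ℝ, F θ ≠ 0 := by
  rcases hF.eqOn_zero_or_eventually_ne_zero_of_preconnected isPreconnected_univ with h | h
  · exact absurd (h (mem_univ θ0)) h0
  · have h1 := ae_restrict_le_codiscreteWithin (μ := (volume : Measure ℝ)) MeasurableSet.univ h
    rwa [Measure.restrict_univ] at h1

lemma ae_W {x : ℝ} (hx0 : 0 ≤ x) (hx1 : x ≤ Real.log (13 / 10)) :
    ∀ᵐ θ : ℝ, ‖Wf (pt x θ)‖ ≠ 1 := by
  have hW : AnalyticOnNhd ℝ (fun θ : ℝ => Wf (pt x θ)) univ := by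
    intro θ _
    have h1 : AnalyticAt ℂ (fun w : ℂ => Wf (Complex.exp w)) ((x : ℂ) + (θ : ℂ) * Complex.I) := by
      have h2 : AnalyticAt ℂ Wf (Complex.exp ((x : ℂ) + (θ : ℂ) * Complex.I)) :=
        Wf_diff.analyticAt (UU_open.mem_nhds (pt_mem hx0 θ))
      exact AnalyticAt.fun_comp (g := Wf) (f := Complex.exp) h2 analyticAt_cexp
    have h3 : AnalyticAt ℝ (fun θ : ℝ => (x : ℂ) + (θ : ℂ) * Complex.I) θ := by
      have : AnalyticAt ℝ (fun θ : ℝ => (θ : ℂ)) θ := Complex.ofRealCLM.analyticAt θ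
      fun_prop
    exact AnalyticAt.fun_comp (g := fun w : ℂ => Wf (Complex.exp w))
      (f := fun θ : ℝ => (x : ℂ) + (θ : ℂ) * Complex.I) h1.restrictScalars h3
  have hF : AnalyticOnNhd ℝ (fun θ : ℝ => (Wf (pt x θ)).re ^ 2 + (Wf (pt x θ)).im ^ 2 - 1) univ := by
    intro θ hθ
    have h1 := hW θ hθ
    have h2 : AnalyticAt ℝ (fun θ : ℝ => (Wf (pt x θ)).re) θ :=
      AnalyticAt.fun_comp (g := fun z : ℂ => z.re) (Complex.reCLM.analyticAt _) h1
    have h3 : AnalyticAt ℝ (fun θ : ℝ => (Wf (pt x θ)).im) θ :=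
      AnalyticAt.fun_comp (g := fun z : ℂ => z.im) (Complex.imCLM.analyticAt _) h1
    exact ((h2.pow 2).add (h3.pow 2)).sub analyticAt_const
  have h0 : (fun θ : ℝ => (Wf (pt x θ)).re ^ 2 + (Wf (pt x θ)).im ^ 2 - 1) (π / 4) ≠ 0 := by
    simp only
    rw [← norm_sq_eq]
    have hexp1 : Real.exp (Real.log (13 / 10)) = 13 / 10 := Real.exp_log (by norm_num)
    have h1 : 0 < Vf (pt x (π / 4)) := by
      apply V_diag_pos
      · rw [norm_pt]; exact Real.one_le_exp hx0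
      · rw [norm_pt, ← hexp1]; exact Real.exp_le_exp.mpr hx1
      · rw [pt_re, pt_im, Real.sin_pi_div_four, Real.cos_pi_div_four]
    have h2 : 1 < ‖Wf (pt x (π / 4))‖ := (Real.log_pos_iff (norm_nonneg _)).mp h1
    nlinarith
  filter_upwards [ae_ne_of_analytic hF h0] with θ hθ h
  apply hθ
  rw [← norm_sq_eq, h]
  norm_num

lemma ae_diag : ∀ᵐ θ : ℝ, ∀ x : ℝ, |(pt x θ).re| ≠ |(pt x θ).im| := by
  have hF : AnalyticOnNhd ℝ (fun θ : ℝ => Real.cos θ ^ 2 - Real.sin θ ^ 2) univ := by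
    intro θ _
    fun_prop
  filter_upwards [ae_ne_of_analytic hF (θ0 := 0) (by simp)] with θ hθ x h
  apply hθ
  rw [pt_re, pt_im, abs_mul, abs_mul] at h
  have h1 := mul_left_cancel₀ (abs_pos.mpr (Real.exp_pos x).ne').ne' h
  have h2 : Real.cos θ ^ 2 = Real.sin θ ^ 2 := by rw [← sq_abs, h1, sq_abs]
  linarith

lemma posLog_le {y b : ℝ} (hy : 0 ≤ y) (hb : 0 ≤ b) (h : y ≤ Real.exp b) : log⁺ y ≤ b := by
  have h2 : log⁺ y = max 0 (Real.log y) := rfl
  rw [h2]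
  apply max_le hb
  rcases hy.eq_or_lt with h0 | h0
  · rw [← h0, Real.log_zero]
    exact hb
  · exact (Real.log_le_iff_le_exp h0).mpr h

/-- Limit of the normalised characteristic. -/
noncomputable def Tinf (x : ℝ) : ℝ := (2 * π)⁻¹ * ∫ θ in (0 : ℝ)..(2 * π), log⁺ ‖Wf (pt x θ)‖

/-- General dominated convergence step. -/
lemma dct_step {F : ℕ → ℂ → ℂ} (hF : ∀ k, Continuous (F k)) {x C : ℝ} {Φ : ℝ → ℝ}
    (hb : ∀ᶠ k : ℕ in atTop, ∀ θ : ℝ, ‖F k (lam ^ k * pt x θ)‖ ≤ Real.exp (2 ^ k * C)) (hC : 0 ≤ C)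
    (hlim : ∀ᵐ θ : ℝ, Tendsto (fun k : ℕ => (1 / 2 : ℝ) ^ k * log⁺ ‖F k (lam ^ k * pt x θ)‖) atTop
      (𝓝 (Φ θ))) :
    Tendsto (fun k : ℕ => (1 / 2 : ℝ) ^ k * Tc (F k) (qr ^ k * Real.exp x)) atTop
      (𝓝 ((2 * π)⁻¹ * ∫ θ in (0 : ℝ)..(2 * π), Φ θ)) := by
  have h1 : Tendsto (fun k : ℕ => ∫ θ in (0 : ℝ)..(2 * π),
      (1 / 2 : ℝ) ^ k * log⁺ ‖F k (lam ^ k * pt x θ)‖) atTop
      (𝓝 (∫ θ in (0 : ℝ)..(2 * π), Φ θ)) := by
    apply intervalIntegral.tendsto_integral_filter_of_dominated_convergence (fun _ => C)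
    · refine Eventually.of_forall ?_
      intro k
      apply Continuous.aestronglyMeasurable
      have h2 : Continuous fun θ : ℝ => F k (lam ^ k * pt x θ) :=
        (hF k).comp (continuous_const.mul (pt_cont x))
      exact continuous_const.mul (Real.continuous_posLog.comp h2.norm)
    · filter_upwards [hb] with k hk
      refine ae_of_all _ ?_
      intro θ _
      rw [Real.norm_of_nonneg (mul_nonneg (by positivity) posLog_nonneg)]
      have h2 := posLog_le (norm_nonneg _) (by positivity) (hk θ)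
      calc (1 / 2 : ℝ) ^ k * log⁺ ‖F k (lam ^ k * pt x θ)‖ ≤ (1 / 2 : ℝ) ^ k * (2 ^ k * C) :=
            mul_le_mul_of_nonneg_left h2 (by positivity)
        _ = ((1 / 2 : ℝ) ^ k * 2 ^ k) * C := by ring
        _ = C := by rw [pow_half_mul, one_mul]
    · exact intervalIntegrable_const
    · filter_upwards [hlim] with θ hθ _
      exact hθ
  refine (h1.const_mul (2 * π)⁻¹).congr ?_
  intro k
  rw [Tc_lam, intervalIntegral.integral_const_mul]
  ring

lemma ev_radius (R0 x : ℝ) : ∀ᶠ k : ℕ in atTop, ∀ θ : ℝ, R0 ≤ ‖lam ^ k * pt x θ‖ := by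
  have h15 : Tendsto (fun k : ℕ => qr ^ k) atTop atTop :=
    tendsto_pow_atTop_atTop_of_one_lt qr_gt
  filter_upwards [h15.eventually_ge_atTop (R0 / Real.exp x)] with k hk θ
  rw [norm_mul, norm_lam_pow, norm_pt]
  rwa [div_le_iff₀ (Real.exp_pos x)] at hk

/-- The defining property of the constructed function. -/
def Good9 (f : ℂ → ℂ) (R0 : ℝ) : Prop :=
  Differentiable ℂ f ∧ ∀ z : ℂ, R0 ≤ ‖z‖ → ‖f z - av z - Pf z‖ ≤ ‖Pf z‖ / 4

lemma norm_pt_le {x : ℝ} (hx1 : x ≤ Real.log (13 / 10)) (θ : ℝ) : ‖pt x θ‖ ≤ 13 / 10 := by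
  have hexp1 : Real.exp (Real.log (13 / 10)) = 13 / 10 := Real.exp_log (by norm_num)
  rw [norm_pt, ← hexp1]
  exact Real.exp_le_exp.mpr hx1

theorem T_tendsto {f : ℂ → ℂ} {R0 : ℝ} (hf : Good9 f R0) {x : ℝ} (hx0 : 0 ≤ x)
    (hx1 : x ≤ Real.log (13 / 10)) :
    Tendsto (fun k : ℕ => (1 / 2 : ℝ) ^ k * Tc f (qr ^ k * Real.exp x)) atTop (𝓝 (Tinf x)) := by
  obtain ⟨C, hC0, hC⟩ := upper_iter
  refine dct_step (F := fun _ => f) (C := C + 3) (fun _ => hf.1.continuous) ?_ (by linarith) ?_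
  · filter_upwards [ev_radius R0 x] with k hk θ
    have h1 := hf.2 _ (hk θ)
    have h2 := hC (pt x θ) ((norm_pt_le hx1 θ).trans (by norm_num)) k
    have h3 := (av_norm (lam ^ k * pt x θ)).2
    have e : f (lam ^ k * pt x θ) = (f (lam ^ k * pt x θ) - av (lam ^ k * pt x θ) -
      Pf (lam ^ k * pt x θ)) + av (lam ^ k * pt x θ) + Pf (lam ^ k * pt x θ) := by ring
    have h4 := norm_add₃_le (a := f (lam ^ k * pt x θ) - av (lam ^ k * pt x θ) -
      Pf (lam ^ k * pt x θ)) (b := av (lam ^ k * pt x θ)) (c := Pf (lam ^ k * pt x θ))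
    rw [← e] at h4
    have h5 : Real.exp (2 ^ k * (C + 3)) = Real.exp (2 ^ k * C) * Real.exp (2 ^ k * 3) := by
      rw [← Real.exp_add]; ring_nf
    have h6 : (4 : ℝ) ≤ Real.exp (2 ^ k * 3) := by
      have h7 := Real.add_one_le_exp ((2 : ℝ) ^ k * 3)
      have h8 : (1 : ℝ) ≤ 2 ^ k := one_le_pow₀ (by norm_num)
      linarith
    have h9 : 1 ≤ Real.exp (2 ^ k * C) := Real.one_le_exp (by positivity)
    rw [h5]
    nlinarith
  · filter_upwards [ae_W hx0 hx1] with θ hθ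
    have h1 := lim_out (K := 0) (w := fun k => av (lam ^ k * pt x θ))
      (F := fun k => f (lam ^ k * pt x θ)) (pt_mem hx0 θ) hθ
      (fun k => ⟨(av_norm _).1, (av_norm _).2.trans (by norm_num)⟩)
      (by filter_upwards [ev_radius R0 x] with k hk; exact hf.2 _ (hk θ))
    have h2 := lim_posLog h1
    simp only [zero_mul, Real.exp_zero, mul_one, add_zero] at h2
    rwa [max_eq_right posLog_nonneg] at h2

end Pool.Agent.Helper30.F9
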