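import Pool.Agent.Helper30.F9.Lim2

set_option autoImplicit false

namespace Pool.Agent.Helper30.F9

open Real Metric Set MeasureTheory Filter Topology

/-- The compact polar rectangle. -/
def Sec : Set ℂ := {z : ℂ | 101 / 100 ≤ ‖z‖ ∧ ‖z‖ ≤ 13 / 10 ∧ |z.im| ≤ z.re}

lemma Sec_compact : IsCompact Sec := by
  apply (isCompact_closedBall (0 : ℂ) (13 / 10)).of_isClosed_subset
  · apply IsClosed.inter (isClosed_le continuous_const continuous_norm)
    apply IsClosed.inter (isClosed_le continuous_norm continuous_const)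
    exact isClosed_le Complex.continuous_im.abs Complex.continuous_re
  · intro z hz
    simpa using hz.2.1

lemma Sec_ne {z : ℂ} (hz : z ∈ Sec) : Pf z ≠ 0 := by
  apply Pf_ne_of_re
  · linarith [hz.2.1]
  · intro h
    linarith [hz.1]
  · intro h
    have h1 := hz.2.2
    rw [h] at h1
    have h2 : z.im = 0 := abs_eq_zero.mp (le_antisymm h1 (abs_nonneg _))
    have h3 : z = 0 := Complex.ext h h2
    have h4 := hz.1
    rw [h3, norm_zero] at h4
    norm_num at h4

lemma exists_K : ∃ K : ℝ, 0 ≤ K ∧ ∀ z ∈ Sec, -K ≤ Vf z := by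
  have hsub : Sec ⊆ UU := by
    intro z hz
    show (4 / 5 : ℝ) < ‖z‖
    linarith [hz.1]
  have hcont : ContinuousOn Vf Sec := by
    unfold Vf
    apply ContinuousOn.log
    · exact (Wf_diff.continuousOn.mono hsub).norm
    · intro z hz
      rw [norm_ne_zero_iff]
      intro h
      exact Sec_ne hz ((Wf_eq_zero_iff (hsub hz)).mp h)
  obtain ⟨K, hK⟩ := Sec_compact.exists_bound_of_continuousOn hcont
  refine ⟨max K 0, le_max_right _ _, ?_⟩
  intro z hz
  have h1 := hK z hz
  rw [Real.norm_eq_abs] at h1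
  have h2 := neg_le_of_abs_le h1
  have h3 : K ≤ max K 0 := le_max_left _ _
  linarith

open Classical in
/-- The deficiency term. -/
noncomputable def Bf (x θ : ℝ) : ℝ := if |(pt x θ).im| < (pt x θ).re then min (Vf (pt x θ)) 0 else 0

/-- Its mean. -/
noncomputable def bb (x : ℝ) : ℝ := (2 * π)⁻¹ * ∫ θ in (0 : ℝ)..(2 * π), Bf x θ

lemma mem_Sec {x : ℝ} (hx0 : Real.log (101 / 100) ≤ x) (hx1 : x ≤ Real.log (13 / 10)) {θ : ℝ}
    (h : |(pt x θ).im| ≤ (pt x θ).re) : pt x θ ∈ Sec := by
  have hexp0 : Real.exp (Real.log (101 / 100)) = 101 / 100 := Real.exp_log (by norm_num)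
  refine ⟨?_, norm_pt_le hx1 θ, h⟩
  rw [norm_pt, ← hexp0]
  exact Real.exp_le_exp.mpr hx0

lemma log101 : 0 ≤ Real.log (101 / 100) := Real.log_nonneg (by norm_num)

lemma Bf_meas {x : ℝ} (hx : 0 ≤ x) : Measurable (Bf x) := by
  have h1 : Continuous fun θ : ℝ => Wf (pt x θ) :=
    Wf_diff.continuousOn.comp_continuous (pt_cont x) (pt_mem hx)
  have h2 : Measurable fun θ : ℝ => Vf (pt x θ) := by
    unfold Vf
    exact Real.measurable_log.comp h1.norm.measurable
  unfold Bf
  apply Measurable.ite
  · apply measurableSet_lt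
    · exact ((Complex.continuous_im.comp (pt_cont x)).abs).measurable
    · exact (Complex.continuous_re.comp (pt_cont x)).measurable
  · exact h2.min measurable_const
  · exact measurable_const

lemma Bf_bound {K : ℝ} (hK0 : 0 ≤ K) (hK : ∀ z ∈ Sec, -K ≤ Vf z) {x : ℝ}
    (hx0 : Real.log (101 / 100) ≤ x) (hx1 : x ≤ Real.log (13 / 10)) (θ : ℝ) :
    ‖Bf x θ‖ ≤ K := by
  unfold Bf
  split_ifs with h
  · have h1 := hK _ (mem_Sec hx0 hx1 h.le)
    rw [Real.norm_eq_abs, abs_le]
    constructor
    · exact le_min h1 (by linarith)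
    · exact (min_le_right _ _).trans hK0
  · simpa using hK0

lemma Bf_int {K : ℝ} (hK0 : 0 ≤ K) (hK : ∀ z ∈ Sec, -K ≤ Vf z) {x : ℝ}
    (hx0 : Real.log (101 / 100) ≤ x) (hx1 : x ≤ Real.log (13 / 10)) (a b : ℝ) :
    IntervalIntegrable (Bf x) volume a b := by
  refine (intervalIntegrable_const (c := K)).mono_fun
    (Bf_meas (log101.trans hx0)).aestronglyMeasurable ?_
  refine ae_of_all _ ?_
  intro θ
  rw [Real.norm_of_nonneg hK0]
  exact Bf_bound hK0 hK hx0 hx1 θ

lemma A_cont {x : ℝ} (hx : 0 ≤ x) : Continuous fun θ : ℝ => log⁺ ‖Wf (pt x θ)‖ := by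
  have h1 : Continuous fun θ : ℝ => Wf (pt x θ) :=
    Wf_diff.continuousOn.comp_continuous (pt_cont x) (pt_mem hx)
  exact Real.continuous_posLog.comp h1.norm

/-- The constant near the right sector. -/
noncomputable def ak (k : ℕ) : ℂ := Complex.I ^ k * (1 + Complex.I)

/-- The scale. -/
noncomputable def sk (K : ℝ) (k : ℕ) : ℂ := ((Real.exp (-(K * 2 ^ k)) : ℝ) : ℂ)

lemma sk_ne (K : ℝ) (k : ℕ) : sk K k ≠ 0 := by
  unfold sk
  exact_mod_cast (Real.exp_pos _).ne'

lemma norm_div_sk (K : ℝ) (k : ℕ) (y : ℂ) : ‖y / sk K k‖ = ‖y‖ * Real.exp (K * 2 ^ k) := by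
  unfold sk
  rw [norm_div, Complex.norm_real, Real.norm_of_nonneg (Real.exp_pos _).le, Real.exp_neg,
    div_inv_eq_mul]

theorem N_tendsto {f : ℂ → ℂ} {R0 : ℝ} (hf : Good9 f R0) {K : ℝ} (hK0 : 0 ≤ K)
    (hK : ∀ z ∈ Sec, -K ≤ Vf z) {x : ℝ} (hx0 : Real.log (101 / 100) ≤ x)
    (hx1 : x ≤ Real.log (13 / 10)) :
    Tendsto (fun k : ℕ => (1 / 2 : ℝ) ^ k * Tc (fun z => (f z - ak k) / sk K k)
      (qr ^ k * Real.exp x)) atTop (𝓝 (K + Tinf x + bb x)) := by
  obtain ⟨C, hC0, hC⟩ := upper_iter
  have hx0' : 0 ≤ x := log101.trans hx0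
  have hI : ∀ k : ℕ, ‖Complex.I ^ k‖ = 1 := fun k => by rw [norm_pow, Complex.norm_I, one_pow]
  have hak : ∀ k, ‖ak k‖ ≤ 2 := by
    intro k
    unfold ak
    rw [norm_mul, hI, one_mul]
    refine (norm_add_le _ _).trans ?_
    rw [norm_one, Complex.norm_I]
    norm_num
  have key : Tendsto (fun k : ℕ => (1 / 2 : ℝ) ^ k * Tc (fun z => (f z - ak k) / sk K k)
      (qr ^ k * Real.exp x)) atTop
      (𝓝 ((2 * π)⁻¹ * ∫ θ in (0 : ℝ)..(2 * π), (K + log⁺ ‖Wf (pt x θ)‖ + Bf x θ))) := by
    refine dct_step (F := fun k z => (f z - ak k) / sk K k) (C := C + K + 5)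
      (fun k => (hf.1.continuous.sub continuous_const).div_const _) ?_ (by linarith) ?_
    · filter_upwards [ev_radius R0 x] with k hk θ
      have h1 := hf.2 _ (hk θ)
      have h2 := hC (pt x θ) ((norm_pt_le hx1 θ).trans (by norm_num)) k
      have h3 := (av_norm (lam ^ k * pt x θ)).2
      have e : f (lam ^ k * pt x θ) - ak k = (f (lam ^ k * pt x θ) - av (lam ^ k * pt x θ) -
        Pf (lam ^ k * pt x θ)) + (av (lam ^ k * pt x θ) - ak k) + Pf (lam ^ k * pt x θ) := by ring
      have h4 := norm_add₃_le (a := f (lam ^ k * pt x θ) - av (lam ^ k * pt x θ) -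
        Pf (lam ^ k * pt x θ)) (b := av (lam ^ k * pt x θ) - ak k) (c := Pf (lam ^ k * pt x θ))
      rw [← e] at h4
      have h4' := norm_sub_le (av (lam ^ k * pt x θ)) (ak k)
      have h4'' := hak k
      rw [norm_div_sk]
      have h5 : Real.exp (2 ^ k * (C + K + 5)) = Real.exp (2 ^ k * C) * Real.exp (2 ^ k * 5) *
          Real.exp (K * 2 ^ k) := by
        rw [← Real.exp_add, ← Real.exp_add]; ring_nf
      have h6 : (6 : ℝ) ≤ Real.exp (2 ^ k * 5) := by
        have h7 := Real.add_one_le_exp ((2 : ℝ) ^ k * 5)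
        have h8 : (1 : ℝ) ≤ 2 ^ k := one_le_pow₀ (by norm_num)
        linarith
      have h9 : 1 ≤ Real.exp (2 ^ k * C) := Real.one_le_exp (by positivity)
      rw [h5]
      apply mul_le_mul_of_nonneg_right _ (Real.exp_pos _).le
      nlinarith
    · filter_upwards [ae_W hx0' hx1, ae_diag] with θ hθ hd
      have hd := hd x
      obtain hev := ev_radius R0 x
      have hpow := fun k => av_lam_pow hd k
      rcases lt_or_ge |(pt x θ).im| (pt x θ).re with h | h
      · -- inside the sector
        have hS := mem_Sec hx0 hx1 h.le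
        have h1 := lim_in (K := K) (F := fun k => f (lam ^ k * pt x θ) - ak k) (pt_mem hx0' θ)
          (Sec_ne hS) (by
            filter_upwards [hev] with k hk
            have h2 := hf.2 _ (hk θ)
            rw [(hpow k).2, av_in h] at h2
            exact h2)
        have h2 := lim_posLog h1
        have h3 := hK _ hS
        rw [max_eq_right (by linarith)] at h2
        have h4 : K + log⁺ ‖Wf (pt x θ)‖ + Bf x θ = Vf (pt x θ) + K := by
          unfold Bf
          rw [if_pos h]
          have h5 : log⁺ ‖Wf (pt x θ)‖ = max 0 (Vf (pt x θ)) := rfl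
          rw [h5, max_comm]
          have := max_add_min (Vf (pt x θ)) 0
          linarith
        rw [h4]
        refine h2.congr ?_
        intro k
        rw [norm_div_sk]
      · have h' : (pt x θ).re < |(pt x θ).im| := by
          rcases h.eq_or_lt with h0 | h0
          · exfalso
            apply hd
            rw [h0, abs_abs]
          · exact h0
        have h1 := lim_out (K := K) (w := fun k => av (lam ^ k * pt x θ) - ak k)
          (F := fun k => f (lam ^ k * pt x θ) - ak k) (pt_mem hx0' θ) hθ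
          (fun k => by
            have e : av (lam ^ k * pt x θ) - ak k =
                Complex.I ^ k * (av (pt x θ) - (1 + Complex.I)) := by
              rw [(hpow k).2]
              unfold ak
              ring
            rw [e, norm_mul, hI, one_mul]
            exact av_out h')
          (by
            filter_upwards [hev] with k hk
            have h2 := hf.2 _ (hk θ)
            have e : f (lam ^ k * pt x θ) - ak k - (av (lam ^ k * pt x θ) - ak k) -
              Pf (lam ^ k * pt x θ) = f (lam ^ k * pt x θ) - av (lam ^ k * pt x θ) -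
              Pf (lam ^ k * pt x θ) := by ring
            rw [e]
            exact h2)
        have h2 := lim_posLog h1
        have hp : 0 ≤ log⁺ ‖Wf (pt x θ)‖ := posLog_nonneg
        rw [max_eq_right (by linarith)] at h2
        have h4 : K + log⁺ ‖Wf (pt x θ)‖ + Bf x θ = log⁺ ‖Wf (pt x θ)‖ + K := by
          unfold Bf
          rw [if_neg (by linarith)]
          ring
        rw [h4]
        refine h2.congr ?_
        intro k
        rw [norm_div_sk]
  have e : (2 * π)⁻¹ * ∫ θ in (0 : ℝ)..(2 * π), (K + log⁺ ‖Wf (pt x θ)‖ + Bf x θ) =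
      K + Tinf x + bb x := by
    have i1 : IntervalIntegrable (fun θ : ℝ => log⁺ ‖Wf (pt x θ)‖) volume 0 (2 * π) :=
      (A_cont hx0').intervalIntegrable _ _
    have i2 := Bf_int hK0 hK hx0 hx1 0 (2 * π)
    have i0 : IntervalIntegrable (fun _ : ℝ => K) volume 0 (2 * π) := intervalIntegrable_const
    rw [intervalIntegral.integral_add (i0.add i1) i2, intervalIntegral.integral_add i0 i1,
      intervalIntegral.integral_const]
    unfold Tinf bb
    simp only [sub_zero, smul_eq_mul]
    field_simp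
  rw [← e]
  exact key

end Pool.Agent.Helper30.F9
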