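import Pool.Agent.Helper30.F9.Lim3

set_option autoImplicit false

namespace Pool.Agent.Helper30.F9

open Real Metric Set MeasureTheory Filter Topology

lemma arg_le {ω : ℂ} (hω : ‖ω‖ = 1) (h : |ω.im| ≤ ω.re) : |Complex.arg ω| ≤ π / 4 := by
  by_contra hc
  push Not at hc
  have h0 : 0 ≤ ω.re := (abs_nonneg _).trans h
  have h1 := Complex.abs_arg_le_pi_div_two_iff.mpr h0
  have e : ω = Complex.exp ((Complex.arg ω : ℂ) * Complex.I) := by
    have := Complex.norm_mul_exp_arg_mul_I ω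
    rw [hω, Complex.ofReal_one, one_mul] at this
    exact this.symm
  have e1 : ω.re = Real.cos (Complex.arg ω) := by
    conv_lhs => rw [e]
    rw [Complex.exp_ofReal_mul_I_re]
  have e2 : ω.im = Real.sin (Complex.arg ω) := by
    conv_lhs => rw [e]
    rw [Complex.exp_ofReal_mul_I_im]
  have h2 : Real.cos (2 * |Complex.arg ω|) < 0 :=
    Real.cos_neg_of_pi_div_two_lt_of_lt (by linarith) (by linarith [pi_pos])
  have h3 : Real.cos (2 * |Complex.arg ω|) = Real.cos (2 * Complex.arg ω) := by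
    rcases abs_choice (Complex.arg ω) with h4 | h4
    · rw [h4]
    · rw [h4, mul_neg, Real.cos_neg]
  rw [h3, Real.cos_two_mul', ← e1, ← e2] at h2
  have h5 : ω.im ^ 2 ≤ ω.re ^ 2 := by
    rw [← sq_abs ω.im]
    exact pow_le_pow_left₀ (abs_nonneg _) h 2
  linarith

lemma sector_iff (x θ : ℝ) : |(pt x θ).im| < (pt x θ).re ↔ |Real.sin θ| < Real.cos θ := by
  rw [pt_re, pt_im, abs_mul, abs_of_pos (Real.exp_pos x)]
  exact mul_lt_mul_iff_right₀ (Real.exp_pos x)

/-- Radial monotonicity for an arbitrary angle in the sector. -/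
lemma V_sector' {x x' θ : ℝ} (hx0 : Real.log (101 / 100) ≤ x) (hxx : x ≤ x')
    (hx1 : x' ≤ Real.log (13 / 10)) (hθ : |Real.sin θ| ≤ Real.cos θ) :
    1 / 10 * (x' - x) ≤ Vf (pt x' θ) - Vf (pt x θ) := by
  set ω : ℂ := Complex.exp ((θ : ℂ) * Complex.I) with hω
  have hω1 : ‖ω‖ = 1 := Complex.norm_exp_ofReal_mul_I θ
  have h1 : |ω.im| ≤ ω.re := by
    rw [hω, Complex.exp_ofReal_mul_I_re, Complex.exp_ofReal_mul_I_im]
    exact hθ
  have h2 := arg_le hω1 h1
  have e : ω = Complex.exp ((Complex.arg ω : ℂ) * Complex.I) := by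
    have := Complex.norm_mul_exp_arg_mul_I ω
    rw [hω1, Complex.ofReal_one, one_mul] at this
    exact this.symm
  have e2 : ∀ y : ℝ, pt y θ = pt y (Complex.arg ω) := by
    intro y
    rw [pt_eq, pt_eq, ← e, ← hω]
  rw [e2, e2]
  exact V_sector hx0 hxx hx1 h2

lemma Bf_mono {x x' θ : ℝ} (hx0 : Real.log (101 / 100) ≤ x) (hxx : x ≤ x')
    (hx1 : x' ≤ Real.log (13 / 10)) : Bf x θ ≤ Bf x' θ := by
  unfold Bf
  by_cases h : |Real.sin θ| < Real.cos θ
  · rw [if_pos ((sector_iff x θ).mpr h), if_pos ((sector_iff x' θ).mpr h)]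
    have h1 := V_sector' hx0 hxx hx1 h.le
    exact min_le_min_right 0 (by nlinarith)
  · rw [if_neg (fun h' => h ((sector_iff x θ).mp h')), if_neg (fun h' => h ((sector_iff x' θ).mp h'))]

lemma exists_theta : ∃ θ1 : ℝ, 0 < θ1 ∧ θ1 < π / 4 ∧ ∀ θ ∈ Icc 0 θ1,
    Vf (pt (Real.log (13 / 10)) θ) < 0 := by
  have hl : 0 ≤ Real.log (13 / 10) := Real.log_nonneg (by norm_num)
  have h1 : Continuous fun θ : ℝ => ‖Wf (pt (Real.log (13 / 10)) θ)‖ :=
    (Wf_diff.continuousOn.comp_continuous (pt_cont _) (pt_mem hl)).norm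
  have hexp1 : Real.exp (Real.log (13 / 10)) = 13 / 10 := Real.exp_log (by norm_num)
  have e0 : pt (Real.log (13 / 10)) 0 = ((13 / 10 : ℝ) : ℂ) := by
    rw [pt_eq, hexp1]
    simp
  have hlog : Real.log (101 / 100) ≤ Real.log (13 / 10) :=
    Real.log_le_log (by norm_num) (by norm_num)
  have hmem : ∀ θ : ℝ, |θ| ≤ π / 4 → pt (Real.log (13 / 10)) θ ∈ Sec := by
    intro θ hθ
    exact mem_Sec hlog le_rfl (pt_sector hθ)
  have hWpos : ∀ θ : ℝ, |θ| ≤ π / 4 → 0 < ‖Wf (pt (Real.log (13 / 10)) θ)‖ := by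
    intro θ hθ
    rw [norm_pos_iff]
    intro h
    exact Sec_ne (hmem θ hθ) ((Wf_eq_zero_iff (pt_mem hl θ)).mp h)
  have h2 : ‖Wf (pt (Real.log (13 / 10)) 0)‖ < 1 := by
    have h3 := V_t2
    rw [← e0] at h3
    unfold Vf at h3
    exact (Real.log_neg_iff (hWpos 0 (by rw [abs_zero]; positivity))).mp h3
  have h4 : ∀ᶠ θ : ℝ in 𝓝 0, ‖Wf (pt (Real.log (13 / 10)) θ)‖ < 1 :=
    h1.continuousAt.eventually_lt continuousAt_const h2
  obtain ⟨ε, hε, hε2⟩ := Metric.eventually_nhds_iff.mp h4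
  refine ⟨min (ε / 2) (π / 8), by positivity, ?_, ?_⟩
  · exact (min_le_right _ _).trans_lt (by linarith [pi_pos])
  · intro θ hθ
    have h5 : θ ≤ ε / 2 := hθ.2.trans (min_le_left _ _)
    have h6 : θ ≤ π / 8 := hθ.2.trans (min_le_right _ _)
    have h7 : ‖Wf (pt (Real.log (13 / 10)) θ)‖ < 1 := by
      apply hε2
      rw [dist_zero_right, Real.norm_of_nonneg hθ.1]
      linarith
    unfold Vf
    refine Real.log_neg (hWpos θ ?_) h7
    rw [abs_of_nonneg hθ.1]
    linarith [pi_pos]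

lemma bb_mono : ∃ c0 : ℝ, 0 < c0 ∧ ∀ x x' : ℝ, Real.log (101 / 100) ≤ x → x ≤ x' →
    x' ≤ Real.log (13 / 10) → c0 * (x' - x) ≤ bb x' - bb x := by
  obtain ⟨θ1, h0, h1, h2⟩ := exists_theta
  obtain ⟨K, hK0, hK⟩ := exists_K
  refine ⟨(2 * π)⁻¹ * (1 / 10 * θ1), by positivity, ?_⟩
  intro x x' hx0 hxx hx1
  have i1 := fun a b => Bf_int hK0 hK hx0 (hxx.trans hx1) a b
  have i2 := fun a b => Bf_int hK0 hK (hx0.trans hxx) hx1 a b
  have hpi : θ1 ≤ 2 * π := by linarith [pi_pos]
  have e : bb x' - bb x = (2 * π)⁻¹ * ∫ θ in (0 : ℝ)..(2 * π), (Bf x' θ - Bf x θ) := by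
    unfold bb
    rw [intervalIntegral.integral_sub (i2 _ _) (i1 _ _)]
    ring
  have s : ∫ θ in (0 : ℝ)..(2 * π), (Bf x' θ - Bf x θ) =
      (∫ θ in (0 : ℝ)..θ1, (Bf x' θ - Bf x θ)) + ∫ θ in θ1..(2 * π), (Bf x' θ - Bf x θ) :=
    (intervalIntegral.integral_add_adjacent_intervals ((i2 _ _).sub (i1 _ _))
      ((i2 _ _).sub (i1 _ _))).symm
  have p1 : 1 / 10 * θ1 * (x' - x) ≤ ∫ θ in (0 : ℝ)..θ1, (Bf x' θ - Bf x θ) := by
    have : ∫ _ in (0 : ℝ)..θ1, (1 / 10 * (x' - x)) = 1 / 10 * θ1 * (x' - x) := by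
      rw [intervalIntegral.integral_const]
      simp only [sub_zero, smul_eq_mul]
      ring
    rw [← this]
    apply intervalIntegral.integral_mono_on h0.le intervalIntegrable_const ((i2 _ _).sub (i1 _ _))
    intro θ hθ
    have hc : 0 < Real.cos (2 * θ) := Real.cos_pos_of_mem_Ioo
      ⟨by linarith [hθ.1, pi_pos], by linarith [hθ.2]⟩
    have hc2 : 0 < Real.cos θ := Real.cos_pos_of_mem_Ioo
      ⟨by linarith [hθ.1, pi_pos], by linarith [hθ.2, pi_pos]⟩
    rw [Real.cos_two_mul'] at hc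
    have hsec : |Real.sin θ| < Real.cos θ := by
      apply abs_lt_of_sq_lt_sq _ hc2.le
      linarith
    have v1 := V_sector' hx0 hxx hx1 hsec.le
    have v2 := V_sector' (hx0.trans hxx) hx1 le_rfl hsec.le
    have v3 := h2 θ hθ
    have v4 : 0 ≤ 1 / 10 * (Real.log (13 / 10) - x') := by
      have : x' ≤ Real.log (13 / 10) := hx1
      nlinarith
    have v5 : 0 ≤ 1 / 10 * (x' - x) := by nlinarith
    unfold Bf
    rw [if_pos ((sector_iff x' θ).mpr hsec), if_pos ((sector_iff x θ).mpr hsec),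
      min_eq_left (by linarith), min_eq_left (by linarith)]
    exact v1
  have p2 : 0 ≤ ∫ θ in θ1..(2 * π), (Bf x' θ - Bf x θ) := by
    apply intervalIntegral.integral_nonneg hpi
    intro θ _
    linarith [Bf_mono (θ := θ) hx0 hxx hx1]
  rw [e, s]
  have hp : 0 < (2 * π)⁻¹ := by positivity
  calc (2 * π)⁻¹ * (1 / 10 * θ1) * (x' - x) = (2 * π)⁻¹ * (1 / 10 * θ1 * (x' - x)) := by ring
    _ ≤ _ := mul_le_mul_of_nonneg_left (by linarith) hp.le

lemma posLog_lip {a b : ℝ} (ha : 0 ≤ a) (hb : 0 ≤ b) : |log⁺ a - log⁺ b| ≤ |a - b| := by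
  have key : ∀ a b : ℝ, 0 ≤ a → a ≤ b → |log⁺ a - log⁺ b| ≤ |a - b| := by
    intro a b ha hab
    have hmono : log⁺ a ≤ log⁺ b := posLog_le_posLog ha hab
    rw [abs_sub_comm, abs_of_nonneg (by linarith), abs_sub_comm, abs_of_nonneg (by linarith)]
    have e : ∀ y : ℝ, log⁺ y = max 0 (Real.log y) := fun y => rfl
    rcases le_or_gt b 1 with hb1 | hb1
    · have h1 : log⁺ b = 0 := by
        rw [posLog_eq_zero_iff, abs_of_nonneg (ha.trans hab)]
        exact hb1
      have h2 : 0 ≤ log⁺ a := posLog_nonneg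
      linarith
    · have hlb : log⁺ b = Real.log b := by
        rw [e]
        exact max_eq_right (Real.log_nonneg hb1.le)
      rcases le_or_gt a 1 with ha1 | ha1
      · have h2 : 0 ≤ log⁺ a := posLog_nonneg
        have h3 := Real.log_le_sub_one_of_pos (by linarith : 0 < b)
        linarith
      · have hla : log⁺ a = Real.log a := by
          rw [e]
          exact max_eq_right (Real.log_nonneg ha1.le)
        rw [hlb, hla, ← Real.log_div (by linarith) (by linarith)]
        have h3 := Real.log_le_sub_one_of_pos (by positivity : 0 < b / a)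
        have h4 : b / a - 1 ≤ b - a := by
          rw [div_sub_one (by linarith), div_le_iff₀ (by linarith)]
          nlinarith
        linarith
  rcases le_total a b with h | h
  · exact key a b ha h
  · rw [abs_sub_comm, abs_sub_comm a b]
    exact key b a hb h

/-- Differentiability of the limit characteristic. -/
theorem Tinf_diff {x0 : ℝ} (h0 : 0 < x0) (h1 : x0 < Real.log (13 / 10)) :
    DifferentiableAt ℝ Tinf x0 := by
  set A : Set ℂ := {z : ℂ | 1 ≤ ‖z‖ ∧ ‖z‖ ≤ 13 / 10} with hA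
  have hAc : IsCompact A := by
    apply (isCompact_closedBall (0 : ℂ) (13 / 10)).of_isClosed_subset
    · exact IsClosed.inter (isClosed_le continuous_const continuous_norm)
        (isClosed_le continuous_norm continuous_const)
    · intro z hz
      simpa using hz.2
  have hAU : A ⊆ UU := by
    intro z hz
    show (4 / 5 : ℝ) < ‖z‖
    linarith [hz.1]
  have hderc : ContinuousOn (deriv Wf) UU := (Wf_diff.deriv UU_open).continuousOn
  have hcont : ContinuousOn (fun z => deriv Wf z * z) A := (hderc.mono hAU).mul continuousOn_id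
  obtain ⟨M, hM⟩ := hAc.exists_bound_of_continuousOn hcont
  have hWd : ∀ x θ : ℝ, 0 ≤ x → HasDerivAt (fun x : ℝ => Wf (pt x θ))
      (deriv Wf (pt x θ) * pt x θ) x := by
    intro x θ hx
    have d1 : HasDerivAt (fun x : ℝ => pt x θ) (pt x θ) x := by
      have e : (fun x : ℝ => pt x θ) = fun x : ℝ => (Real.exp x : ℂ) *
          Complex.exp ((θ : ℂ) * Complex.I) := by
        funext x
        exact pt_eq x θ
      rw [e, pt_eq]
      exact (Real.hasDerivAt_exp x).ofReal_comp.mul_const _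
    have d2 : HasDerivAt Wf (deriv Wf (pt x θ)) (pt x θ) :=
      (Wf_diff.differentiableAt (UU_open.mem_nhds (pt_mem hx θ))).hasDerivAt
    exact HasDerivAt.comp (h₂ := Wf) (h := fun x : ℝ => pt x θ) x d2 d1
  have hexp1 : Real.exp (Real.log (13 / 10)) = 13 / 10 := Real.exp_log (by norm_num)
  have hptA : ∀ x θ : ℝ, 0 ≤ x → x ≤ Real.log (13 / 10) → pt x θ ∈ A := by
    intro x θ hx hx'
    refine ⟨?_, norm_pt_le hx' θ⟩
    rw [norm_pt]
    exact Real.one_le_exp hx
  have hM0 : 0 ≤ M := (norm_nonneg _).trans (hM _ (hptA x0 0 h0.le h1.le))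
  set F' : ℝ → ℝ := fun θ => if 1 < ‖Wf (pt x0 θ)‖ then
    ((deriv Wf (pt x0 θ) * pt x0 θ) / Wf (pt x0 θ)).re else 0 with hF'
  have hWc : Continuous fun θ : ℝ => Wf (pt x0 θ) :=
    Wf_diff.continuousOn.comp_continuous (pt_cont x0) (pt_mem h0.le)
  have hF'm : Measurable F' := by
    apply Measurable.ite
    · exact measurableSet_lt measurable_const hWc.norm.measurable
    · apply Complex.measurable_re.comp
      apply Measurable.div
      · exact ((hderc.comp_continuous (pt_cont x0) (pt_mem h0.le)).mul (pt_cont x0)).measurable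
      · exact hWc.measurable
    · exact measurable_const
  have hmain := intervalIntegral.hasDerivAt_integral_of_dominated_loc_of_lip (𝕜 := ℝ)
    (μ := volume) (a := 0) (b := 2 * π) (bound := fun _ => M)
    (F := fun x θ => log⁺ ‖Wf (pt x θ)‖) (F' := F') (x₀ := x0)
    (s := Ioo 0 (Real.log (13 / 10))) (Ioo_mem_nhds h0 h1) ?_ ?_ ?_ ?_ ?_ ?_
  · have h2 := hmain.2.const_mul (2 * π)⁻¹
    exact h2.differentiableAt
  · filter_upwards [Ioo_mem_nhds h0 h1] with x hx
    exact (A_cont hx.1.le).aestronglyMeasurable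
  · exact (A_cont h0.le).intervalIntegrable _ _
  · exact hF'm.aestronglyMeasurable
  · refine ae_of_all _ ?_
    intro θ _
    rw [lipschitzOnWith_iff_dist_le_mul]
    intro x hx y hy
    rw [Real.dist_eq, Real.coe_nnabs, abs_of_nonneg hM0]
    refine (posLog_lip (norm_nonneg _) (norm_nonneg _)).trans ?_
    refine (abs_norm_sub_norm_le _ _).trans ?_
    have h3 := Convex.norm_image_sub_le_of_norm_hasDerivWithin_le (𝕜 := ℝ)
      (f := fun x : ℝ => Wf (pt x θ)) (f' := fun x : ℝ => deriv Wf (pt x θ) * pt x θ)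
      (s := Ioo 0 (Real.log (13 / 10))) (x := y) (y := x) (C := M)
      (fun u hu => (hWd u θ hu.1.le).hasDerivWithinAt)
      (fun u hu => hM _ (hptA u θ hu.1.le hu.2.le)) (convex_Ioo _ _) hy hx
    rw [Real.dist_eq]
    simpa using h3
  · exact intervalIntegrable_const
  · filter_upwards [ae_W h0.le h1.le] with θ hθ _
    simp only [hF']
    have hcd := (hWd x0 θ h0.le)
    have hcn : ContinuousAt (fun x : ℝ => ‖Wf (pt x θ)‖) x0 := hcd.continuousAt.norm
    rcases lt_or_gt_of_ne hθ with h2 | h2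
    · rw [if_neg (by linarith)]
      have h3 : (fun x : ℝ => log⁺ ‖Wf (pt x θ)‖) =ᶠ[𝓝 x0] fun _ => 0 := by
        filter_upwards [hcn.eventually_lt continuousAt_const h2] with x hx
        rw [posLog_eq_zero_iff, abs_of_nonneg (norm_nonneg _)]
        exact hx.le
      exact (hasDerivAt_const x0 (0 : ℝ)).congr_of_eventuallyEq h3
    · rw [if_pos h2]
      have h3 : (fun x : ℝ => log⁺ ‖Wf (pt x θ)‖) =ᶠ[𝓝 x0] fun x => Real.log ‖Wf (pt x θ)‖ := by
        filter_upwards [continuousAt_const.eventually_lt hcn h2] with x hx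
        rw [posLog_eq_log]
        rw [abs_of_nonneg (norm_nonneg _)]
        exact hx.le
      have hne : Wf (pt x0 θ) ≠ 0 := by
        intro h
        rw [h, norm_zero] at h2
        linarith
      exact (hasDerivAt_log_norm hcd hne).congr_of_eventuallyEq h3

end Pool.Agent.Helper30.F9
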