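import Pool.Agent.Helper30.F9.JFun

set_option autoImplicit false

namespace Pool.Agent.Helper30.F9

open Real Metric Set MeasureTheory Filter Topology

/-- Product of Gaussian rationals. -/
def gm (a b : ℚ × ℚ) : ℚ × ℚ := (a.1 * b.1 - a.2 * b.2, a.1 * b.2 + a.2 * b.1)

/-- Sum of Gaussian rationals. -/
def ga (a b : ℚ × ℚ) : ℚ × ℚ := (a.1 + b.1, a.2 + b.2)

/-- Powers of a Gaussian rational. -/
def gpow (a : ℚ × ℚ) : ℕ → ℚ × ℚ
  | 0 => (1, 0)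
  | n + 1 => gm (gpow a n) a

/-- Horner evaluation. -/
def horner (w : ℚ × ℚ) : List (ℚ × ℚ) → ℚ × ℚ
  | [] => (0, 0)
  | b :: bs => gm w (ga b (horner w bs))

/-- The complex number of a Gaussian rational. -/
noncomputable def toC (a : ℚ × ℚ) : ℂ := ⟨(a.1 : ℝ), (a.2 : ℝ)⟩

lemma toC_gm (a b : ℚ × ℚ) : toC (gm a b) = toC a * toC b := by
  apply Complex.ext <;> simp [toC, gm]

lemma toC_ga (a b : ℚ × ℚ) : toC (ga a b) = toC a + toC b := by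
  apply Complex.ext <;> simp [toC, ga]

lemma toC_gpow (a : ℚ × ℚ) (n : ℕ) : toC (gpow a n) = toC a ^ n := by
  induction n with
  | zero => apply Complex.ext <;> simp [toC, gpow]
  | succ n ih => rw [gpow, toC_gm, ih, pow_succ]

/-- The rational version of `cf`. -/
def cfq (n : ℕ) : ℚ × ℚ :=
  (1 - 2 * (gpow (0, -25 / 32) n).1, -2 * (gpow (0, -25 / 32) n).2)

lemma toC_cfq (n : ℕ) : toC (cfq n) = cf n := by
  have h1 : toC (0, -25 / 32) = lam⁻¹ := by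
    rw [lam_inv]
    apply Complex.ext <;> simp [toC]
    norm_num
  have h2 := toC_gpow (0, -25 / 32) n
  rw [h1, inv_pow] at h2
  unfold cf
  rw [← h2]
  apply Complex.ext <;> simp [toC, cfq]

/-- Polynomial with shifted powers. -/
noncomputable def pv (w : ℂ) : ℕ → List (ℚ × ℚ) → ℂ
  | _, [] => 0
  | n, b :: bs => toC b * w ^ (n + 1) + pv w (n + 1) bs

lemma horner_spec (w : ℚ × ℚ) (cs : List (ℚ × ℚ)) (n : ℕ) :
    toC w ^ n * toC (horner w cs) = pv (toC w) n cs := by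
  induction cs generalizing n with
  | nil =>
    have : toC (0, 0) = 0 := by apply Complex.ext <;> simp [toC]
    simp [horner, pv, this]
  | cons b bs ih =>
    rw [horner, toC_gm, toC_ga, pv, ← ih (n + 1)]
    ring

/-- Lipschitz constant. -/
def lipq (R : ℚ) : ℕ → List (ℚ × ℚ) → ℚ
  | _, [] => 0
  | n, b :: bs => (n + 1) * (|b.1| + |b.2|) * R ^ n + lipq R (n + 1) bs

lemma norm_toC_le (b : ℚ × ℚ) : ‖toC b‖ ≤ ((|b.1| + |b.2| : ℚ) : ℝ) := by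
  have h := Complex.norm_le_abs_re_add_abs_im (toC b)
  simp only [toC] at h
  push_cast
  exact h

lemma pow_sub_bound {w v : ℂ} {R : ℝ} (hw : ‖w‖ ≤ R) (hv : ‖v‖ ≤ R) (n : ℕ) :
    ‖w ^ (n + 1) - v ^ (n + 1)‖ ≤ (n + 1) * R ^ n * ‖w - v‖ := by
  have hR : 0 ≤ R := (norm_nonneg _).trans hw
  induction n with
  | zero => simp
  | succ n ih =>
    have e : w ^ (n + 1 + 1) - v ^ (n + 1 + 1) =
        w ^ (n + 1) * (w - v) + (w ^ (n + 1) - v ^ (n + 1)) * v := by ring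
    rw [e]
    refine (norm_add_le _ _).trans ?_
    rw [norm_mul, norm_mul, norm_pow]
    have h1 : ‖w‖ ^ (n + 1) ≤ R ^ (n + 1) := pow_le_pow_left₀ (norm_nonneg _) hw _
    have h2 : ‖w‖ ^ (n + 1) * ‖w - v‖ ≤ R ^ (n + 1) * ‖w - v‖ :=
      mul_le_mul_of_nonneg_right h1 (norm_nonneg _)
    have h3 : ‖w ^ (n + 1) - v ^ (n + 1)‖ * ‖v‖ ≤ ((n + 1) * R ^ n * ‖w - v‖) * R :=
      mul_le_mul ih hv (norm_nonneg _) (by positivity)
    push_cast
    calc _ ≤ R ^ (n + 1) * ‖w - v‖ + ((n + 1) * R ^ n * ‖w - v‖) * R := add_le_add h2 h3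
      _ = _ := by ring

lemma pv_lip {w v : ℂ} {R : ℚ} (hw : ‖w‖ ≤ R) (hv : ‖v‖ ≤ R) (cs : List (ℚ × ℚ)) (n : ℕ) :
    ‖pv w n cs - pv v n cs‖ ≤ (lipq R n cs : ℝ) * ‖w - v‖ := by
  induction cs generalizing n with
  | nil => simp [pv, lipq]
  | cons b bs ih =>
    have hR : (0 : ℝ) ≤ R := (norm_nonneg _).trans hw
    rw [pv, pv, lipq]
    have e : toC b * w ^ (n + 1) + pv w (n + 1) bs - (toC b * v ^ (n + 1) + pv v (n + 1) bs) =
        toC b * (w ^ (n + 1) - v ^ (n + 1)) + (pv w (n + 1) bs - pv v (n + 1) bs) := by ring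
    rw [e]
    refine (norm_add_le _ _).trans ?_
    rw [norm_mul]
    have h1 := norm_toC_le b
    have h2 := pow_sub_bound hw hv n
    have h3 : ‖toC b‖ * ‖w ^ (n + 1) - v ^ (n + 1)‖ ≤
        ((|b.1| + |b.2| : ℚ) : ℝ) * ((n + 1) * (R : ℝ) ^ n * ‖w - v‖) :=
      mul_le_mul h1 h2 (norm_nonneg _) ((norm_nonneg _).trans h1)
    have h4 := ih (n + 1)
    push_cast at h3 h4 ⊢
    calc _ ≤ (|(b.1 : ℝ)| + |(b.2 : ℝ)|) * ((n + 1) * (R : ℝ) ^ n * ‖w - v‖) +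
          (lipq R (n + 1) bs : ℝ) * ‖w - v‖ := add_le_add h3 h4
      _ = _ := by ring

/-- Validity of the coefficient table. -/
def Good (δ : ℚ) : ℕ → List (ℚ × ℚ) → Prop
  | _, [] => True
  | n, b :: bs => |(gm b (cfq (n + 1))).1 - 1| + |(gm b (cfq (n + 1))).2| ≤ δ / 4 ∧ Good δ (n + 1) bs

instance decGood (δ : ℚ) : (n : ℕ) → (cs : List (ℚ × ℚ)) → Decidable (Good δ n cs)
  | _, [] => isTrue trivial
  | n, b :: bs =>
    haveI := decGood δ (n + 1) bs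
    inferInstanceAs (Decidable (|(gm b (cfq (n + 1))).1 - 1| + |(gm b (cfq (n + 1))).2| ≤ δ / 4 ∧
      Good δ (n + 1) bs))

lemma good_head {δ : ℚ} {n : ℕ} {b : ℚ × ℚ}
    (h : |(gm b (cfq n)).1 - 1| + |(gm b (cfq n)).2| ≤ δ / 4) :
    ‖toC b - (cf n)⁻¹‖ ≤ δ := by
  have h1 : toC (gm b (cfq n)) = toC b * cf n := by rw [toC_gm, toC_cfq]
  have h2 : ‖toC (gm b (cfq n)) - 1‖ ≤ (δ : ℝ) / 4 := by
    have h3 := Complex.norm_le_abs_re_add_abs_im (toC (gm b (cfq n)) - 1)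
    refine h3.trans ?_
    have h4 : ((|(gm b (cfq n)).1 - 1| + |(gm b (cfq n)).2| : ℚ) : ℝ) ≤ ((δ / 4 : ℚ) : ℝ) := by
      exact_mod_cast h
    push_cast at h4
    simpa [toC] using h4
  rw [h1] at h2
  have h5 : toC b - (cf n)⁻¹ = (toC b * cf n - 1) / cf n := by
    have := cf_ne n
    field_simp
  rw [h5, norm_div, div_le_iff₀ (norm_pos_iff.mpr (cf_ne n))]
  have h6 := cf_norm n
  have h7 : (0 : ℝ) ≤ δ := by
    have := (norm_nonneg _).trans h2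
    linarith
  nlinarith

lemma pv_approx {δ : ℚ} {w : ℂ} (hw : ‖w‖ ≤ 1) (cs : List (ℚ × ℚ)) (n : ℕ) (h : Good δ n cs) :
    ‖pv w n cs - ∑ i ∈ Finset.range cs.length, w ^ (n + i + 1) / cf (n + i + 1)‖ ≤
      cs.length * (δ : ℝ) := by
  induction cs generalizing n with
  | nil => simp [pv]
  | cons b bs ih =>
    rw [Good] at h
    have h1 := good_head h.1
    have h2 := ih (n + 1) h.2
    rw [List.length_cons, Finset.sum_range_succ', pv]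
    have e1 : ∑ k ∈ Finset.range bs.length, w ^ (n + (k + 1) + 1) / cf (n + (k + 1) + 1) =
        ∑ i ∈ Finset.range bs.length, w ^ (n + 1 + i + 1) / cf (n + 1 + i + 1) := by
      apply Finset.sum_congr rfl
      intro k _
      have : n + (k + 1) + 1 = n + 1 + k + 1 := by ring
      rw [this]
    rw [e1, add_zero]
    have e2 : toC b * w ^ (n + 1) + pv w (n + 1) bs -
        (∑ i ∈ Finset.range bs.length, w ^ (n + 1 + i + 1) / cf (n + 1 + i + 1) +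
          w ^ (n + 1) / cf (n + 1)) =
        (toC b - (cf (n + 1))⁻¹) * w ^ (n + 1) + (pv w (n + 1) bs -
          ∑ i ∈ Finset.range bs.length, w ^ (n + 1 + i + 1) / cf (n + 1 + i + 1)) := by
      rw [div_eq_mul_inv]
      ring
    rw [e2]
    refine (norm_add_le _ _).trans ?_
    rw [norm_mul, norm_pow]
    have h3 : ‖w‖ ^ (n + 1) ≤ 1 := pow_le_one₀ (norm_nonneg _) hw
    have h4 : ‖toC b - (cf (n + 1))⁻¹‖ * ‖w‖ ^ (n + 1) ≤ δ * 1 :=
      mul_le_mul h1 h3 (by positivity) ((norm_nonneg _).trans h1)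
    push_cast
    linarith

lemma Hf_tail {w : ℂ} {R : ℝ} (hw : ‖w‖ ≤ R) (hR : R < 1) (N : ℕ) :
    ‖Hf w - ∑ i ∈ Finset.range N, w ^ (i + 1) / cf (i + 1)‖ ≤ 4 * R ^ (N + 1) / (1 - R) := by
  have hR0 : 0 ≤ R := (norm_nonneg _).trans hw
  have ht : ∀ n : ℕ, ‖w ^ (n + 1) / cf (n + 1)‖ ≤ 4 * R ^ (n + 1) := by
    intro n
    rw [norm_div, norm_pow]
    have h3 := cf_norm (n + 1)
    rw [div_le_iff₀ (by linarith)]
    have h5 : ‖w‖ ^ (n + 1) ≤ R ^ (n + 1) := pow_le_pow_left₀ (norm_nonneg _) hw _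
    have h6 : 0 ≤ R ^ (n + 1) := by positivity
    nlinarith
  have hs : Summable fun n : ℕ => w ^ (n + 1) / cf (n + 1) :=
    Summable.of_norm_bounded (geom_summable hR0 hR) ht
  have h1 : Hf w - ∑ i ∈ Finset.range N, w ^ (i + 1) / cf (i + 1) =
      ∑' i : ℕ, w ^ (i + N + 1) / cf (i + N + 1) := by
    have := hs.sum_add_tsum_nat_add N
    unfold Hf
    rw [← this]
    ring
  rw [h1]
  have h2 : HasSum (fun i : ℕ => 4 * R ^ (N + 1) * R ^ i) (4 * R ^ (N + 1) * (1 - R)⁻¹) :=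
    (hasSum_geometric_of_lt_one hR0 hR).mul_left _
  rw [div_eq_mul_inv]
  apply tsum_of_norm_bounded h2
  intro i
  refine (ht (i + N)).trans (le_of_eq ?_)
  ring

/-- The table of coefficients. -/
def cs : List (ℚ × ℚ) :=
  [(152347 / 524288, -476085 / 1048576), (472181 / 1048576, 0),
  (549137 / 1048576, 261849 / 524288),
  (4112999 / 1048576, 0), (783213 / 1048576, -455891 / 1048576), (720795 / 1048576, 0),
  (931059 / 1048576, 165389 / 524288), (362857 / 262144, 0), (500743 / 524288, -217163 / 1048576),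
  (896673 / 1048576, 0), (1030525 / 1048576, 34097 / 262144), (1169499 / 1048576, 0),
  (520889 / 524288, -84155 / 1048576), (986329 / 1048576, 0), (1046033 / 1048576, 51573 / 1048576),
  (1090583 / 1048576, 0)]

lemma cs_good : Good (1 / 50000) 0 cs := by decide +kernel

lemma cs_length : cs.length = 16 := rfl

lemma Hf_approx {w : ℂ} {R : ℝ} (hw : ‖w‖ ≤ R) (hR : R < 1) :
    ‖Hf w - pv w 0 cs‖ ≤ 4 * R ^ 17 / (1 - R) + 1 / 3000 := by
  have h1 := Hf_tail hw hR 16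
  have h2 := pv_approx (hw.trans hR.le) cs 0 cs_good
  rw [cs_length] at h2
  simp only [zero_add] at h2
  have h3 : Hf w - pv w 0 cs = (Hf w - ∑ i ∈ Finset.range 16, w ^ (i + 1) / cf (i + 1)) -
      (pv w 0 cs - ∑ i ∈ Finset.range 16, w ^ (i + 1) / cf (i + 1)) := by ring
  rw [h3]
  refine (norm_sub_le _ _).trans ?_
  push_cast at h2
  have h4 : (16 : ℝ) * (1 / 50000) ≤ 1 / 3000 := by norm_num
  linarith

lemma re_frac {z p : ℂ} (h : z ≠ p) :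
    (z / (z - p)).re = 1 / 2 + (‖z‖ ^ 2 - ‖p‖ ^ 2) / (2 * ‖z - p‖ ^ 2) := by
  have h0 : 0 < ‖z - p‖ ^ 2 := by
    have := norm_pos_iff.mpr (sub_ne_zero.mpr h)
    positivity
  rw [Complex.div_re, ← add_div, Complex.normSq_eq_norm_sq]
  have e1 : z.re * (z - p).re + z.im * (z - p).im = (‖z‖ ^ 2 - ‖p‖ ^ 2 + ‖z - p‖ ^ 2) / 2 := by
    rw [← Complex.normSq_eq_norm_sq, ← Complex.normSq_eq_norm_sq, ← Complex.normSq_eq_norm_sq,
      Complex.normSq_apply, Complex.normSq_apply, Complex.normSq_apply]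
    simp
    ring
  rw [e1]
  generalize ‖z - p‖ ^ 2 = D at h0
  have h1 : D ≠ 0 := h0.ne'
  field_simp
  ring

lemma dist_lower {z c p : ℂ} {ρ : ℝ} (h : ‖z - c‖ ≤ ρ) :
    ‖c - p‖ ^ 2 - 2 * ρ * (1 + ‖c - p‖ ^ 2 / 4) ≤ ‖z - p‖ ^ 2 := by
  have h0 : 0 ≤ ρ := (norm_nonneg _).trans h
  have h1 : ‖c - p‖ ≤ ‖z - p‖ + ‖z - c‖ := by
    have : c - p = (z - p) - (z - c) := by ring
    rw [this]
    exact norm_sub_le _ _
  have h2 : ‖c - p‖ - ρ ≤ ‖z - p‖ := by linarith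
  have h3 : ‖c - p‖ ≤ 1 + ‖c - p‖ ^ 2 / 4 := by nlinarith [sq_nonneg (‖c - p‖ - 2)]
  have h4 : 0 ≤ ‖c - p‖ := norm_nonneg _
  have h5 : 0 ≤ ‖z - p‖ := norm_nonneg _
  have h6 : ρ * ‖c - p‖ ≤ ρ * (1 + ‖c - p‖ ^ 2 / 4) := mul_le_mul_of_nonneg_left h3 h0
  rcases le_total ρ ‖c - p‖ with h7 | h7
  · have : (‖c - p‖ - ρ) ^ 2 ≤ ‖z - p‖ ^ 2 := pow_le_pow_left₀ (by linarith) h2 2
    nlinarith
  · nlinarith

lemma dist_upper {z c p : ℂ} {ρ : ℝ} (h : ‖z - c‖ ≤ ρ) :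
    ‖z - p‖ ^ 2 ≤ ‖c - p‖ ^ 2 + 2 * ρ * (1 + ‖c - p‖ ^ 2 / 4) + ρ ^ 2 := by
  have h0 : 0 ≤ ρ := (norm_nonneg _).trans h
  have h1 : ‖z - p‖ ≤ ‖c - p‖ + ρ := by
    have : z - p = (z - c) + (c - p) := by ring
    rw [this]
    refine (norm_add_le _ _).trans ?_
    linarith
  have h3 : ‖c - p‖ ≤ 1 + ‖c - p‖ ^ 2 / 4 := by nlinarith [sq_nonneg (‖c - p‖ - 2)]
  have h6 : ρ * ‖c - p‖ ≤ ρ * (1 + ‖c - p‖ ^ 2 / 4) := mul_le_mul_of_nonneg_left h3 h0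
  have : ‖z - p‖ ^ 2 ≤ (‖c - p‖ + ρ) ^ 2 := pow_le_pow_left₀ (norm_nonneg _) h1 2
  nlinarith

/-- The scale of `lam ^ 3`. -/
def kap : ℚ := 15625 / 32768

/-- Upper estimate of a squared distance. -/
def up (X ρ : ℚ) : ℚ := X + 2 * ρ * (1 + X / 4) + ρ ^ 2

/-- Lower estimate of a squared distance. -/
def dn (X ρ : ℚ) : ℚ := X - 2 * ρ * (1 + X / 4)

/-- Squared distance of Gaussian rationals. -/
def dsq (a b : ℚ × ℚ) : ℚ := (a.1 - b.1) ^ 2 + (a.2 - b.2) ^ 2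

/-- Lower bound for the real part of `J` on a disc. -/
def low (m : ℚ) (c : ℚ × ℚ) (ρ D tl : ℚ) : ℚ :=
  (1 / 2 + (m - 1) / (2 * up (dsq c (1, 0)) ρ)) +
  2 * (1 / 2 - max ((32 / 25) ^ 2 - m) 0 / (2 * dn (dsq c (0, 32 / 25)) ρ)) +
  4 * (1 / 2 - ((32 / 25) ^ 4 - m) / (2 * dn (dsq c (-(32 / 25) ^ 2, 0)) ρ)) -
  8 * ((horner (gm c (0, kap)) cs).1 + kap * ρ * D + tl)

/-- The check for one disc. -/
def Chk (m : ℚ) (c : ℚ × ℚ) (ρ R D tl : ℚ) : Prop :=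
  1 ≤ m ∧ m ≤ (32 / 25) ^ 4 ∧ 0 ≤ ρ ∧ 0 < up (dsq c (1, 0)) ρ ∧
  0 < dn (dsq c (0, 32 / 25)) ρ ∧ 0 < dn (dsq c (-(32 / 25) ^ 2, 0)) ρ ∧
  dsq c (0, 0) * kap ^ 2 ≤ R ^ 2 ∧ -1 / 2 + 1 / 10 ≤ low m c ρ D tl

instance (m : ℚ) (c : ℚ × ℚ) (ρ R D tl : ℚ) : Decidable (Chk m c ρ R D tl) := by
  unfold Chk
  infer_instance

lemma dsq_eq (a b : ℚ × ℚ) : ((dsq a b : ℚ) : ℝ) = ‖toC a - toC b‖ ^ 2 := by
  rw [← Complex.normSq_eq_norm_sq, Complex.normSq_apply]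
  simp [toC, dsq]
  ring

lemma toC_one : toC (1, 0) = 1 := by apply Complex.ext <;> simp [toC]

lemma toC_zero : toC (0, 0) = 0 := by apply Complex.ext <;> simp [toC]

lemma toC_lam : toC (0, 32 / 25) = lam := by
  apply Complex.ext <;> simp [toC, lam]

lemma toC_lam2 : toC (-(32 / 25) ^ 2, 0) = lam ^ 2 := by
  rw [pow_two lam]
  apply Complex.ext <;> simp [toC, lam]
  ring

lemma toC_kap : toC (0, kap) = (lam ^ 3)⁻¹ := by
  rw [← inv_pow, lam_inv, pow_succ, pow_two]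
  apply Complex.ext <;> simp [toC, kap]
  norm_num

lemma norm_kap : ‖toC (0, kap)‖ = kap := by
  rw [toC_kap, norm_inv, norm_lam_pow]
  norm_num [qr, kap]

/-- Soundness of the check. -/
theorem chk_sound {m ρ R D tl : ℚ} {c : ℚ × ℚ} (hR0 : 0 ≤ R) (hR1 : R < 1)
    (hD : lipq R 0 cs ≤ D) (htl : 4 * R ^ 17 / (1 - R) + 1 / 3000 ≤ tl) (h : Chk m c ρ R D tl)
    {z : ℂ} (hz : ‖z - toC c‖ ≤ ρ) (hm : (m : ℝ) ≤ ‖z‖ ^ 2) (hzR : ‖z‖ * kap ≤ R)
    (h0 : z ≠ 1) (h1 : z ≠ lam) (h2 : z ≠ lam ^ 2) :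
    -1 / 2 + 1 / 10 ≤ (Jf z).re := by
  obtain ⟨c1, c2, c3, c4, c5, c6, c7, c8⟩ := h
  have hkap : (0 : ℝ) < kap := by norm_num [kap]
  have hz3 : ‖z‖ < qr ^ 3 := by
    have e : (qr ^ 3 : ℝ) = 1 / kap := by norm_num [qr, kap]
    rw [e, lt_div_iff₀ hkap]
    exact hzR.trans_lt (by exact_mod_cast hR1)
  rw [Jf_formula hz3 h0 h1 h2]
  have e0 := re_frac h0
  have e1 := re_frac h1
  have e2 := re_frac h2
  -- first term
  have u0 := dist_upper (p := 1) hz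
  rw [← toC_one, ← dsq_eq, toC_one] at u0
  have u1 := dist_lower (p := lam) hz
  rw [← toC_lam, ← dsq_eq, toC_lam] at u1
  have u2 := dist_lower (p := lam ^ 2) hz
  rw [← toC_lam2, ← dsq_eq, toC_lam2] at u2
  have m1 : (1 : ℝ) ≤ m := by exact_mod_cast c1
  have b0 : (((1 / 2 + (m - 1) / (2 * up (dsq c (1, 0)) ρ) : ℚ)) : ℝ) ≤ (z / (z - 1)).re := by
    rw [e0]
    push_cast
    have p1 : 0 < ‖z - 1‖ ^ 2 := by
      have := norm_pos_iff.mpr (sub_ne_zero.mpr h0)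
      positivity
    have p2 : ‖z - 1‖ ^ 2 ≤ (up (dsq c (1, 0)) ρ : ℝ) := by
      unfold up
      push_cast
      exact u0
    rw [norm_one, one_pow]
    have : ((m : ℝ) - 1) / (2 * (up (dsq c (1, 0)) ρ : ℝ)) ≤
        (‖z‖ ^ 2 - 1) / (2 * ‖z - 1‖ ^ 2) :=
      div_le_div₀ (by linarith) (by linarith) (by positivity) (by linarith)
    linarith
  have b1 : ((1 / 2 - max ((32 / 25) ^ 2 - m) 0 / (2 * dn (dsq c (0, 32 / 25)) ρ) : ℚ) : ℝ) ≤
      (z / (z - lam)).re := by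
    rw [e1]
    have p1 : 0 < ‖z - lam‖ ^ 2 := by
      have := norm_pos_iff.mpr (sub_ne_zero.mpr h1)
      positivity
    have p2 : (dn (dsq c (0, 32 / 25)) ρ : ℝ) ≤ ‖z - lam‖ ^ 2 := by
      unfold dn
      push_cast
      exact u1
    have p3 : (0 : ℝ) < (dn (dsq c (0, 32 / 25)) ρ : ℝ) := by exact_mod_cast c5
    have p4 : ‖lam‖ ^ 2 = (32 / 25) ^ 2 := by rw [norm_lam]; rfl
    rw [p4]
    have p5 : (((32 / 25) ^ 2 : ℝ) - ‖z‖ ^ 2) / (2 * ‖z - lam‖ ^ 2) ≤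
        ((max ((32 / 25) ^ 2 - m) 0 : ℚ) : ℝ) / (2 * (dn (dsq c (0, 32 / 25)) ρ : ℝ)) := by
      apply div_le_div₀
      · have : (0 : ℚ) ≤ max ((32 / 25) ^ 2 - m) 0 := le_max_right _ _
        exact_mod_cast this
      · have : (32 / 25) ^ 2 - m ≤ max ((32 / 25) ^ 2 - m) 0 := le_max_left _ _
        have h' : (((32 / 25) ^ 2 - m : ℚ) : ℝ) ≤ ((max ((32 / 25) ^ 2 - m) 0 : ℚ) : ℝ) := by
          exact_mod_cast this
        push_cast at h' ⊢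
        linarith
      · linarith
      · linarith
    have p6 : (‖z‖ ^ 2 - (32 / 25) ^ 2) / (2 * ‖z - lam‖ ^ 2) =
        -((((32 / 25) ^ 2 : ℝ) - ‖z‖ ^ 2) / (2 * ‖z - lam‖ ^ 2)) := by ring
    rw [p6]
    push_cast at p5 ⊢
    linarith
  have b2 : ((1 / 2 - ((32 / 25) ^ 4 - m) / (2 * dn (dsq c (-(32 / 25) ^ 2, 0)) ρ) : ℚ) : ℝ) ≤
      (z / (z - lam ^ 2)).re := by
    rw [e2]
    have p1 : 0 < ‖z - lam ^ 2‖ ^ 2 := by
      have := norm_pos_iff.mpr (sub_ne_zero.mpr h2)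
      positivity
    have p2 : (dn (dsq c (-(32 / 25) ^ 2, 0)) ρ : ℝ) ≤ ‖z - lam ^ 2‖ ^ 2 := by
      unfold dn
      push_cast
      exact u2
    have p3 : (0 : ℝ) < (dn (dsq c (-(32 / 25) ^ 2, 0)) ρ : ℝ) := by exact_mod_cast c6
    have p4 : ‖lam ^ 2‖ ^ 2 = (32 / 25) ^ 4 := by rw [norm_lam_pow, ← pow_mul]; rfl
    rw [p4]
    have m2 : (m : ℝ) ≤ (32 / 25) ^ 4 := by
      have := (Rat.cast_le (K := ℝ)).mpr c2
      push_cast at this
      exact this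
    have p5 : (((32 / 25) ^ 4 : ℝ) - ‖z‖ ^ 2) / (2 * ‖z - lam ^ 2‖ ^ 2) ≤
        ((32 / 25) ^ 4 - (m : ℝ)) / (2 * (dn (dsq c (-(32 / 25) ^ 2, 0)) ρ : ℝ)) := by
      apply div_le_div₀
      · linarith
      · linarith
      · linarith
      · linarith
    have p6 : (‖z‖ ^ 2 - (32 / 25) ^ 4) / (2 * ‖z - lam ^ 2‖ ^ 2) =
        -((((32 / 25) ^ 4 : ℝ) - ‖z‖ ^ 2) / (2 * ‖z - lam ^ 2‖ ^ 2)) := by ring
    rw [p6]
    push_cast
    linarith
  -- series part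
  have w1 : z / lam ^ 3 = z * toC (0, kap) := by rw [toC_kap, div_eq_mul_inv]
  have w2 : ‖z / lam ^ 3‖ ≤ (R : ℝ) := by
    rw [w1, norm_mul, norm_kap]
    exact hzR
  have w3 : ‖toC (gm c (0, kap))‖ ≤ (R : ℝ) := by
    rw [toC_gm, norm_mul, norm_kap]
    have q1 : ((dsq c (0, 0) * kap ^ 2 : ℚ) : ℝ) ≤ ((R ^ 2 : ℚ) : ℝ) := by exact_mod_cast c7
    push_cast at q1
    rw [dsq_eq, toC_zero, sub_zero, ← mul_pow] at q1
    exact (pow_le_pow_iff_left₀ (by positivity) (by exact_mod_cast hR0) two_ne_zero).mp q1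
  have w4 := Hf_approx w2 (by exact_mod_cast hR1)
  have w5 := pv_lip w2 w3 cs 0
  have w6 : ‖z / lam ^ 3 - toC (gm c (0, kap))‖ ≤ (kap : ℝ) * ρ := by
    rw [w1, toC_gm, ← sub_mul, norm_mul, norm_kap, mul_comm]
    exact mul_le_mul_of_nonneg_left hz hkap.le
  have w7 := horner_spec (gm c (0, kap)) cs 0
  rw [pow_zero, one_mul] at w7
  rw [← w7] at w5
  have w8 : (lipq R 0 cs : ℝ) * ‖z / lam ^ 3 - toC (gm c (0, kap))‖ ≤ D * (kap * ρ) := by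
    have q1 : (lipq R 0 cs : ℝ) ≤ D := by exact_mod_cast hD
    have q0 : (0 : ℚ) ≤ lipq R 0 cs := by
      have hgen : ∀ (l : List (ℚ × ℚ)) (n : ℕ), 0 ≤ lipq R n l := by
        intro l
        induction l with
        | nil => intro n; simp [lipq]
        | cons b bs ih =>
          intro n
          rw [lipq]
          have := ih (n + 1)
          positivity
      exact hgen cs 0
    have q2 : (0 : ℝ) ≤ D := (by exact_mod_cast q0 : (0 : ℝ) ≤ (lipq R 0 cs : ℝ)).trans q1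
    exact mul_le_mul q1 w6 (norm_nonneg _) q2
  have w9 : ‖Hf (z / lam ^ 3) - toC (horner (gm c (0, kap)) cs)‖ ≤
      (kap : ℝ) * ρ * D + tl := by
    have e : Hf (z / lam ^ 3) - toC (horner (gm c (0, kap)) cs) =
        (Hf (z / lam ^ 3) - pv (z / lam ^ 3) 0 cs) +
        (pv (z / lam ^ 3) 0 cs - toC (horner (gm c (0, kap)) cs)) := by ring
    rw [e]
    refine (norm_add_le _ _).trans ?_
    have q3 : (4 * (R : ℝ) ^ 17 / (1 - R) + 1 / 3000) ≤ tl := by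
      have := (Rat.cast_le (K := ℝ)).mpr htl
      push_cast at this
      exact this
    have q4 := w5.trans w8
    linarith
  have w10 : (Hf (z / lam ^ 3)).re ≤ ((horner (gm c (0, kap)) cs).1 : ℝ) +
      ((kap : ℝ) * ρ * D + tl) := by
    have q1 := (Complex.re_le_norm (Hf (z / lam ^ 3) - toC (horner (gm c (0, kap)) cs))).trans w9
    have q2 : (Hf (z / lam ^ 3) - toC (horner (gm c (0, kap)) cs)).re =
        (Hf (z / lam ^ 3)).re - ((horner (gm c (0, kap)) cs).1 : ℝ) := rfl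
    rw [q2] at q1
    linarith
  have fin : ((-1 / 2 + 1 / 10 : ℚ) : ℝ) ≤ (low m c ρ D tl : ℝ) := by exact_mod_cast c8
  refine le_trans (le_trans (le_of_eq (by push_cast; ring)) fin) ?_
  unfold low
  push_cast at b0 b1 b2 ⊢
  have r2 : (2 * (z / (z - lam))).re = 2 * (z / (z - lam)).re := by
    have : (2 : ℂ) = ((2 : ℝ) : ℂ) := by norm_num
    rw [this, Complex.re_ofReal_mul]
  have r4 : (4 * (z / (z - lam ^ 2))).re = 4 * (z / (z - lam ^ 2)).re := by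
    have : (4 : ℂ) = ((4 : ℝ) : ℂ) := by norm_num
    rw [this, Complex.re_ofReal_mul]
  have r8 : (8 * Hf (z / lam ^ 3)).re = 8 * (Hf (z / lam ^ 3)).re := by
    have : (8 : ℂ) = ((8 : ℝ) : ℂ) := by norm_num
    rw [this, Complex.re_ofReal_mul]
  rw [Complex.sub_re, Complex.add_re, Complex.add_re, r2, r4, r8]
  linarith

end Pool.Agent.Helper30.F9
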