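import Pool.Agent.Helper30.F9.Num1

set_option autoImplicit false

namespace Pool.Agent.Helper30.F9

open Real Metric Set MeasureTheory Filter Topology

/-- Check of one arc piece. -/
def PieceChk (T h R D tl y0 : ℚ) (a b : ℤ) : Prop :=
  0 ≤ (a : ℚ) / 4096 ∧ (a : ℚ) / 4096 ≤ (b : ℚ) / 4096 ∧
  ((a : ℚ) / 4096) ^ 2 + (|y0 + h / 2| + h / 2) ^ 2 ≤ T ∧
  T - (y0 + h / 2) ^ 2 + |y0 + h / 2| * h ≤ ((b : ℚ) / 4096) ^ 2 ∧
  Chk T (((a : ℚ) / 4096 + (b : ℚ) / 4096) / 2, y0 + h / 2)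
    (h / 2 + ((b : ℚ) / 4096 - (a : ℚ) / 4096) ^ 2 / (4 * h)) R D tl

instance (T h R D tl y0 : ℚ) (a b : ℤ) : Decidable (PieceChk T h R D tl y0 a b) := by
  unfold PieceChk
  infer_instance

/-- Check of an arc. -/
def Cover (T h R D tl : ℚ) : ℚ → List (ℤ × ℤ) → Prop
  | _, [] => True
  | y0, p :: rest => PieceChk T h R D tl y0 p.1 p.2 ∧ Cover T h R D tl (y0 + h) rest

instance decCover (T h R D tl : ℚ) : (y0 : ℚ) → (l : List (ℤ × ℤ)) →
    Decidable (Cover T h R D tl y0 l)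
  | _, [] => isTrue trivial
  | y0, p :: rest =>
    haveI := decCover T h R D tl (y0 + h) rest
    inferInstanceAs (Decidable (PieceChk T h R D tl y0 p.1 p.2 ∧ Cover T h R D tl (y0 + h) rest))

lemma norm_sq_eq (z : ℂ) : ‖z‖ ^ 2 = z.re ^ 2 + z.im ^ 2 := by
  rw [← Complex.normSq_eq_norm_sq, Complex.normSq_apply]
  ring

lemma piece_sound {T h R D tl y0 : ℚ} {a b : ℤ} (hR0 : 0 ≤ R) (hR1 : R < 1)
    (hD : lipq R 0 cs ≤ D) (htl : 4 * R ^ 17 / (1 - R) + 1 / 3000 ≤ tl) (hh : 0 < h)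
    (hc : PieceChk T h R D tl y0 a b) {z : ℂ} (hT : ‖z‖ ^ 2 = T) (hx : 0 ≤ z.re)
    (hy0 : (y0 : ℝ) ≤ z.im) (hy1 : z.im ≤ y0 + h) (hzR : ‖z‖ * kap ≤ R)
    (h0 : z ≠ 1) (h1 : z ≠ lam) (h2 : z ≠ lam ^ 2) :
    -1 / 2 + 1 / 10 ≤ (Jf z).re := by
  obtain ⟨c1, c2, c3, c4, c5⟩ := hc
  refine chk_sound hR0 hR1 hD htl c5 ?_ hT.ge hzR h0 h1 h2
  set xl : ℚ := (a : ℚ) / 4096 with hxl
  set xh : ℚ := (b : ℚ) / 4096 with hxh
  set yc : ℚ := y0 + h / 2 with hyc
  have d1 : (0 : ℝ) ≤ xl := by exact_mod_cast c1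
  have d2 : (xl : ℝ) ≤ xh := by exact_mod_cast c2
  have d3 : (xl : ℝ) ^ 2 + (|(yc : ℝ)| + h / 2) ^ 2 ≤ T := by
    have := (Rat.cast_le (K := ℝ)).mpr c3
    push_cast at this
    exact this
  have d4 : (T : ℝ) - yc ^ 2 + |(yc : ℝ)| * h ≤ xh ^ 2 := by
    have := (Rat.cast_le (K := ℝ)).mpr c4
    push_cast at this
    exact this
  have hh' : (0 : ℝ) < h := by exact_mod_cast hh
  rw [norm_sq_eq] at hT
  have hyc' : (yc : ℝ) = y0 + h / 2 := by rw [hyc]; push_cast; ring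
  have e1 : |z.im - yc| ≤ h / 2 := by
    rw [abs_le, hyc']
    constructor <;> linarith
  have e2 : |z.im| ≤ |(yc : ℝ)| + h / 2 := by
    have : z.im = yc + (z.im - yc) := by ring
    rw [this]
    exact (abs_add_le _ _).trans (by linarith)
  have e3 : z.im ^ 2 ≤ (|(yc : ℝ)| + h / 2) ^ 2 := by
    rw [← sq_abs z.im]
    exact pow_le_pow_left₀ (abs_nonneg _) e2 2
  have e4 : (yc : ℝ) ^ 2 - |(yc : ℝ)| * h ≤ z.im ^ 2 := by
    have f1 : (yc : ℝ) ^ 2 + 2 * (yc * (z.im - yc)) ≤ z.im ^ 2 := by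
      nlinarith [sq_nonneg (z.im - yc)]
    have f2 : |(yc : ℝ) * (z.im - yc)| ≤ |(yc : ℝ)| * (h / 2) := by
      rw [abs_mul]
      exact mul_le_mul_of_nonneg_left e1 (abs_nonneg _)
    have f3 := neg_le_of_abs_le f2
    linarith
  have e5 : (xl : ℝ) ≤ z.re := by
    have : (xl : ℝ) ^ 2 ≤ z.re ^ 2 := by linarith
    exact (pow_le_pow_iff_left₀ d1 hx two_ne_zero).mp this
  have e6 : z.re ≤ xh := by
    have : z.re ^ 2 ≤ (xh : ℝ) ^ 2 := by linarith
    exact (pow_le_pow_iff_left₀ hx (d1.trans d2) two_ne_zero).mp this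
  have e7 : ‖z - toC ((xl + xh) / 2, yc)‖ ^ 2 ≤
      ((h : ℝ) / 2 + ((xh : ℝ) - xl) ^ 2 / (4 * h)) ^ 2 := by
    rw [norm_sq_eq]
    simp only [toC, Complex.sub_re, Complex.sub_im]
    push_cast
    have g1 : (z.re - ((xl : ℝ) + xh) / 2) ^ 2 ≤ (((xh : ℝ) - xl) / 2) ^ 2 := by
      apply sq_le_sq'
      · linarith
      · linarith
    have g2 : (z.im - (yc : ℝ)) ^ 2 ≤ ((h : ℝ) / 2) ^ 2 := by
      rw [← sq_abs (z.im - (yc : ℝ))]
      exact pow_le_pow_left₀ (abs_nonneg _) e1 2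
    have g3 : ((h : ℝ) / 2 + ((xh : ℝ) - xl) ^ 2 / (4 * h)) ^ 2 =
        ((h : ℝ) / 2) ^ 2 + (((xh : ℝ) - xl) / 2) ^ 2 + (((xh : ℝ) - xl) ^ 2 / (4 * h)) ^ 2 := by
      field_simp
      ring
    rw [g3]
    have g4 : 0 ≤ (((xh : ℝ) - xl) ^ 2 / (4 * h)) ^ 2 := by positivity
    linarith
  have e8 : (0 : ℝ) ≤ (h : ℝ) / 2 + ((xh : ℝ) - xl) ^ 2 / (4 * h) := by positivity
  have e9 := (pow_le_pow_iff_left₀ (norm_nonneg _) e8 two_ne_zero).mp e7
  push_cast
  exact e9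

lemma cover_sound {T h R D tl : ℚ} (hR0 : 0 ≤ R) (hR1 : R < 1)
    (hD : lipq R 0 cs ≤ D) (htl : 4 * R ^ 17 / (1 - R) + 1 / 3000 ≤ tl) (hh : 0 < h)
    {z : ℂ} (hT : ‖z‖ ^ 2 = T) (hx : 0 ≤ z.re) (hzR : ‖z‖ * kap ≤ R)
    (h0 : z ≠ 1) (h1 : z ≠ lam) (h2 : z ≠ lam ^ 2) (l : List (ℤ × ℤ)) (y0 : ℚ)
    (hc : Cover T h R D tl y0 l) (hy0 : (y0 : ℝ) ≤ z.im) (hy1 : z.im < y0 + h * l.length) :
    -1 / 2 + 1 / 10 ≤ (Jf z).re := by
  induction l generalizing y0 with
  | nil => simp at hy1; linarith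
  | cons p rest ih =>
    rw [Cover] at hc
    rcases le_total z.im (y0 + h) with h5 | h5
    · exact piece_sound hR0 hR1 hD htl hh hc.1 hT hx hy0 h5 hzR h0 h1 h2
    · refine ih (y0 + h) hc.2 (by push_cast; exact h5) ?_
      push_cast at hy1 ⊢
      rw [List.length_cons] at hy1
      push_cast at hy1
      linarith

/-- Table for the outer arc. -/
def tOuter : List (ℤ × ℤ) :=
  [(3762, 3800), (3799, 3837), (3836, 3873), (3872, 3908), (3907, 3942), (3941, 3976),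
  (3975, 4009), (4008, 4042), (4041, 4074), (4073, 4106), (4105, 4136), (4135, 4167),
  (4166, 4196), (4195, 4226), (4225, 4254), (4253, 4282), (4281, 4310), (4309, 4337),
  (4336, 4364), (4363, 4390), (4389, 4415), (4414, 4441), (4440, 4465), (4464, 4490),
  (4489, 4513), (4512, 4537), (4536, 4560), (4559, 4582), (4581, 4604), (4603, 4626),
  (4625, 4647), (4646, 4668), (4667, 4689), (4688, 4709), (4708, 4729), (4727, 4748),
  (4747, 4767), (4766, 4785), (4784, 4804), (4803, 4821), (4820, 4839), (4838, 4856),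
  (4855, 4873), (4872, 4889), (4888, 4905), (4904, 4921), (4920, 4937), (4936, 4952),
  (4951, 4966), (4965, 4981), (4980, 4995), (4994, 5009), (5008, 5022), (5021, 5035),
  (5034, 5048), (5047, 5061), (5060, 5073), (5072, 5085), (5084, 5096), (5095, 5108),
  (5107, 5119), (5117, 5129), (5128, 5140), (5139, 5150), (5149, 5159), (5158, 5169),
  (5168, 5178), (5177, 5187), (5186, 5196), (5195, 5204), (5203, 5212), (5211, 5220),
  (5219, 5227), (5226, 5234), (5233, 5241), (5240, 5248), (5247, 5254), (5253, 5260),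
  (5259, 5266), (5265, 5272), (5271, 5277), (5276, 5282), (5281, 5287), (5286, 5291),
  (5290, 5295), (5294, 5299), (5298, 5303), (5302, 5306), (5305, 5309), (5308, 5312),
  (5311, 5315), (5313, 5317), (5316, 5319), (5318, 5321), (5319, 5322), (5321, 5323),
  (5322, 5324), (5323, 5325), (5324, 5325), (5324, 5325), (5324, 5325), (5324, 5325),
  (5323, 5325), (5322, 5324), (5321, 5323), (5319, 5322), (5318, 5321), (5316, 5319),
  (5313, 5317), (5311, 5315), (5308, 5312), (5305, 5309), (5302, 5306), (5298, 5303),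
  (5294, 5299), (5290, 5295), (5286, 5291), (5281, 5287), (5276, 5282), (5271, 5277),
  (5265, 5272), (5259, 5266), (5253, 5260), (5247, 5254), (5240, 5248), (5233, 5241),
  (5226, 5234), (5219, 5227), (5211, 5220), (5203, 5212), (5195, 5204), (5186, 5196),
  (5177, 5187), (5168, 5178), (5158, 5169), (5149, 5159), (5139, 5150), (5128, 5140),
  (5117, 5129), (5107, 5119), (5095, 5108), (5084, 5096), (5072, 5085), (5060, 5073),
  (5047, 5061), (5034, 5048), (5021, 5035), (5008, 5022), (4994, 5009), (4980, 4995),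
  (4965, 4981), (4951, 4966), (4936, 4952), (4920, 4937), (4904, 4921), (4888, 4905),
  (4872, 4889), (4855, 4873), (4838, 4856), (4820, 4839), (4803, 4821), (4784, 4804),
  (4766, 4785), (4747, 4767), (4727, 4748), (4708, 4729), (4688, 4709), (4667, 4689),
  (4646, 4668), (4625, 4647), (4603, 4626), (4581, 4604), (4559, 4582), (4536, 4560),
  (4512, 4537), (4489, 4513), (4464, 4490), (4440, 4465), (4414, 4441), (4389, 4415),
  (4363, 4390), (4336, 4364), (4309, 4337), (4281, 4310), (4253, 4282), (4225, 4254),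
  (4195, 4226), (4166, 4196), (4135, 4167), (4105, 4136), (4073, 4106), (4041, 4074),
  (4008, 4042), (3975, 4009), (3941, 3976), (3907, 3942), (3872, 3908), (3836, 3873),
  (3799, 3837), (3762, 3800)]

/-- Table for the inner arc. -/
def tInner : List (ℤ × ℤ) :=
  [(2901, 2975), (2974, 3045), (3043, 3111), (3110, 3174), (3173, 3234), (3233, 3292),
  (3290, 3347), (3345, 3399), (3398, 3449), (3448, 3497), (3496, 3542), (3541, 3586),
  (3585, 3627), (3626, 3667), (3666, 3704), (3703, 3740), (3739, 3774), (3773, 3806),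
  (3805, 3837), (3836, 3866), (3865, 3893), (3892, 3919), (3918, 3943), (3942, 3966),
  (3965, 3987), (3986, 4007), (4006, 4025), (4024, 4042), (4041, 4057), (4056, 4071),
  (4070, 4084), (4083, 4095), (4094, 4105), (4104, 4114), (4113, 4121), (4120, 4127),
  (4126, 4132), (4131, 4135), (4134, 4137), (4136, 4138), (4136, 4138), (4134, 4137),
  (4131, 4135), (4126, 4132), (4120, 4127), (4113, 4121), (4104, 4114), (4094, 4105),
  (4083, 4095), (4070, 4084), (4056, 4071), (4041, 4057), (4024, 4042), (4006, 4025),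
  (3986, 4007), (3965, 3987), (3942, 3966), (3918, 3943), (3892, 3919), (3865, 3893),
  (3836, 3866), (3805, 3837), (3773, 3806), (3739, 3774), (3703, 3740), (3666, 3704),
  (3626, 3667), (3585, 3627), (3541, 3586), (3496, 3542), (3448, 3497), (3398, 3449),
  (3345, 3399), (3290, 3347), (3233, 3292), (3173, 3234), (3110, 3174), (3043, 3111),
  (2974, 3045), (2901, 2975)]

lemma cover_outer : Cover (169 / 100) (92 / 10000) (62 / 100) 9 (35 / 10000) (-92 / 100) tOuter := by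
  decide +kernel

lemma cover_inner : Cover (10201 / 10000) (18 / 1000) (482 / 1000) 5 (1 / 1000) (-72 / 100)
    tInner := by
  decide +kernel

lemma lip_outer : lipq (62 / 100) 0 cs ≤ 9 := by decide +kernel

lemma lip_inner : lipq (482 / 1000) 0 cs ≤ 5 := by decide +kernel

end Pool.Agent.Helper30.F9
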