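import Pool.Agent.Helper30.F9.Num2

set_option autoImplicit false

namespace Pool.Agent.Helper30.F9

open Real Metric Set MeasureTheory Filter Topology

lemma ne_of_norm {z p : ℂ} {a : ℝ} (h : ‖z‖ = a) (h' : ‖p‖ ≠ a) : z ≠ p := by
  intro e
  apply h'
  rw [← e, h]

lemma J_outer {z : ℂ} (hz : ‖z‖ = 13 / 10) (h : |z.im| ≤ z.re) :
    -1 / 2 + 1 / 10 ≤ (Jf z).re := by
  have hT : ‖z‖ ^ 2 = ((169 / 100 : ℚ) : ℝ) := by rw [hz]; norm_num
  have h1 : z.im ^ 2 ≤ z.re ^ 2 := by
    rw [← sq_abs z.im]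
    exact pow_le_pow_left₀ (abs_nonneg _) h 2
  have h2 : z.re ^ 2 + z.im ^ 2 = 169 / 100 := by
    rw [← norm_sq_eq, hz]; norm_num
  have h3 : |z.im| < 92 / 100 := by
    apply abs_lt_of_sq_lt_sq _ (by norm_num)
    nlinarith
  rw [abs_lt] at h3
  refine cover_sound (T := 169 / 100) (h := 92 / 10000) (R := 62 / 100) (D := 9)
    (tl := 35 / 10000) (by norm_num) (by norm_num) lip_outer (by norm_num) (by norm_num) hT
    ((abs_nonneg _).trans h) ?_ ?_ ?_ ?_ tOuter (-92 / 100) cover_outer ?_ ?_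
  · rw [hz]
    norm_num [kap]
  · exact ne_of_norm hz (by norm_num)
  · exact ne_of_norm hz (by rw [norm_lam]; norm_num [qr])
  · exact ne_of_norm hz (by rw [norm_lam_pow]; norm_num [qr])
  · push_cast
    linarith
  · have : tOuter.length = 200 := by decide +kernel
    rw [this]
    push_cast
    linarith

lemma J_inner {z : ℂ} (hz : ‖z‖ = 101 / 100) (h : |z.im| ≤ z.re) :
    -1 / 2 + 1 / 10 ≤ (Jf z).re := by
  have hT : ‖z‖ ^ 2 = ((10201 / 10000 : ℚ) : ℝ) := by rw [hz]; norm_num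
  have h1 : z.im ^ 2 ≤ z.re ^ 2 := by
    rw [← sq_abs z.im]
    exact pow_le_pow_left₀ (abs_nonneg _) h 2
  have h2 : z.re ^ 2 + z.im ^ 2 = 10201 / 10000 := by
    rw [← norm_sq_eq, hz]; norm_num
  have h3 : |z.im| < 72 / 100 := by
    apply abs_lt_of_sq_lt_sq _ (by norm_num)
    nlinarith
  rw [abs_lt] at h3
  refine cover_sound (T := 10201 / 10000) (h := 18 / 1000) (R := 482 / 1000) (D := 5)
    (tl := 1 / 1000) (by norm_num) (by norm_num) lip_inner (by norm_num) (by norm_num) hT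
    ((abs_nonneg _).trans h) ?_ ?_ ?_ ?_ tInner (-72 / 100) cover_inner ?_ ?_
  · rw [hz]
    norm_num [kap]
  · exact ne_of_norm hz (by norm_num)
  · exact ne_of_norm hz (by rw [norm_lam]; norm_num [qr])
  · exact ne_of_norm hz (by rw [norm_lam_pow]; norm_num [qr])
  · push_cast
    linarith
  · have : tInner.length = 80 := by decide +kernel
    rw [this]
    push_cast
    linarith

/-- Diagonal check. -/
def DChk (e : ℚ × ℚ) (i : ℕ) : Prop :=
  Chk (max 1 (2 * (7071 / 10000 + i * (531 / 10000)) ^ 2))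
    ((7071 / 10000 + i * (531 / 10000) + 531 / 20000) * e.1,
      (7071 / 10000 + i * (531 / 10000) + 531 / 20000) * e.2)
    (3 / 4 * (531 / 10000)) (62 / 100) 9 (35 / 10000)

instance (e : ℚ × ℚ) (i : ℕ) : Decidable (DChk e i) := by
  unfold DChk
  infer_instance

lemma dchk_all : ∀ i < 4, DChk (1, 1) i ∧ DChk (-1, 1) i ∧ DChk (-1, -1) i ∧ DChk (1, -1) i := by
  decide +kernel

lemma diag_sound {e : ℚ × ℚ} (he1 : e.1 ^ 2 = 1) (he2 : e.2 ^ 2 = 1)
    (hc : ∀ i < 4, DChk e i) {z : ℂ} (s : ℝ) (hre : z.re = s * e.1) (him : z.im = s * e.2)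
    (hs : 0 ≤ s) (h1 : 1 ≤ ‖z‖) (h2 : ‖z‖ ≤ 13 / 10) : -1 / 2 + 1 / 10 ≤ (Jf z).re := by
  have r1 : (e.1 : ℝ) ^ 2 = 1 := by exact_mod_cast he1
  have r2 : (e.2 : ℝ) ^ 2 = 1 := by exact_mod_cast he2
  have hn : ‖z‖ ^ 2 = 2 * s ^ 2 := by
    rw [norm_sq_eq, hre, him, mul_pow, mul_pow, r1, r2]
    ring
  have hs1 : 1 ≤ 2 * s ^ 2 := by
    rw [← hn]
    nlinarith
  have hs2 : 2 * s ^ 2 ≤ 169 / 100 := by
    rw [← hn]
    nlinarith [norm_nonneg z]
  have hs3 : 7071 / 10000 ≤ s := by nlinarith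
  have hs4 : s < 9195 / 10000 := by nlinarith
  -- find the piece
  obtain ⟨i, hi, hi1, hi2⟩ : ∃ i : ℕ, i < 4 ∧ 7071 / 10000 + (i : ℝ) * (531 / 10000) ≤ s ∧
      s ≤ 7071 / 10000 + ((i : ℝ) + 1) * (531 / 10000) := by
    rcases le_total s (7071 / 10000 + 1 * (531 / 10000)) with a1 | a1
    · exact ⟨0, by norm_num, by push_cast; linarith, by push_cast; linarith⟩
    rcases le_total s (7071 / 10000 + 2 * (531 / 10000)) with a2 | a2
    · exact ⟨1, by norm_num, by push_cast; linarith, by push_cast; linarith⟩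
    rcases le_total s (7071 / 10000 + 3 * (531 / 10000)) with a3 | a3
    · exact ⟨2, by norm_num, by push_cast; linarith, by push_cast; linarith⟩
    · exact ⟨3, by norm_num, by push_cast; linarith, by push_cast; linarith⟩
  have hne : ∀ p : ℂ, p.re = 0 ∨ p.im = 0 → z ≠ p := by
    intro p hp hzp
    have hspos : 0 < s := by linarith
    rcases hp with hp | hp
    · rw [← hzp, hre] at hp
      have : s ^ 2 * (e.1 : ℝ) ^ 2 = 0 := by rw [← mul_pow, hp]; norm_num
      rw [r1] at this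
      nlinarith
    · rw [← hzp, him] at hp
      have : s ^ 2 * (e.2 : ℝ) ^ 2 = 0 := by rw [← mul_pow, hp]; norm_num
      rw [r2] at this
      nlinarith
  refine chk_sound (by norm_num) (by norm_num) lip_outer (by norm_num) (hc i hi) ?_ ?_ ?_
    (hne 1 (Or.inr (by simp))) (hne lam (Or.inl (by simp [lam])))
    (hne (lam ^ 2) (Or.inr (by simp [lam, pow_two])))
  · have hsq : ‖z - toC ((7071 / 10000 + i * (531 / 10000) + 531 / 20000) * e.1,
      (7071 / 10000 + i * (531 / 10000) + 531 / 20000) * e.2)‖ ^ 2 ≤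
        (3 / 4 * (531 / 10000)) ^ 2 := by
      rw [norm_sq_eq]
      simp only [toC, Complex.sub_re, Complex.sub_im, hre, him]
      push_cast
      rw [← sub_mul, ← sub_mul, mul_pow, mul_pow, r1, r2]
      have : (s - (7071 / 10000 + (i : ℝ) * (531 / 10000) + 531 / 20000)) ^ 2 ≤
          (531 / 20000) ^ 2 := by
        apply sq_le_sq'
        · linarith
        · linarith
      linarith
    push_cast
    exact (pow_le_pow_iff_left₀ (norm_nonneg _) (by norm_num) two_ne_zero).mp hsq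
  · rw [hn]
    push_cast
    apply max_le hs1
    have : (7071 / 10000 + (i : ℝ) * (531 / 10000)) ^ 2 ≤ s ^ 2 :=
      pow_le_pow_left₀ (by positivity) hi1 2
    linarith
  · have : (kap : ℝ) = 15625 / 32768 := by norm_num [kap]
    rw [this]
    push_cast
    linarith

lemma J_diag {z : ℂ} (h1 : 1 ≤ ‖z‖) (h2 : ‖z‖ ≤ 13 / 10) (h : |z.im| = |z.re|) :
    -1 / 2 + 1 / 10 ≤ (Jf z).re := by
  have hc := dchk_all
  rcases le_total 0 z.re with hr | hr <;> rcases le_total 0 z.im with hi | hi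
  · rw [abs_of_nonneg hr, abs_of_nonneg hi] at h
    exact diag_sound (e := (1, 1)) (by norm_num) (by norm_num) (fun i hi => (hc i hi).1) z.re
      (by simp) (by simp [h]) hr h1 h2
  · rw [abs_of_nonneg hr, abs_of_nonpos hi] at h
    exact diag_sound (e := (1, -1)) (by norm_num) (by norm_num) (fun i hi => (hc i hi).2.2.2) z.re
      (by simp) (by simp; linarith) hr h1 h2
  · rw [abs_of_nonpos hr, abs_of_nonneg hi] at h
    exact diag_sound (e := (-1, 1)) (by norm_num) (by norm_num) (fun i hi => (hc i hi).2.1) (-z.re)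
      (by simp) (by simp; linarith) (by linarith) h1 h2
  · rw [abs_of_nonpos hr, abs_of_nonpos hi] at h
    exact diag_sound (e := (-1, -1)) (by norm_num) (by norm_num) (fun i hi => (hc i hi).2.2.1)
      (-z.re) (by simp) (by simp; linarith) (by linarith) h1 h2

end Pool.Agent.Helper30.F9
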