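import Pool.Agent.Helper30.F9.Num3

set_option autoImplicit false

namespace Pool.Agent.Helper30.F9

open Real Metric Set MeasureTheory Filter Topology

/-- Check for an upper bound of a logarithm. -/
def LChk (c : ℚ × ℚ) (r : ℚ) : Prop := 0 ≤ r ∧ dsq c (0, 0) ≤ (1 + 2 * r / 256) ^ 256

instance (c : ℚ × ℚ) (r : ℚ) : Decidable (LChk c r) := by
  unfold LChk
  infer_instance

lemma lchk_sound {c : ℚ × ℚ} {r : ℚ} (h : LChk c r) : Real.log ‖toC c‖ ≤ r := by
  obtain ⟨h0, h1⟩ := h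
  have hr : (0 : ℝ) ≤ r := by exact_mod_cast h0
  rcases (norm_nonneg (toC c)).eq_or_lt with h2 | h2
  · rw [← h2, Real.log_zero]
    exact hr
  have h3 : ‖toC c‖ ^ 2 ≤ Real.exp (2 * r) := by
    have h4 : ((dsq c (0, 0) : ℚ) : ℝ) ≤ (((1 + 2 * r / 256) ^ 256 : ℚ) : ℝ) := by
      exact_mod_cast h1
    rw [dsq_eq, toC_zero, sub_zero] at h4
    refine h4.trans ?_
    push_cast
    have h5 : (1 + 2 * (r : ℝ) / 256) ≤ Real.exp (2 * r / 256) := by
      have := Real.add_one_le_exp (2 * (r : ℝ) / 256)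
      linarith
    calc (1 + 2 * (r : ℝ) / 256) ^ 256 ≤ Real.exp (2 * r / 256) ^ 256 :=
          pow_le_pow_left₀ (by positivity) h5 _
      _ = Real.exp (2 * r) := by
          rw [← Real.exp_nat_mul]
          congr 1
          push_cast
          ring
  have h6 := Real.log_le_log (by positivity) h3
  rw [Real.log_pow, Real.log_exp] at h6
  push_cast at h6
  linarith

/-- Divided coefficients. -/
def divl : ℕ → List (ℚ × ℚ) → List (ℚ × ℚ)
  | _, [] => []
  | n, b :: bs => (b.1 / (n + 1), b.2 / (n + 1)) :: divl (n + 1) bs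

lemma toC_div (b : ℚ × ℚ) (n : ℕ) : toC (b.1 / (n + 1), b.2 / (n + 1)) = toC b / ((n : ℂ) + 1) := by
  have h : ((n : ℂ) + 1) = (((n : ℝ) + 1 : ℝ) : ℂ) := by push_cast; rfl
  rw [h]
  apply Complex.ext
  · rw [Complex.div_ofReal_re]; simp [toC]
  · rw [Complex.div_ofReal_im]; simp [toC]

lemma divl_length (l : List (ℚ × ℚ)) (n : ℕ) : (divl n l).length = l.length := by
  induction l generalizing n with
  | nil => rfl
  | cons b bs ih => simp [divl, ih]

lemma pvd_approx {δ : ℚ} {w : ℂ} (hw : ‖w‖ ≤ 1) (cs : List (ℚ × ℚ)) (n : ℕ) (h : Good δ n cs) :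
    ‖pv w n (divl n cs) - ∑ i ∈ Finset.range cs.length,
      w ^ (n + i + 1) / ((((n + i : ℕ) : ℂ) + 1) * cf (n + i + 1))‖ ≤ cs.length * (δ : ℝ) := by
  induction cs generalizing n with
  | nil => simp [pv, divl]
  | cons b bs ih =>
    rw [Good] at h
    have h1 := good_head h.1
    have h2 := ih (n + 1) h.2
    rw [List.length_cons, Finset.sum_range_succ', divl, pv, toC_div]
    have e1 : ∑ k ∈ Finset.range bs.length,
        w ^ (n + (k + 1) + 1) / ((((n + (k + 1) : ℕ) : ℂ) + 1) * cf (n + (k + 1) + 1)) =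
        ∑ i ∈ Finset.range bs.length,
        w ^ (n + 1 + i + 1) / ((((n + 1 + i : ℕ) : ℂ) + 1) * cf (n + 1 + i + 1)) := by
      apply Finset.sum_congr rfl
      intro k _
      have : n + (k + 1) = n + 1 + k := by ring
      rw [this]
    rw [e1, add_zero]
    have h0 : ((n : ℂ) + 1) ≠ 0 := Nat.cast_add_one_ne_zero n
    have e2 : toC b / ((n : ℂ) + 1) * w ^ (n + 1) + pv w (n + 1) (divl (n + 1) bs) -
        (∑ i ∈ Finset.range bs.length, w ^ (n + 1 + i + 1) /
          ((((n + 1 + i : ℕ) : ℂ) + 1) * cf (n + 1 + i + 1)) +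
          w ^ (n + 1) / (((n : ℂ) + 1) * cf (n + 1))) =
        (toC b - (cf (n + 1))⁻¹) * w ^ (n + 1) / ((n : ℂ) + 1) + (pv w (n + 1) (divl (n + 1) bs) -
          ∑ i ∈ Finset.range bs.length, w ^ (n + 1 + i + 1) /
            ((((n + 1 + i : ℕ) : ℂ) + 1) * cf (n + 1 + i + 1))) := by
      rw [div_eq_mul_inv (w ^ (n + 1)), mul_inv]
      ring
    rw [e2]
    refine (norm_add_le _ _).trans ?_
    rw [norm_div, norm_mul, norm_pow]
    have h3 : ‖w‖ ^ (n + 1) ≤ 1 := pow_le_one₀ (norm_nonneg _) hw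
    have h4 : ‖toC b - (cf (n + 1))⁻¹‖ * ‖w‖ ^ (n + 1) ≤ δ * 1 :=
      mul_le_mul h1 h3 (by positivity) ((norm_nonneg _).trans h1)
    have h5 : (1 : ℝ) ≤ ‖(n : ℂ) + 1‖ := by
      have : ((n : ℂ) + 1) = ((n + 1 : ℕ) : ℂ) := by push_cast; ring
      rw [this, Complex.norm_natCast]
      push_cast
      linarith [(Nat.cast_nonneg n : (0 : ℝ) ≤ n)]
    have h6 : ‖toC b - (cf (n + 1))⁻¹‖ * ‖w‖ ^ (n + 1) / ‖(n : ℂ) + 1‖ ≤ δ := by
      rw [div_le_iff₀ (by linarith)]
      have h7 : (0 : ℝ) ≤ δ := by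
        have := (norm_nonneg _).trans h1
        exact this
      nlinarith
    refine (add_le_add h6 h2).trans (le_of_eq ?_)
    push_cast
    ring

lemma Lf_tail {w : ℂ} {R : ℝ} (hw : ‖w‖ ≤ R) (hR : R < 1) (N : ℕ) :
    ‖-Lf w - ∑ i ∈ Finset.range N, w ^ (i + 1) / (((i : ℂ) + 1) * cf (i + 1))‖ ≤
      4 * R ^ (N + 1) / (1 - R) := by
  have hR0 : 0 ≤ R := (norm_nonneg _).trans hw
  have ht : ∀ n : ℕ, ‖w ^ (n + 1) / (((n : ℂ) + 1) * cf (n + 1))‖ ≤ 4 * R ^ (n + 1) := by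
    intro n
    refine (Lterm_norm w n).trans ?_
    exact mul_le_mul_of_nonneg_left (pow_le_pow_left₀ (norm_nonneg _) hw _) (by norm_num)
  have hs := Lsum (hw.trans_lt hR)
  have h1 : -Lf w - ∑ i ∈ Finset.range N, w ^ (i + 1) / (((i : ℂ) + 1) * cf (i + 1)) =
      ∑' i : ℕ, w ^ (i + N + 1) / ((((i + N : ℕ) : ℂ) + 1) * cf (i + N + 1)) := by
    have := hs.sum_add_tsum_nat_add N
    unfold Lf
    rw [neg_neg, ← this]
    ring
  rw [h1]
  have h2 : HasSum (fun i : ℕ => 4 * R ^ (N + 1) * R ^ i) (4 * R ^ (N + 1) * (1 - R)⁻¹) :=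
    (hasSum_geometric_of_lt_one hR0 hR).mul_left _
  rw [div_eq_mul_inv]
  apply tsum_of_norm_bounded h2
  intro i
  refine (ht (i + N)).trans (le_of_eq ?_)
  ring

lemma Lf_approx {w : ℂ} {R : ℝ} (hw : ‖w‖ ≤ R) (hR : R < 1) :
    ‖-Lf w - pv w 0 (divl 0 cs)‖ ≤ 4 * R ^ 17 / (1 - R) + 1 / 3000 := by
  have h1 := Lf_tail hw hR 16
  have h2 := pvd_approx (hw.trans hR.le) cs 0 cs_good
  rw [cs_length] at h2
  simp only [zero_add] at h2
  have h3 : -Lf w - pv w 0 (divl 0 cs) =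
      (-Lf w - ∑ i ∈ Finset.range 16, w ^ (i + 1) / (((i : ℂ) + 1) * cf (i + 1))) -
      (pv w 0 (divl 0 cs) -
        ∑ i ∈ Finset.range 16, w ^ (i + 1) / (((i : ℂ) + 1) * cf (i + 1))) := by ring
  rw [h3]
  refine (norm_sub_le _ _).trans ?_
  push_cast at h2
  have h4 : (16 : ℝ) * (1 / 50000) ≤ 1 / 3000 := by norm_num
  linarith

/-- The test point. -/
def tq : ℚ × ℚ := (13 / 10, 0)

/-- The factor `1 - lam ^ j * t`. -/
def fac (j : ℕ) : ℚ × ℚ :=
  (1 - (gm (gpow (0, 32 / 25) j) tq).1, -(gm (gpow (0, 32 / 25) j) tq).2)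

lemma toC_fac (j : ℕ) : toC (fac j) = 1 - lam ^ j * toC tq := by
  have h : lam ^ j * toC tq = toC (gm (gpow (0, 32 / 25) j) tq) := by
    rw [toC_gm, toC_gpow, toC_lam]
  rw [h]
  apply Complex.ext <;> simp [toC, fac]

lemma fac_checks : LChk (fac 1) (67 / 100) ∧ LChk (fac 2) (115 / 100) ∧ LChk (fac 3) (108 / 100) ∧
    LChk (fac 4) (92 / 100) ∧ LChk (fac 5) (154 / 100) ∧ LChk (fac 6) (193 / 100) := by
  decide +kernel

/-- The finite product for `P` at the test point. -/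
def prodq : ℚ × ℚ :=
  gm (gm (-3 / 10, 0) (gpow (1, 0 + 13 / 10 * (25 / 32)) 2)) (gpow (1 + 13 / 10 * (25 / 32) ^ 2, 0) 4)

lemma prod_check : LChk prodq (186 / 100) := by
  decide +kernel

lemma horner_check : (306 : ℚ) / 800 + 35 / 10000 ≤ (horner (gm tq (0, kap)) (divl 0 cs)).1 := by
  decide +kernel

lemma toC_tq : toC tq = ((13 / 10 : ℝ) : ℂ) := by
  apply Complex.ext <;> simp [toC, tq]

lemma V_t2 : Vf ((13 / 10 : ℝ) : ℂ) < 0 := by
  set t : ℂ := ((13 / 10 : ℝ) : ℂ) with ht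
  have hnt : ‖t‖ = 13 / 10 := by
    rw [ht, Complex.norm_real, Real.norm_of_nonneg (by norm_num)]
  have htU : t ∈ UU := by
    show (4 / 5 : ℝ) < ‖t‖
    rw [hnt]; norm_num
  have htP : Pf t ≠ 0 := by
    apply Pf_ne_zero
    intro j hj
    have h1 : ‖t‖ = qr ^ j := by rw [hj, norm_lam_pow]
    rw [hnt] at h1
    rcases j with _ | _ | j
    · norm_num at h1
    · norm_num [qr] at h1
    · have h2 : qr ^ 2 ≤ qr ^ (j + 2) := pow_le_pow_right₀ qr_gt.le (by omega)
      have h3 : (qr : ℝ) ^ 2 = 1024 / 625 := by norm_num [qr]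
      have h4 : j + 1 + 1 = j + 2 := rfl
      rw [h4] at h1
      rw [← h1, h3] at h2
      norm_num at h2
  have h1 := lower_iter htU (by rw [hnt]; norm_num) htP 6
  have h2 := Pf_iter_log htU htP 6
  have h3 : Lk 6 t ≤ 1 / 2 * (67 / 100) + (1 / 4) * (115 / 100) + (1 / 8) * (108 / 100) +
      (1 / 16) * (92 / 100) + (1 / 32) * (154 / 100) + (1 / 64) * (193 / 100) := by
    obtain ⟨f1, f2, f3, f4, f5, f6⟩ := fac_checks
    have g1 := lchk_sound f1
    have g2 := lchk_sound f2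
    have g3 := lchk_sound f3
    have g4 := lchk_sound f4
    have g5 := lchk_sound f5
    have g6 := lchk_sound f6
    rw [toC_fac, toC_tq] at g1 g2 g3 g4 g5 g6
    unfold Lk
    simp only [Finset.sum_range_succ, Finset.sum_range_zero, zero_add]
    push_cast at g1 g2 g3 g4 g5 g6
    norm_num at g1 g2 g3 g4 g5 g6 ⊢
    rw [ht]
    push_cast
    norm_num
    linarith
  have h4 : Real.log ‖Pf t‖ ≤ 186 / 100 - 306 / 100 := by
    have hlt : ‖t‖ < qr ^ 3 := by rw [hnt]; norm_num [qr]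
    have e1 : Pf t = toC prodq * Complex.exp (8 * Lf (t / lam ^ 3)) := by
      rw [Pf_eq hlt]
      unfold Pm
      simp only [Finset.prod_range_succ, Finset.prod_range_zero]
      have hi : lam⁻¹ = toC (0, -25 / 32) := by
        rw [lam_inv]
        apply Complex.ext <;> simp [toC]
        norm_num
      have a1 : toC (1, 0 + 13 / 10 * (25 / 32)) = 1 - t / lam ^ 1 := by
        rw [pow_one, div_eq_mul_inv t, hi, ht]
        apply Complex.ext <;> simp [toC]
        norm_num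
      have a2 : toC (1 + 13 / 10 * (25 / 32) ^ 2, 0) = 1 - t / lam ^ 2 := by
        rw [div_eq_mul_inv t, ← inv_pow, hi, ht, pow_two (toC _)]
        apply Complex.ext <;> simp [toC]
        norm_num
      have a0 : toC (-3 / 10, 0) = 1 - t / lam ^ 0 := by
        rw [pow_zero, ht]
        apply Complex.ext <;> simp [toC]
        norm_num
      unfold prodq
      rw [toC_gm, toC_gm, toC_gpow, toC_gpow, a0, a1, a2]
      norm_num
    have hp0 : toC prodq ≠ 0 := by
      intro h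
      rw [h, zero_mul] at e1
      exact htP e1
    rw [e1, norm_mul, Complex.norm_exp, Real.log_mul (norm_ne_zero_iff.mpr hp0) (Real.exp_pos _).ne',
      Real.log_exp]
    have b1 := lchk_sound prod_check
    have w1 : t / lam ^ 3 = toC (gm tq (0, kap)) := by
      rw [toC_gm, toC_kap, toC_tq, div_eq_mul_inv]
    have w2 : ‖t / lam ^ 3‖ ≤ (62 / 100 : ℝ) := by
      rw [norm_div_lam_pow, hnt]; norm_num [qr]
    have b2 := Lf_approx w2 (by norm_num)
    have w7 := horner_spec (gm tq (0, kap)) (divl 0 cs) 0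
    rw [pow_zero, one_mul] at w7
    rw [w1, ← w7] at b2
    have b3 := (Complex.abs_re_le_norm _).trans b2
    rw [abs_le] at b3
    have b4 := b3.1
    rw [Complex.sub_re, Complex.neg_re] at b4
    have b5 : ((horner (gm tq (0, kap)) (divl 0 cs)).1 : ℝ) =
        (toC (horner (gm tq (0, kap)) (divl 0 cs))).re := rfl
    have b6 := (Rat.cast_le (K := ℝ)).mpr horner_check
    rw [b5] at b6
    push_cast at b6
    have r8 : (8 * Lf (t / lam ^ 3)).re = 8 * (Lf (t / lam ^ 3)).re := by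
      have : (8 : ℂ) = ((8 : ℝ) : ℂ) := by norm_num
      rw [this, Complex.re_ofReal_mul]
    rw [r8, w1]
    push_cast at b1
    have b7 : (4 * (62 / 100 : ℝ) ^ 17 / (1 - 62 / 100) + 1 / 3000) ≤ 35 / 10000 := by norm_num
    linarith
  have h5 : Vf t ≤ Real.log ‖Pf t‖ + Lk 6 t + 10 / 64 := by
    rw [← h2]
    norm_num at h1 ⊢
    linarith
  refine h5.trans_lt ?_
  norm_num at h3 h4 ⊢
  linarith

end Pool.Agent.Helper30.F9
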