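import Mathlib

set_option autoImplicit false

namespace Pool.Agent.Helper30.F9

open Real Metric Set MeasureTheory Filter Topology

/-- The radial ratio. -/
noncomputable def qr : ℝ := 32 / 25

/-- The spiral ratio. -/
noncomputable def lam : ℂ := ⟨0, 32 / 25⟩

lemma norm_lam : ‖lam‖ = qr := by
  have h : lam = ((32 / 25 : ℝ) : ℂ) * Complex.I := by
    apply Complex.ext <;> simp [lam]
  rw [h, norm_mul, Complex.norm_real, Complex.norm_I, mul_one, Real.norm_of_nonneg (by norm_num)]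
  rfl

lemma qr_pos : 0 < qr := by norm_num [qr]

lemma qr_gt : 1 < qr := by norm_num [qr]

lemma lam_ne : lam ≠ 0 := by
  rw [← norm_pos_iff, norm_lam]; exact qr_pos

lemma norm_lam_pow (n : ℕ) : ‖lam ^ n‖ = qr ^ n := by rw [norm_pow, norm_lam]

/-- Coefficient denominators. -/
noncomputable def cf (n : ℕ) : ℂ := 1 - 2 * (lam ^ n)⁻¹

lemma lam_inv : lam⁻¹ = ⟨0, -(25 / 32)⟩ := by
  rw [inv_eq_iff_eq_inv, eq_comm, inv_eq_iff_eq_inv, eq_comm]
  symm
  apply eq_inv_of_mul_eq_one_left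
  apply Complex.ext
  · simp [lam]
  · simp [lam]

lemma cf_norm (n : ℕ) : 1 / 4 ≤ ‖cf n‖ := by
  have key : ∀ n : ℕ, 4 ≤ n → 1 / 4 ≤ ‖cf n‖ := by
    intro n hn
    have h1 : ‖2 * (lam ^ n)⁻¹‖ ≤ 3 / 4 := by
      rw [norm_mul, norm_inv, norm_lam_pow]
      have h2 : qr ^ 4 ≤ qr ^ n := pow_le_pow_right₀ qr_gt.le hn
      have h3 : (qr ^ n)⁻¹ ≤ (qr ^ 4)⁻¹ := inv_anti₀ (pow_pos qr_pos 4) h2
      have h4 : (qr ^ 4)⁻¹ ≤ 3 / 8 := by norm_num [qr]
      have h5 : ‖(2 : ℂ)‖ = 2 := by simp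
      rw [h5]
      linarith
    have h6 : ‖(1 : ℂ)‖ - ‖2 * (lam ^ n)⁻¹‖ ≤ ‖cf n‖ := norm_sub_norm_le _ _
    rw [norm_one] at h6
    linarith
  have hre : ∀ z : ℂ, 1 / 4 ≤ z.re → 1 / 4 ≤ ‖z‖ := fun z hz =>
    hz.trans (Complex.re_le_norm z)
  match n with
  | 0 => simp [cf]; norm_num
  | 1 =>
    apply hre
    simp only [cf, pow_one, lam_inv]
    simp
    norm_num
  | 2 =>
    apply hre
    have : (lam ^ 2)⁻¹ = ⟨-(25 / 32) ^ 2, 0⟩ := by
      rw [← inv_pow, lam_inv, pow_two]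
      apply Complex.ext <;> simp
      norm_num
    simp only [cf, this]
    simp
    norm_num
  | 3 =>
    apply hre
    have : (lam ^ 3)⁻¹ = ⟨0, (25 / 32) ^ 3⟩ := by
      rw [← inv_pow, lam_inv, pow_succ, pow_two]
      apply Complex.ext <;> simp
      norm_num
    simp only [cf, this]
    simp
    norm_num
  | (k + 4) => exact key (k + 4) (by omega)

lemma cf_ne (n : ℕ) : cf n ≠ 0 := by
  rw [← norm_pos_iff]
  linarith [cf_norm n]

/-- The function `L`. -/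
noncomputable def Lf (w : ℂ) : ℂ := -∑' n : ℕ, w ^ (n + 1) / (((n : ℂ) + 1) * cf (n + 1))

lemma Lterm_norm (w : ℂ) (n : ℕ) :
    ‖w ^ (n + 1) / (((n : ℂ) + 1) * cf (n + 1))‖ ≤ 4 * ‖w‖ ^ (n + 1) := by
  rw [norm_div, norm_pow, norm_mul]
  have h1 : (1 : ℝ) ≤ ‖(n : ℂ) + 1‖ := by
    have : ((n : ℂ) + 1) = ((n + 1 : ℕ) : ℂ) := by push_cast; ring
    rw [this, Complex.norm_natCast]
    push_cast
    linarith [(Nat.cast_nonneg n : (0 : ℝ) ≤ n)]
  have h2 := cf_norm (n + 1)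
  rw [div_le_iff₀ (by positivity)]
  have h3 : (1 / 4 : ℝ) ≤ ‖(n : ℂ) + 1‖ * ‖cf (n + 1)‖ := by nlinarith
  have h4 : 0 ≤ ‖w‖ ^ (n + 1) := by positivity
  nlinarith

lemma geom_summable {x : ℝ} (h0 : 0 ≤ x) (h1 : x < 1) : Summable fun n : ℕ => 4 * x ^ (n + 1) := by
  apply Summable.mul_left
  have := (summable_nat_add_iff 1).mpr (summable_geometric_of_lt_one h0 h1)
  exact this

lemma Lsum {w : ℂ} (hw : ‖w‖ < 1) :
    Summable fun n : ℕ => w ^ (n + 1) / (((n : ℂ) + 1) * cf (n + 1)) :=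
  Summable.of_norm_bounded (geom_summable (norm_nonneg _) hw) (Lterm_norm w)

lemma Lf_hasDerivAt {w : ℂ} (hw : ‖w‖ < 1) :
    HasDerivAt Lf (-∑' n : ℕ, w ^ n / cf (n + 1)) w := by
  obtain ⟨ρ, h1, h2⟩ := exists_between hw
  have h0 : 0 ≤ ρ := (norm_nonneg w).trans h1.le
  have key : HasDerivAt (fun w : ℂ => ∑' n : ℕ, w ^ (n + 1) / (((n : ℂ) + 1) * cf (n + 1)))
      (∑' n : ℕ, w ^ n / cf (n + 1)) w := ?_
  · exact key.fun_neg
  refine hasDerivAt_tsum_of_isPreconnected (u := fun n : ℕ => 4 * ρ ^ n) (t := ball (0 : ℂ) ρ)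
    (g := fun n w => w ^ (n + 1) / (((n : ℂ) + 1) * cf (n + 1))) (g' := fun n w => w ^ n / cf (n + 1))
    (y₀ := 0) ?_ isOpen_ball (convex_ball (0 : ℂ) ρ).isPreconnected ?_ ?_ ?_ ?_ ?_
  · exact (summable_geometric_of_lt_one h0 h2).mul_left 4
  · intro n y _
    have h3 : ((n : ℂ) + 1) ≠ 0 := Nat.cast_add_one_ne_zero n
    have h4 := ((hasDerivAt_pow (n + 1) y).div_const (((n : ℂ) + 1) * cf (n + 1)))
    have h5 := cf_ne (n + 1)
    have h6 : y ^ n / cf (n + 1) =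
        ((n + 1 : ℕ) : ℂ) * y ^ (n + 1 - 1) / (((n : ℂ) + 1) * cf (n + 1)) := by
      rw [Nat.add_sub_cancel]
      push_cast
      field_simp
    simp only [h6]
    exact h4
  · intro n y hy
    rw [norm_div, norm_pow]
    have h3 := cf_norm (n + 1)
    have h4 : ‖y‖ ≤ ρ := by
      have := mem_ball_zero_iff.mp hy
      exact this.le
    rw [div_le_iff₀ (by linarith)]
    have h5 : ‖y‖ ^ n ≤ ρ ^ n := pow_le_pow_left₀ (norm_nonneg _) h4 n
    have h6 : 0 ≤ ρ ^ n := by positivity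
    nlinarith
  · have : ‖w‖ < ρ := h1
    simpa using (norm_nonneg w).trans_lt this
  · have : (fun n : ℕ => (0 : ℂ) ^ (n + 1) / (((n : ℂ) + 1) * cf (n + 1))) = fun _ => 0 := by
      funext n
      simp
    rw [this]
    exact summable_zero
  · simpa using h1

lemma Lf_func {w : ℂ} (hw : ‖w‖ < 1) :
    Lf w = 2 * Lf (w / lam) + Complex.log (1 - w) := by
  have h1 : ‖w / lam‖ < 1 := by
    rw [norm_div, norm_lam, div_lt_one qr_pos]
    exact hw.trans qr_gt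
  have h2 := Complex.hasSum_taylorSeries_neg_log hw
  have h3 : HasSum (fun n : ℕ => w ^ (n + 1) / ((n : ℂ) + 1)) (-Complex.log (1 - w)) := by
    have h4 := (hasSum_nat_add_iff' 1).mpr h2
    simpa using h4
  have h5 := (Lsum hw).hasSum
  have h6 := (Lsum h1).hasSum
  have h7 := h5.sub (h6.mul_left 2)
  have h8 : (fun n : ℕ => w ^ (n + 1) / (((n : ℂ) + 1) * cf (n + 1)) -
      2 * ((w / lam) ^ (n + 1) / (((n : ℂ) + 1) * cf (n + 1)))) =
      fun n : ℕ => w ^ (n + 1) / ((n : ℂ) + 1) := by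
    funext n
    have h9 := cf_ne (n + 1)
    have h10 : ((n : ℂ) + 1) ≠ 0 := Nat.cast_add_one_ne_zero n
    have h12 : (w / lam) ^ (n + 1) = w ^ (n + 1) * (lam ^ (n + 1))⁻¹ := by
      rw [div_pow, div_eq_mul_inv]
    have h13 : cf (n + 1) = 1 - 2 * (lam ^ (n + 1))⁻¹ := rfl
    rw [h12]
    calc w ^ (n + 1) / (((n : ℂ) + 1) * cf (n + 1)) -
          2 * (w ^ (n + 1) * (lam ^ (n + 1))⁻¹ / (((n : ℂ) + 1) * cf (n + 1)))
        = w ^ (n + 1) * (1 - 2 * (lam ^ (n + 1))⁻¹) / (((n : ℂ) + 1) * cf (n + 1)) := by ring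
      _ = w ^ (n + 1) * cf (n + 1) / (((n : ℂ) + 1) * cf (n + 1)) := by rw [h13]
      _ = w ^ (n + 1) / ((n : ℂ) + 1) := by field_simp
  rw [h8] at h7
  have h13 := h7.unique h3
  unfold Lf
  linear_combination -h13

/-- Finite stage of the product. -/
noncomputable def Pm (m : ℕ) (z : ℂ) : ℂ :=
  (∏ j ∈ Finset.range m, (1 - z / lam ^ j) ^ (2 ^ j)) * Complex.exp (2 ^ m * Lf (z / lam ^ m))

lemma norm_div_lam_pow (z : ℂ) (m : ℕ) : ‖z / lam ^ m‖ = ‖z‖ / qr ^ m := by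
  rw [norm_div, norm_lam_pow]

lemma Pm_succ {m : ℕ} {z : ℂ} (hz : ‖z‖ < qr ^ m) : Pm (m + 1) z = Pm m z := by
  have h1 : ‖z / lam ^ m‖ < 1 := by
    rw [norm_div_lam_pow, div_lt_one (pow_pos qr_pos m)]
    exact hz
  have h2 := Lf_func h1
  have h3 : (1 - z / lam ^ m) ≠ 0 := by
    intro h
    have : z / lam ^ m = 1 := by linear_combination -h
    rw [this, norm_one] at h1
    exact lt_irrefl _ h1
  unfold Pm
  rw [Finset.prod_range_succ, h2, mul_assoc]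
  congr 1
  have h4 : z / lam ^ (m + 1) = z / lam ^ m / lam := by
    rw [pow_succ, div_div]
  rw [h4]
  have h5 : (2 : ℂ) ^ m * (2 * Lf (z / lam ^ m / lam) + Complex.log (1 - z / lam ^ m)) =
      ((2 ^ m : ℕ) : ℂ) * Complex.log (1 - z / lam ^ m) + 2 ^ (m + 1) * Lf (z / lam ^ m / lam) := by
    push_cast
    ring
  rw [h5, Complex.exp_add, Complex.exp_nat_mul, Complex.exp_log h3]

lemma Pm_add {m : ℕ} {z : ℂ} (hz : ‖z‖ < qr ^ m) (k : ℕ) : Pm (m + k) z = Pm m z := by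
  induction k with
  | zero => rfl
  | succ k ih =>
    rw [← add_assoc, Pm_succ, ih]
    refine hz.trans_le ?_
    exact pow_le_pow_right₀ qr_gt.le (by omega)

lemma exists_idx (z : ℂ) : ∃ m : ℕ, ‖z‖ < qr ^ m := pow_unbounded_of_one_lt _ qr_gt

open Classical in
/-- The stage used at `z`. -/
noncomputable def idx (z : ℂ) : ℕ := Nat.find (exists_idx z)

/-- The entire function with zeros at the powers of `lam`. -/
noncomputable def Pf (z : ℂ) : ℂ := Pm (idx z) z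

lemma Pf_eq {m : ℕ} {z : ℂ} (hz : ‖z‖ < qr ^ m) : Pf z = Pm m z := by
  classical
  have h1 : ‖z‖ < qr ^ idx z := Nat.find_spec (exists_idx z)
  have h2 : idx z ≤ m := Nat.find_min' (exists_idx z) hz
  unfold Pf
  obtain ⟨k, rfl⟩ := Nat.exists_eq_add_of_le h2
  exact (Pm_add h1 k).symm

lemma Pm_differentiableAt {m : ℕ} {z : ℂ} (hz : ‖z‖ < qr ^ m) : DifferentiableAt ℂ (Pm m) z := by
  have h1 : ‖z / lam ^ m‖ < 1 := by
    rw [norm_div_lam_pow, div_lt_one (pow_pos qr_pos m)]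
    exact hz
  unfold Pm
  have h2 : DifferentiableAt ℂ (fun z : ℂ => Lf (z / lam ^ m)) z := by
    have h4 : DifferentiableAt ℂ (fun z : ℂ => z / lam ^ m) z := by fun_prop
    exact DifferentiableAt.fun_comp' z (Lf_hasDerivAt h1).differentiableAt h4
  have h3 : DifferentiableAt ℂ (fun z : ℂ => ∏ j ∈ Finset.range m, (1 - z / lam ^ j) ^ (2 ^ j)) z := by
    fun_prop
  fun_prop

lemma Pf_eventuallyEq {m : ℕ} {z : ℂ} (hz : ‖z‖ < qr ^ m) : Pf =ᶠ[𝓝 z] Pm m := by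
  have h2 : {w : ℂ | ‖w‖ < qr ^ m} ∈ 𝓝 z :=
    (isOpen_lt continuous_norm continuous_const).mem_nhds hz
  filter_upwards [h2] with w hw
  exact Pf_eq hw

lemma Pf_differentiable : Differentiable ℂ Pf := by
  intro z
  obtain ⟨m, hm⟩ := exists_idx z
  exact (Pm_differentiableAt hm).congr_of_eventuallyEq (Pf_eventuallyEq hm)

lemma Pf_func (z : ℂ) : Pf (lam * z) = (1 - lam * z) * Pf z ^ 2 := by
  obtain ⟨m, hm⟩ := exists_idx z
  have h1 : ‖lam * z‖ < qr ^ (m + 1) := by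
    rw [norm_mul, norm_lam, pow_succ, mul_comm]
    exact mul_lt_mul_of_pos_right hm qr_pos
  rw [Pf_eq h1, Pf_eq hm]
  unfold Pm
  rw [Finset.prod_range_succ']
  have h2 : ∀ j : ℕ, lam * z / lam ^ (j + 1) = z / lam ^ j := by
    intro j
    rw [pow_succ]
    have := lam_ne
    field_simp
  simp_rw [h2]
  have h3 : ∀ j : ℕ, (1 - z / lam ^ j) ^ (2 ^ (j + 1)) = ((1 - z / lam ^ j) ^ (2 ^ j)) ^ 2 := by
    intro j
    rw [← pow_mul, ← pow_succ]
  simp_rw [h3]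
  rw [Finset.prod_pow, mul_pow, ← Complex.exp_nat_mul]
  have h4 : (2 : ℂ) ^ (m + 1) * Lf (z / lam ^ m) = ((2 : ℕ) : ℂ) * (2 ^ m * Lf (z / lam ^ m)) := by
    push_cast
    ring
  rw [h4]
  simp
  ring

lemma Pf_eq_zero_iff (z : ℂ) : Pf z = 0 ↔ ∃ j : ℕ, z = lam ^ j := by
  obtain ⟨m, hm⟩ := exists_idx z
  rw [Pf_eq hm]
  unfold Pm
  rw [mul_eq_zero, or_iff_left (Complex.exp_ne_zero _), Finset.prod_eq_zero_iff]
  constructor
  · rintro ⟨j, _, hj⟩
    refine ⟨j, ?_⟩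
    have h1 := pow_eq_zero_iff (pow_ne_zero j (two_ne_zero)) |>.mp hj
    have h2 : z / lam ^ j = 1 := by linear_combination -h1
    have h3 : lam ^ j ≠ 0 := pow_ne_zero _ lam_ne
    field_simp at h2
    exact h2
  · rintro ⟨j, rfl⟩
    have h3 : lam ^ j ≠ 0 := pow_ne_zero _ lam_ne
    refine ⟨j, ?_, ?_⟩
    · rw [Finset.mem_range]
      rw [norm_lam_pow] at hm
      exact (pow_lt_pow_iff_right₀ qr_gt).mp hm
    · rw [div_self h3, sub_self]
      exact zero_pow (pow_ne_zero _ two_ne_zero)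

lemma Pf_ne_zero {z : ℂ} (h : ∀ j : ℕ, z ≠ lam ^ j) : Pf z ≠ 0 := by
  intro h1
  obtain ⟨j, hj⟩ := (Pf_eq_zero_iff z).mp h1
  exact h j hj

end Pool.Agent.Helper30.F9
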