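import Pool.Agent.Helper30.F9.Num4

set_option autoImplicit false

namespace Pool.Agent.Helper30.F9

open Real Metric Set MeasureTheory Filter Topology

/-- Polar point. -/
noncomputable def pt (x θ : ℝ) : ℂ := Complex.exp ((x : ℂ) + (θ : ℂ) * Complex.I)

lemma pt_eq (x θ : ℝ) : pt x θ = (Real.exp x : ℂ) * Complex.exp ((θ : ℂ) * Complex.I) := by
  unfold pt
  rw [Complex.exp_add, Complex.ofReal_exp]

lemma norm_pt (x θ : ℝ) : ‖pt x θ‖ = Real.exp x := by
  rw [pt, Complex.norm_exp]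
  simp

lemma pt_re (x θ : ℝ) : (pt x θ).re = Real.exp x * Real.cos θ := by
  rw [pt, Complex.exp_re]
  simp

lemma pt_im (x θ : ℝ) : (pt x θ).im = Real.exp x * Real.sin θ := by
  rw [pt, Complex.exp_im]
  simp

lemma cos2_nonneg {θ : ℝ} (h : |θ| ≤ π / 4) : 0 ≤ Real.cos θ ∧ Real.sin θ ^ 2 ≤ Real.cos θ ^ 2 := by
  rw [abs_le] at h
  have h1 : 0 ≤ Real.cos θ := Real.cos_nonneg_of_mem_Icc ⟨by linarith [pi_pos], by linarith [pi_pos]⟩
  have h2 : 0 ≤ Real.cos (2 * θ) :=
    Real.cos_nonneg_of_mem_Icc ⟨by linarith [pi_pos], by linarith [pi_pos]⟩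
  rw [Real.cos_two_mul'] at h2
  exact ⟨h1, by linarith⟩

lemma sin_le_cos {θ : ℝ} (h : |θ| ≤ π / 4) : |Real.sin θ| ≤ Real.cos θ := by
  obtain ⟨h1, h2⟩ := cos2_nonneg h
  exact abs_le_of_sq_le_sq h2 h1

lemma pt_sector {x θ : ℝ} (h : |θ| ≤ π / 4) : |(pt x θ).im| ≤ (pt x θ).re := by
  rw [pt_re, pt_im, abs_mul, abs_of_pos (Real.exp_pos x)]
  exact mul_le_mul_of_nonneg_left (sin_le_cos h) (Real.exp_pos x).le

lemma abs_sin_eq_cos {θ : ℝ} (h : |θ| = π / 4) : |Real.sin θ| = |Real.cos θ| := by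
  rcases eq_or_eq_neg_of_abs_eq h with h1 | h1
  · rw [h1, Real.sin_pi_div_four, Real.cos_pi_div_four]
  · rw [h1, Real.sin_neg, Real.cos_neg, Real.sin_pi_div_four, Real.cos_pi_div_four, abs_neg]

lemma lam_pow_norm_cases (j : ℕ) : j = 0 ∨ j = 1 ∨ 1024 / 625 ≤ ‖lam ^ j‖ := by
  rcases j with _ | _ | j
  · exact Or.inl rfl
  · exact Or.inr (Or.inl rfl)
  · right; right
    rw [norm_lam_pow]
    have h2 : qr ^ 2 ≤ qr ^ (j + 2) := pow_le_pow_right₀ qr_gt.le (by omega)
    have h3 : (qr : ℝ) ^ 2 = 1024 / 625 := by norm_num [qr]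
    rw [← h3]
    exact h2

/-- Zero-freeness off the axes. -/
lemma Pf_ne_of_re {z : ℂ} (h1 : ‖z‖ < 1024 / 625) (h2 : ‖z‖ ≠ 1) (h3 : z.re ≠ 0) : Pf z ≠ 0 := by
  apply Pf_ne_zero
  intro j hj
  rcases lam_pow_norm_cases j with h | h | h
  · rw [h, pow_zero] at hj
    apply h2
    rw [hj, norm_one]
  · rw [h, pow_one] at hj
    apply h3
    rw [hj]
    rfl
  · rw [← hj] at h
    linarith

lemma Pf_ne_diag {z : ℂ} (h1 : z ≠ 0) (h : |z.im| = |z.re|) : Pf z ≠ 0 := by
  apply Pf_ne_zero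
  intro j hj
  have key : ∀ j : ℕ, (lam ^ j).re = 0 ∨ (lam ^ j).im = 0 := by
    intro j
    have hl : lam = ((32 / 25 : ℝ) : ℂ) * Complex.I := by
      apply Complex.ext <;> simp [lam]
    rw [hl, mul_pow, ← Complex.ofReal_pow]
    rcases Nat.even_or_odd j with he | ho
    · obtain ⟨m, rfl⟩ := he
      right
      rw [← two_mul, pow_mul Complex.I, Complex.I_sq]
      rcases Nat.even_or_odd m with he | ho
      · rw [he.neg_one_pow]; simp [-Complex.ofReal_pow]
      · rw [ho.neg_one_pow]; simp [-Complex.ofReal_pow]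
    · obtain ⟨m, rfl⟩ := ho
      left
      rw [pow_succ Complex.I, pow_mul Complex.I, Complex.I_sq]
      rcases Nat.even_or_odd m with he | ho
      · rw [he.neg_one_pow]; simp [-Complex.ofReal_pow]
      · rw [ho.neg_one_pow]; simp [-Complex.ofReal_pow]
  apply h1
  rcases key j with h2 | h2
  · rw [← hj] at h2
    rw [h2, abs_zero, abs_eq_zero] at h
    apply Complex.ext <;> simp [h2, h]
  · rw [← hj] at h2
    rw [h2, abs_zero, eq_comm, abs_eq_zero] at h
    apply Complex.ext <;> simp [h2, h]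

lemma Jf_differentiableAt {z : ℂ} (h : Pf z ≠ 0) : DifferentiableAt ℂ Jf z := by
  have h1 : DifferentiableAt ℂ (deriv Pf) z := (Pf_differentiable.analyticAt z).deriv.differentiableAt
  have h2 := Pf_differentiable z
  unfold Jf
  exact differentiableAt_id.mul (h1.div h2 h)

/-- Lower bound for `Re J` on the whole polar rectangle. -/
theorem J_sector {x θ : ℝ} (hx0 : Real.log (101 / 100) ≤ x) (hx1 : x ≤ Real.log (13 / 10))
    (hθ : |θ| ≤ π / 4) : -1 / 2 + 1 / 10 ≤ (Jf (pt x θ)).re := by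
  set U : Set ℂ := Ioo (Real.log (101 / 100)) (Real.log (13 / 10)) ×ℂ Ioo (-(π / 4)) (π / 4) with hU
  have hlog : Real.log (101 / 100) < Real.log (13 / 10) :=
    Real.log_lt_log (by norm_num) (by norm_num)
  have hclU : closure U = Icc (Real.log (101 / 100)) (Real.log (13 / 10)) ×ℂ
      Icc (-(π / 4)) (π / 4) := by
    rw [hU, Complex.closure_reProdIm, closure_Ioo hlog.ne, closure_Ioo (by linarith [pi_pos])]
  have hfrU : frontier U = Icc (Real.log (101 / 100)) (Real.log (13 / 10)) ×ℂ {-(π / 4), π / 4} ∪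
      {Real.log (101 / 100), Real.log (13 / 10)} ×ℂ Icc (-(π / 4)) (π / 4) := by
    rw [hU, Complex.frontier_reProdIm, closure_Ioo hlog.ne, closure_Ioo (by linarith [pi_pos]),
      frontier_Ioo hlog, frontier_Ioo (by linarith [pi_pos])]
  have hbd : Bornology.IsBounded U := (Metric.isBounded_Ioo _ _).reProdIm (Metric.isBounded_Ioo _ _)
  have hexp0 : Real.exp (Real.log (101 / 100)) = 101 / 100 := Real.exp_log (by norm_num)
  have hexp1 : Real.exp (Real.log (13 / 10)) = 13 / 10 := Real.exp_log (by norm_num)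
  set F : ℂ → ℂ := fun w => Complex.exp (-Jf (Complex.exp w)) with hF
  have hwpt : ∀ w : ℂ, Complex.exp w = pt w.re w.im := by
    intro w
    rw [pt, Complex.re_add_im]
  have hdiff : DiffContOnCl ℂ F U := by
    apply DifferentiableOn.diffContOnCl
    rw [hclU]
    intro w hw
    apply DifferentiableAt.differentiableWithinAt
    have hw1 := hw.1
    have hw2 := hw.2
    simp only [Set.mem_preimage, Set.mem_Icc] at hw1 hw2
    have hn : ‖Complex.exp w‖ = Real.exp w.re := Complex.norm_exp w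
    have hn0 : 101 / 100 ≤ ‖Complex.exp w‖ := by
      rw [hn, ← hexp0]; exact Real.exp_le_exp.mpr hw1.1
    have hn1 : ‖Complex.exp w‖ ≤ 13 / 10 := by
      rw [hn, ← hexp1]; exact Real.exp_le_exp.mpr hw1.2
    have hP : Pf (Complex.exp w) ≠ 0 := by
      apply Pf_ne_of_re
      · linarith
      · intro h; linarith
      · rw [hwpt, pt_re]
        have : 0 < Real.cos w.im :=
          Real.cos_pos_of_mem_Ioo ⟨by linarith [pi_pos], by linarith [pi_pos]⟩
        have := Real.exp_pos w.re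
        positivity
    have h1 : DifferentiableAt ℂ (fun w => Jf (Complex.exp w)) w :=
      DifferentiableAt.fun_comp' w (Jf_differentiableAt hP) Complex.differentiableAt_exp
    exact h1.neg.cexp
  have hnorm : ∀ w : ℂ, ‖F w‖ = Real.exp (-(Jf (pt w.re w.im)).re) := by
    intro w
    simp only [hF]
    rw [Complex.norm_exp, hwpt, Complex.neg_re]
  have hfr : ∀ w ∈ frontier U, ‖F w‖ ≤ Real.exp (1 / 2 - 1 / 10) := by
    intro w hw
    rw [hnorm]
    apply Real.exp_le_exp.mpr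
    suffices h : -1 / 2 + 1 / 10 ≤ (Jf (pt w.re w.im)).re by linarith
    rw [hfrU] at hw
    rcases hw with hw | hw
    · have hw1 := hw.1
      have hw2 := hw.2
      simp only [Set.mem_preimage, Set.mem_Icc, Set.mem_insert_iff, Set.mem_singleton_iff] at hw1 hw2
      apply J_diag
      · rw [norm_pt]
        have : Real.exp (Real.log (101 / 100)) ≤ Real.exp w.re := Real.exp_le_exp.mpr hw1.1
        linarith
      · rw [norm_pt, ← hexp1]
        exact Real.exp_le_exp.mpr hw1.2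
      · rw [pt_re, pt_im, abs_mul, abs_mul, abs_sin_eq_cos]
        rcases hw2 with h | h
        · rw [h, abs_neg, abs_of_pos (by linarith [pi_pos])]
        · rw [h, abs_of_pos (by linarith [pi_pos])]
    · have hw1 := hw.1
      have hw2 := hw.2
      simp only [Set.mem_preimage, Set.mem_Icc, Set.mem_insert_iff, Set.mem_singleton_iff] at hw1 hw2
      have hs : |(pt w.re w.im).im| ≤ (pt w.re w.im).re := by
        apply pt_sector
        rw [abs_le]
        exact hw2
      rcases hw1 with h | h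
      · apply J_inner _ hs
        rw [norm_pt, h, hexp0]
      · apply J_outer _ hs
        rw [norm_pt, h, hexp1]
  have hmem : ((x : ℂ) + (θ : ℂ) * Complex.I) ∈ closure U := by
    rw [hclU]
    rw [abs_le] at hθ
    constructor
    · simpa using ⟨hx0, hx1⟩
    · simpa using hθ
  have h2 := Complex.norm_le_of_forall_mem_frontier_norm_le hbd hdiff hfr hmem
  rw [hnorm] at h2
  have h3 := Real.exp_le_exp.mp h2
  simp at h3
  linarith

/-- Radial monotonicity in the sector. -/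
theorem V_sector {x x' θ : ℝ} (hx0 : Real.log (101 / 100) ≤ x) (hxx : x ≤ x')
    (hx1 : x' ≤ Real.log (13 / 10)) (hθ : |θ| ≤ π / 4) :
    1 / 10 * (x' - x) ≤ Vf (pt x' θ) - Vf (pt x θ) := by
  have hω : ‖Complex.exp ((θ : ℂ) * Complex.I)‖ = 1 := Complex.norm_exp_ofReal_mul_I θ
  have hexp0 : Real.exp (Real.log (101 / 100)) = 101 / 100 := Real.exp_log (by norm_num)
  have hexp1 : Real.exp (Real.log (13 / 10)) = 13 / 10 := Real.exp_log (by norm_num)
  rw [pt_eq, pt_eq]
  have hlog0 : 0 ≤ Real.log (101 / 100) := Real.log_nonneg (by norm_num)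
  apply V_mono hω (hlog0.trans hx0) hxx
  · intro u hu
    rw [← pt_eq]
    apply Pf_ne_of_re
    · rw [norm_pt]
      have : Real.exp u ≤ Real.exp (Real.log (13 / 10)) := Real.exp_le_exp.mpr (hu.2.trans hx1)
      rw [hexp1] at this
      linarith
    · rw [norm_pt]
      have : Real.exp (Real.log (101 / 100)) ≤ Real.exp u := Real.exp_le_exp.mpr (hx0.trans hu.1)
      rw [hexp0] at this
      intro h
      linarith
    · rw [pt_re]
      rw [abs_le] at hθ
      have : 0 < Real.cos θ :=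
        Real.cos_pos_of_mem_Ioo ⟨by linarith [pi_pos], by linarith [pi_pos]⟩
      have := Real.exp_pos u
      positivity
  · intro u hu
    rw [← pt_eq]
    exact J_sector (hx0.trans hu.1) (hu.2.trans hx1) hθ

/-- Radial monotonicity on the diagonals. -/
theorem V_diag_mono {ω : ℂ} (hω : ‖ω‖ = 1) (hd : |ω.im| = |ω.re|) {x x' : ℝ} (hx : 0 ≤ x)
    (hxx : x ≤ x') (hx1 : x' ≤ Real.log (13 / 10)) :
    1 / 10 * (x' - x) ≤ Vf ((Real.exp x' : ℂ) * ω) - Vf ((Real.exp x : ℂ) * ω) := by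
  have hexp1 : Real.exp (Real.log (13 / 10)) = 13 / 10 := Real.exp_log (by norm_num)
  have hdd : ∀ u : ℝ, |((Real.exp u : ℂ) * ω).im| = |((Real.exp u : ℂ) * ω).re| := by
    intro u
    rw [Complex.re_ofReal_mul, Complex.im_ofReal_mul, abs_mul, abs_mul, hd]
  have hnn : ∀ u : ℝ, ‖(Real.exp u : ℂ) * ω‖ = Real.exp u := by
    intro u
    rw [norm_mul, hω, mul_one, Complex.norm_real, Real.norm_of_nonneg (Real.exp_pos u).le]
  apply V_mono hω hx hxx
  · intro u _
    apply Pf_ne_diag _ (hdd u)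
    rw [← norm_pos_iff, hnn]
    exact Real.exp_pos u
  · intro u hu
    apply J_diag _ _ (hdd u)
    · rw [hnn]
      exact Real.one_le_exp (hx.trans hu.1)
    · rw [hnn, ← hexp1]
      exact Real.exp_le_exp.mpr (hu.2.trans hx1)

lemma V_diag_step {ω : ℂ} (hω : ‖ω‖ = 1) (hd : |ω.im| = |ω.re|) :
    Vf (Complex.I * ω) < 2 * Vf ω := by
  have hI : ‖Complex.I * ω‖ = 1 := by rw [norm_mul, Complex.norm_I, hω, one_mul]
  have hdI : |(Complex.I * ω).im| = |(Complex.I * ω).re| := by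
    simp [hd]
  have hωU : ω ∈ UU := by
    show (4 / 5 : ℝ) < ‖ω‖
    rw [hω]; norm_num
  have h0 : ω ≠ 0 := by rw [← norm_pos_iff, hω]; norm_num
  have h1 := Vf_lam hωU (Pf_ne_diag h0 hd)
  have hlq : Real.log qr ≤ Real.log (13 / 10) := by
    apply Real.log_le_log qr_pos
    norm_num [qr]
  have hlq0 : 0 < Real.log qr := Real.log_pos qr_gt
  have h2 := V_diag_mono hI hdI (le_refl 0) hlq0.le hlq
  rw [Real.exp_log qr_pos, Real.exp_zero, Complex.ofReal_one, one_mul] at h2
  have h3 : (qr : ℂ) * (Complex.I * ω) = lam * ω := by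
    have hl : lam = (qr : ℂ) * Complex.I := by
      apply Complex.ext <;> simp [lam, qr]
    rw [hl]
    ring
  rw [h3, h1] at h2
  nlinarith

lemma V_diag_unit {ω : ℂ} (hω : ‖ω‖ = 1) (hd : |ω.im| = |ω.re|) : 0 < Vf ω := by
  have hI : ∀ ω : ℂ, ‖ω‖ = 1 → ‖Complex.I * ω‖ = 1 := by
    intro ω h
    rw [norm_mul, Complex.norm_I, h, one_mul]
  have hdI : ∀ ω : ℂ, |ω.im| = |ω.re| → |(Complex.I * ω).im| = |(Complex.I * ω).re| := by
    intro ω h
    simp [h]
  have s0 := V_diag_step hω hd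
  have s1 := V_diag_step (hI _ hω) (hdI _ hd)
  have s2 := V_diag_step (hI _ (hI _ hω)) (hdI _ (hdI _ hd))
  have s3 := V_diag_step (hI _ (hI _ (hI _ hω))) (hdI _ (hdI _ (hdI _ hd)))
  have e : Complex.I * (Complex.I * (Complex.I * (Complex.I * ω))) = ω := by
    have : Complex.I * (Complex.I * (Complex.I * (Complex.I * ω))) = (Complex.I ^ 2) ^ 2 * ω := by
      ring
    rw [this, Complex.I_sq]
    ring
  rw [e] at s3
  linarith

lemma V_diag_pos {z : ℂ} (h1 : 1 ≤ ‖z‖) (h2 : ‖z‖ ≤ 13 / 10) (hd : |z.im| = |z.re|) :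
    0 < Vf z := by
  have h0 : 0 < ‖z‖ := by linarith
  set ω : ℂ := ((‖z‖⁻¹ : ℝ) : ℂ) * z with hω
  have hω1 : ‖ω‖ = 1 := by
    rw [hω, norm_mul, Complex.norm_real, norm_inv, norm_norm, inv_mul_cancel₀ h0.ne']
  have hωd : |ω.im| = |ω.re| := by
    rw [hω, Complex.re_ofReal_mul, Complex.im_ofReal_mul, abs_mul, abs_mul, hd]
  have h3 := V_diag_mono hω1 hωd (le_refl 0) (Real.log_nonneg h1)
    (Real.log_le_log h0 h2)
  rw [Real.exp_log h0, Real.exp_zero, Complex.ofReal_one, one_mul] at h3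
  have e : ((‖z‖ : ℝ) : ℂ) * ω = z := by
    rw [hω, ← mul_assoc, ← Complex.ofReal_mul, mul_inv_cancel₀ h0.ne', Complex.ofReal_one, one_mul]
  rw [e] at h3
  have h4 := V_diag_unit hω1 hωd
  have h5 := Real.log_nonneg h1
  nlinarith

end Pool.Agent.Helper30.F9
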