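import Pool.Agent.Helper30.F9.Sector

set_option autoImplicit false

namespace Pool.Agent.Helper30.F9

open Real Metric Set MeasureTheory Filter Topology

/-- The compact diagonal set. -/
def Dg : Set ℂ := {z : ℂ | 1 ≤ ‖z‖ ∧ ‖z‖ ≤ 13 / 10 ∧ |z.im| = |z.re|}

lemma Dg_compact : IsCompact Dg := by
  apply (isCompact_closedBall (0 : ℂ) (13 / 10)).of_isClosed_subset
  · apply IsClosed.inter (isClosed_le continuous_const continuous_norm)
    apply IsClosed.inter (isClosed_le continuous_norm continuous_const)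
    exact isClosed_eq Complex.continuous_im.abs Complex.continuous_re.abs
  · intro z hz
    simpa using hz.2.1

lemma Dg_nonempty : Dg.Nonempty := by
  refine ⟨⟨3 / 4, 3 / 4⟩, ?_, ?_, rfl⟩
  · rw [← abs_of_nonneg (norm_nonneg _), ← one_le_sq_iff_one_le_abs, norm_sq_eq]
    norm_num
  · refine (pow_le_pow_iff_left₀ (norm_nonneg _) (by norm_num) two_ne_zero).mp ?_
    rw [norm_sq_eq]
    norm_num

/-- Uniform positivity near the diagonals. -/
lemma near_diag : ∃ c η : ℝ, 0 < c ∧ 0 < η ∧ ∀ z'' ∈ Dg, ∀ z' : ℂ, ‖z' - z''‖ < η →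
    z' ∈ UU ∧ Pf z' ≠ 0 ∧ c ≤ Vf z' := by
  have hsub : Dg ⊆ UU := by
    intro z hz
    show (4 / 5 : ℝ) < ‖z‖
    linarith [hz.1]
  have hcont : ContinuousOn (fun z => ‖Wf z‖) UU := Wf_diff.continuousOn.norm
  obtain ⟨z0, hz0, hmin⟩ := Dg_compact.exists_isMinOn Dg_nonempty (hcont.mono hsub)
  have hgt : ∀ z ∈ Dg, 1 < ‖Wf z‖ := by
    intro z hz
    have h1 := V_diag_pos hz.1 hz.2.1 hz.2.2
    unfold Vf at h1
    exact (Real.log_pos_iff (norm_nonneg _)).mp h1
  set m := ‖Wf z0‖ with hm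
  have hm1 : 1 < m := hgt z0 hz0
  have hopen : IsOpen (UU ∩ (fun z => ‖Wf z‖) ⁻¹' (Ioi ((1 + m) / 2))) :=
    hcont.isOpen_inter_preimage UU_open isOpen_Ioi
  have hsub2 : Dg ⊆ UU ∩ (fun z => ‖Wf z‖) ⁻¹' (Ioi ((1 + m) / 2)) := by
    intro z hz
    refine ⟨hsub hz, ?_⟩
    have h1 : m ≤ ‖Wf z‖ := hmin hz
    simp only [Set.mem_preimage, Set.mem_Ioi]
    linarith
  obtain ⟨η, hη, hth⟩ := Dg_compact.exists_thickening_subset_open hopen hsub2
  refine ⟨Real.log ((1 + m) / 2), η, Real.log_pos (by linarith), hη, ?_⟩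
  intro z'' hz'' z' hz'
  have h1 : z' ∈ Metric.thickening η Dg := by
    rw [Metric.mem_thickening_iff]
    exact ⟨z'', hz'', by rwa [dist_eq_norm]⟩
  obtain ⟨h2, h3⟩ := hth h1
  simp only [Set.mem_preimage, Set.mem_Ioi] at h3
  refine ⟨h2, ?_, ?_⟩
  · intro h4
    rw [← Wf_eq_zero_iff h2] at h4
    rw [h4, norm_zero] at h3
    linarith
  · unfold Vf
    exact Real.log_le_log (by linarith) h3.le

lemma growth {c : ℝ} (hc : 0 < c) : ∀ᶠ k : ℕ in atTop,
    2 * 2 ^ k ≤ Real.exp (2 ^ k * c - (k + 4)) := by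
  have h11 : Tendsto (fun k : ℕ => (k : ℝ) * (1 / 2 : ℝ) ^ k) atTop (𝓝 0) :=
    tendsto_self_mul_const_pow_of_lt_one (by norm_num) (by norm_num)
  have h12 : Tendsto (fun k : ℕ => 4 * (1 / 2 : ℝ) ^ k) atTop (𝓝 (4 * 0)) :=
    (tendsto_pow_atTop_nhds_zero_of_lt_one (by norm_num) (by norm_num)).const_mul 4
  have h13 := h11.add h12
  simp only [mul_zero, add_zero] at h13
  have h14 := (tendsto_order.mp h13).2 (c / 2) (by linarith)
  have h15 : Tendsto (fun k : ℕ => (2 : ℝ) ^ k) atTop atTop :=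
    tendsto_pow_atTop_atTop_of_one_lt (by norm_num)
  filter_upwards [h14, h15.eventually_ge_atTop (16 / c ^ 2)] with k h1 h2
  have h3 : (2 : ℝ) ^ k * (1 / 2) ^ k = 1 := by rw [← mul_pow]; norm_num
  have h4 : (0 : ℝ) < 2 ^ k := by positivity
  have h5 : (k : ℝ) + 4 ≤ 2 ^ k * (c / 2) := by
    have h6 := mul_le_mul_of_nonneg_left h1.le h4.le
    calc (k : ℝ) + 4 = (2 ^ k * (1 / 2) ^ k) * (k + 4) := by rw [h3]; ring
      _ = 2 ^ k * (k * (1 / 2) ^ k + 4 * (1 / 2) ^ k) := by ring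
      _ ≤ _ := h6
  set y := 2 ^ k * c - (k + 4) with hy
  have h6 : 2 ^ k * (c / 2) ≤ y := by rw [hy]; linarith
  have h7 : 0 ≤ y := (by positivity : (0 : ℝ) ≤ 2 ^ k * (c / 2)).trans h6
  have h8 : y ^ 2 / 2 ≤ Real.exp y := by
    have := Real.quadratic_le_exp_of_nonneg h7
    linarith
  refine le_trans ?_ h8
  have h9 : (2 ^ k * (c / 2)) ^ 2 ≤ y ^ 2 := pow_le_pow_left₀ (by positivity) h6 2
  rw [div_le_iff₀ (by positivity)] at h2
  have h10 : (2 ^ k * (c / 2)) ^ 2 = 2 ^ k * (2 ^ k * c ^ 2) / 4 := by ring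
  nlinarith

lemma diag_div {z : ℂ} (h : |z.im| = |z.re|) (k : ℕ) : |(z / lam ^ k).im| = |(z / lam ^ k).re| := by
  induction k with
  | zero => simpa using h
  | succ k ih =>
    have e : z / lam ^ (k + 1) = (z / lam ^ k) * lam⁻¹ := by
      rw [pow_succ, div_mul_eq_div_div, div_eq_mul_inv _ lam]
    rw [e, lam_inv, Complex.mul_re, Complex.mul_im]
    simp only [mul_zero, zero_sub, add_zero]
    rw [abs_neg, abs_mul, abs_mul, ih]

lemma qr_sq_pow (k : ℕ) : (qr ^ k) ^ 2 ≤ 2 ^ k := by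
  rw [← pow_mul, mul_comm, pow_mul]
  apply pow_le_pow_left₀ (by have := qr_pos; positivity)
  norm_num [qr]

/-- Growth on the strips around the diagonal lines. -/
theorem strip_bound {d : ℂ} (h1 : |d.re| = 1) (h2 : |d.im| = 1) :
    (∀ s : ℂ, |s.im| < 1 / 2 → Pf (d * s) ≠ 0) ∧
    ∃ C : ℝ, 0 < C ∧ ∀ s : ℂ, |s.im| ≤ 1 / 4 → 1 + s.re ^ 2 ≤ C * ‖Pf (d * s)‖ := by
  have r1 : d.re ^ 2 = 1 := by rw [← sq_abs, h1]; norm_num
  have r2 : d.im ^ 2 = 1 := by rw [← sq_abs, h2]; norm_num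
  have hdn : ‖d‖ ^ 2 = 2 := by rw [norm_sq_eq, r1, r2]; norm_num
  have hd0 : d ≠ 0 := by
    rw [← norm_pos_iff]
    have := norm_nonneg d
    nlinarith
  have hdn0 : 0 < ‖d‖ := norm_pos_iff.mpr hd0
  have hdn1 : ‖d‖ ≤ 3 / 2 := by nlinarith
  have hdn2 : 1 ≤ ‖d‖ := by nlinarith
  have hne : ∀ s : ℂ, |s.im| < 1 / 2 → Pf (d * s) ≠ 0 := by
    intro s hs
    apply Pf_ne_zero
    intro j hj
    have e : s = (d.re * (lam ^ j).re + d.im * (lam ^ j).im) / 2 +
        ((d.re * (lam ^ j).im - d.im * (lam ^ j).re) / 2) * Complex.I := by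
      have h3 : s = lam ^ j / d := by rw [← hj]; field_simp
      rw [h3]
      apply Complex.ext
      · rw [Complex.div_re, Complex.normSq_eq_norm_sq, hdn]
        simp [-map_pow]
        ring
      · rw [Complex.div_im, Complex.normSq_eq_norm_sq, hdn]
        simp [-map_pow]
        ring
    have e2 : s.im = (d.re * (lam ^ j).im - d.im * (lam ^ j).re) / 2 := by
      rw [e]
      simp [-map_pow]
    have hn : ‖lam ^ j‖ ^ 2 = (lam ^ j).re ^ 2 + (lam ^ j).im ^ 2 := norm_sq_eq _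
    have hz : (lam ^ j).re * (lam ^ j).im = 0 := by
      have key : ∀ j : ℕ, (lam ^ j).re * (lam ^ j).im = 0 := by
        intro j
        induction j with
        | zero => simp
        | succ j ih =>
          rw [pow_succ, Complex.mul_re, Complex.mul_im]
          simp only [lam, mul_zero, zero_sub, add_zero] at ih ⊢
          linear_combination (-(32 / 25 : ℝ) ^ 2) * ih
      exact key j
    have h4 : s.im ^ 2 = ‖lam ^ j‖ ^ 2 / 4 := by
      rw [e2, hn]
      linear_combination ((lam ^ j).im ^ 2 / 4) * r1 + ((lam ^ j).re ^ 2 / 4) * r2 -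
        (d.re * d.im / 2) * hz
    have h5 : 1 ≤ ‖lam ^ j‖ := by
      rw [norm_lam_pow]
      exact one_le_pow₀ qr_gt.le
    have h6 : s.im ^ 2 < (1 / 2) ^ 2 := by
      rw [← sq_abs]
      exact pow_lt_pow_left₀ hs (abs_nonneg _) two_ne_zero
    nlinarith
  refine ⟨hne, ?_⟩
  obtain ⟨c, η, hc, hη, hnear⟩ := near_diag
  have hq : Tendsto (fun k : ℕ => (1 / 2 : ℝ) * (qr⁻¹) ^ k) atTop (𝓝 ((1 / 2 : ℝ) * 0)) :=
    (tendsto_pow_atTop_nhds_zero_of_lt_one (inv_nonneg.mpr qr_pos.le)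
      (inv_lt_one_of_one_lt₀ qr_gt)).const_mul _
  rw [mul_zero] at hq
  have hq' := (tendsto_order.mp hq).2 η hη
  obtain ⟨k1, hk1⟩ := eventually_atTop.mp ((growth hc).and hq')
  -- large part
  have hlarge : ∀ s : ℂ, |s.im| ≤ 1 / 4 → qr ^ k1 ≤ ‖d‖ * |s.re| →
      1 + s.re ^ 2 ≤ ‖Pf (d * s)‖ := by
    intro s hs hbig
    have hbig1 : 1 ≤ ‖d‖ * |s.re| := (one_le_pow₀ qr_gt.le).trans hbig
    obtain ⟨k, hk, hk'⟩ := exists_nat_pow_near hbig1 qr_gt
    have hkk : k1 ≤ k := by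
      have : qr ^ k1 < qr ^ (k + 1) := hbig.trans_lt hk'
      have := (pow_lt_pow_iff_right₀ qr_gt).mp this
      omega
    obtain ⟨g1, g2⟩ := hk1 k hkk
    have hqk : 0 < qr ^ k := pow_pos qr_pos k
    set z'' : ℂ := d * (s.re : ℂ) / lam ^ k with hz''
    set z' : ℂ := d * s / lam ^ k with hz'
    have hnz'' : ‖z''‖ = ‖d‖ * |s.re| / qr ^ k := by
      rw [hz'', norm_div_lam_pow, norm_mul, Complex.norm_real, Real.norm_eq_abs]
    have hDg : z'' ∈ Dg := by
      refine ⟨?_, ?_, ?_⟩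
      · rw [hnz'', le_div_iff₀ hqk, one_mul]
        exact hk
      · rw [hnz'', div_le_iff₀ hqk]
        have : qr ^ (k + 1) ≤ 13 / 10 * qr ^ k := by
          rw [pow_succ, mul_comm]
          apply mul_le_mul_of_nonneg_right _ hqk.le
          norm_num [qr]
        linarith
      · apply diag_div
        rw [mul_comm, Complex.re_ofReal_mul, Complex.im_ofReal_mul, abs_mul, abs_mul, h1, h2]
    have hdist : ‖z' - z''‖ < η := by
      have e : z' - z'' = (d * (s - (s.re : ℂ))) / lam ^ k := by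
        rw [hz', hz'']
        ring
      have e2 : s - (s.re : ℂ) = (s.im : ℂ) * Complex.I := by
        apply Complex.ext <;> simp
      rw [e, e2, norm_div_lam_pow, norm_mul, norm_mul, Complex.norm_I, mul_one, Complex.norm_real,
        Real.norm_eq_abs]
      refine lt_of_le_of_lt ?_ g2
      rw [div_eq_mul_inv, ← inv_pow]
      apply mul_le_mul_of_nonneg_right _ (by have := qr_pos; positivity)
      nlinarith [abs_nonneg s.im]
    obtain ⟨m1, m2, m3⟩ := hnear z'' hDg z' hdist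
    have hz'2 : ‖z'‖ ≤ 2 := by
      have e : z' = z'' + (z' - z'') := by ring
      have e3 : ‖z' - z''‖ ≤ 1 / 2 := by
        have e : z' - z'' = (d * (s - (s.re : ℂ))) / lam ^ k := by
          rw [hz', hz'']
          ring
        have e2 : s - (s.re : ℂ) = (s.im : ℂ) * Complex.I := by
          apply Complex.ext <;> simp
        rw [e, e2, norm_div_lam_pow, norm_mul, norm_mul, Complex.norm_I, mul_one, Complex.norm_real,
          Real.norm_eq_abs, div_le_iff₀ hqk]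
        have : 1 ≤ qr ^ k := one_le_pow₀ qr_gt.le
        nlinarith [abs_nonneg s.im]
      rw [e]
      refine (norm_add_le _ _).trans ?_
      have := hDg.2.1
      linarith
    have hlow := lower_iter m1 hz'2 m2 k
    have e4 : lam ^ k * z' = d * s := by
      rw [hz']
      have := pow_ne_zero k lam_ne
      field_simp
    rw [e4] at hlow
    have hPpos : 0 < ‖Pf (d * s)‖ := norm_pos_iff.mpr (hne s (by linarith))
    have h5 : Real.exp (2 ^ k * c - (k + 4)) ≤ ‖Pf (d * s)‖ := by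
      rw [← Real.le_log_iff_exp_le hPpos]
      have : (2 : ℝ) ^ k * c ≤ 2 ^ k * Vf z' := mul_le_mul_of_nonneg_left m3 (by positivity)
      linarith
    refine le_trans ?_ (g1.trans h5)
    have h6 : (1 : ℝ) ≤ 2 ^ k := one_le_pow₀ (by norm_num)
    have h7 := qr_sq_pow k
    have h8 : (‖d‖ * |s.re|) ^ 2 ≤ (qr ^ (k + 1)) ^ 2 :=
      pow_le_pow_left₀ (by positivity) hk'.le 2
    rw [mul_pow, hdn, sq_abs, pow_succ qr k, mul_pow (qr ^ k)] at h8
    have h9 : (qr : ℝ) ^ 2 = 1024 / 625 := by norm_num [qr]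
    rw [h9] at h8
    nlinarith
  -- compact part
  set K : Set ℂ := Icc (-(qr ^ k1)) (qr ^ k1) ×ℂ Icc (-(1 / 4)) (1 / 4) with hK
  have hKc : IsCompact K := isCompact_Icc.reProdIm isCompact_Icc
  have hKne : ∀ s ∈ K, ‖Pf (d * s)‖ ≠ 0 := by
    intro s hs
    apply norm_ne_zero_iff.mpr
    apply hne
    have h3 := hs.2
    simp only [Set.mem_preimage, Set.mem_Icc] at h3
    rw [abs_lt]
    constructor <;> linarith
  have hcont : ContinuousOn (fun s : ℂ => (1 + s.re ^ 2) / ‖Pf (d * s)‖) K := by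
    apply ContinuousOn.div
    · fun_prop
    · have := Pf_differentiable.continuous
      fun_prop
    · exact hKne
  obtain ⟨C, hC⟩ := hKc.exists_bound_of_continuousOn hcont
  refine ⟨max C 1, by positivity, ?_⟩
  intro s hs
  have hP0 : 0 < ‖Pf (d * s)‖ := norm_pos_iff.mpr (hne s (by linarith))
  rcases le_total (qr ^ k1) (‖d‖ * |s.re|) with h3 | h3
  · refine (hlarge s hs h3).trans ?_
    have : (1 : ℝ) ≤ max C 1 := le_max_right _ _
    nlinarith
  · have hsK : s ∈ K := by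
      constructor
      · simp only [Set.mem_preimage, Set.mem_Icc]
        rw [← abs_le]
        nlinarith [abs_nonneg s.re]
      · simp only [Set.mem_preimage, Set.mem_Icc]
        rw [← abs_le]
        exact hs
    have h4 := hC s hsK
    rw [Real.norm_of_nonneg (by positivity), div_le_iff₀ hP0] at h4
    refine h4.trans ?_
    exact mul_le_mul_of_nonneg_right (le_max_left _ _) hP0.le

end Pool.Agent.Helper30.F9
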