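import Pool.Agent.Helper30.F9.PFun

set_option autoImplicit false

namespace Pool.Agent.Helper30.F9

open Real Metric Set MeasureTheory Filter Topology

/-- The region where `W` is defined. -/
def UU : Set ℂ := {z : ℂ | 4 / 5 < ‖z‖}

lemma UU_open : IsOpen UU := isOpen_lt continuous_const continuous_norm

lemma UU_ne {z : ℂ} (hz : z ∈ UU) : z ≠ 0 := by
  have : (4 / 5 : ℝ) < ‖z‖ := hz
  rw [← norm_pos_iff]
  linarith

lemma inv_bound {z : ℂ} (hz : z ∈ UU) (j : ℕ) : ‖(lam ^ (j + 1) * z)⁻¹‖ ≤ 125 / 128 := by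
  have h0 : (4 / 5 : ℝ) < ‖z‖ := hz
  rw [norm_inv, norm_mul, norm_lam_pow]
  have h1 : qr ^ 1 ≤ qr ^ (j + 1) := pow_le_pow_right₀ qr_gt.le (by omega)
  have h2 : (128 / 125 : ℝ) ≤ qr ^ (j + 1) * ‖z‖ := by
    have : qr ^ 1 = 32 / 25 := by norm_num [qr]
    rw [this] at h1
    nlinarith
  calc (qr ^ (j + 1) * ‖z‖)⁻¹ ≤ (128 / 125 : ℝ)⁻¹ := inv_anti₀ (by norm_num) h2
    _ = 125 / 128 := by norm_num

lemma log_bound {w : ℂ} (hw : ‖w‖ ≤ 125 / 128) : ‖Complex.log (1 - w)‖ ≤ 23 := by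
  have h1 : ‖-w‖ < 1 := by
    rw [norm_neg]; linarith
  have h2 := Complex.norm_log_one_add_le h1
  rw [norm_neg, ← sub_eq_add_neg] at h2
  refine h2.trans ?_
  have h3 : 0 ≤ ‖w‖ := norm_nonneg _
  have h4 : (1 - ‖w‖)⁻¹ ≤ (3 / 128 : ℝ)⁻¹ := inv_anti₀ (by norm_num) (by linarith)
  have h5 : ‖w‖ ^ 2 ≤ 1 := by nlinarith
  have h6 : 0 ≤ (1 - ‖w‖)⁻¹ := inv_nonneg.mpr (by linarith)
  have h7 : ‖w‖ ^ 2 * (1 - ‖w‖)⁻¹ ≤ 1 * (3 / 128 : ℝ)⁻¹ :=
    mul_le_mul h5 h4 h6 (by norm_num)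
  norm_num at h7
  linarith

/-- The correction series. -/
noncomputable def Sf (z : ℂ) : ℂ :=
  ∑' j : ℕ, (1 / 2 : ℂ) ^ (j + 1) * Complex.log (1 - (lam ^ (j + 1) * z)⁻¹)

lemma Sterm_norm {z : ℂ} (hz : z ∈ UU) (j : ℕ) :
    ‖(1 / 2 : ℂ) ^ (j + 1) * Complex.log (1 - (lam ^ (j + 1) * z)⁻¹)‖ ≤
      (1 / 2 : ℝ) ^ (j + 1) * 23 := by
  rw [norm_mul, norm_pow]
  have h1 : ‖(1 / 2 : ℂ)‖ = 1 / 2 := by simp
  rw [h1]
  exact mul_le_mul_of_nonneg_left (log_bound (inv_bound hz j)) (by positivity)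

lemma half_summable : Summable fun j : ℕ => (1 / 2 : ℝ) ^ (j + 1) * 23 := by
  apply Summable.mul_right
  exact (summable_nat_add_iff 1).mpr (summable_geometric_of_lt_one (by norm_num) (by norm_num))

lemma Ssum {z : ℂ} (hz : z ∈ UU) :
    Summable fun j : ℕ => (1 / 2 : ℂ) ^ (j + 1) * Complex.log (1 - (lam ^ (j + 1) * z)⁻¹) :=
  Summable.of_norm_bounded half_summable (Sterm_norm hz)

lemma Sf_diff : DifferentiableOn ℂ Sf UU := by
  refine Complex.differentiableOn_tsum_of_summable_norm half_summable ?_ UU_open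
    (fun j z hz => Sterm_norm hz j)
  intro j z hz
  apply DifferentiableAt.differentiableWithinAt
  have h1 : 1 - (lam ^ (j + 1) * z)⁻¹ ∈ Complex.slitPlane := by
    rw [sub_eq_add_neg]
    apply Complex.mem_slitPlane_of_norm_lt_one
    rw [norm_neg]
    linarith [inv_bound hz j]
  have h2 : lam ^ (j + 1) * z ≠ 0 := mul_ne_zero (pow_ne_zero _ lam_ne) (UU_ne hz)
  have h3 : DifferentiableAt ℂ (fun z : ℂ => 1 - (lam ^ (j + 1) * z)⁻¹) z := by
    apply DifferentiableAt.const_sub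
    apply DifferentiableAt.inv _ h2
    fun_prop
  exact (h3.clog h1).const_mul _

/-- The limiting function. -/
noncomputable def Wf (z : ℂ) : ℂ := ((qr ^ 2 : ℝ) : ℂ) * z * Pf z * Complex.exp (Sf z)

lemma Wf_diff : DifferentiableOn ℂ Wf UU := by
  have h1 := Sf_diff
  have h2 := Pf_differentiable.differentiableOn (s := UU)
  unfold Wf
  fun_prop

/-- Partial sums. -/
noncomputable def Lk (k : ℕ) (z : ℂ) : ℝ :=
  ∑ j ∈ Finset.range k, (1 / 2 : ℝ) ^ (j + 1) * Real.log ‖1 - lam ^ (j + 1) * z‖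

lemma one_sub_ne {z : ℂ} (hz : z ∈ UU) (j : ℕ) : 1 - lam ^ (j + 1) * z ≠ 0 := by
  intro h
  have h1 : lam ^ (j + 1) * z = 1 := by linear_combination -h
  have h2 := inv_bound hz j
  rw [h1] at h2
  norm_num at h2

lemma Pf_succ (k : ℕ) (z : ℂ) :
    Pf (lam ^ (k + 1) * z) = (1 - lam ^ (k + 1) * z) * Pf (lam ^ k * z) ^ 2 := by
  have : lam ^ (k + 1) * z = lam * (lam ^ k * z) := by ring
  rw [this, Pf_func]

lemma Pf_iter_ne {z : ℂ} (hz : z ∈ UU) (hP : Pf z ≠ 0) (k : ℕ) : Pf (lam ^ k * z) ≠ 0 := by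
  induction k with
  | zero => simpa using hP
  | succ k ih =>
    rw [Pf_succ]
    exact mul_ne_zero (one_sub_ne hz k) (pow_ne_zero _ ih)

lemma Pf_iter_log {z : ℂ} (hz : z ∈ UU) (hP : Pf z ≠ 0) (k : ℕ) :
    (1 / 2 : ℝ) ^ k * Real.log ‖Pf (lam ^ k * z)‖ = Real.log ‖Pf z‖ + Lk k z := by
  induction k with
  | zero => simp [Lk]
  | succ k ih =>
    have h1 : ‖1 - lam ^ (k + 1) * z‖ ≠ 0 := norm_ne_zero_iff.mpr (one_sub_ne hz k)
    have h2 : ‖Pf (lam ^ k * z)‖ ≠ 0 := norm_ne_zero_iff.mpr (Pf_iter_ne hz hP k)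
    rw [Pf_succ, norm_mul, norm_pow, Real.log_mul h1 (pow_ne_zero _ h2), Real.log_pow]
    unfold Lk at ih ⊢
    rw [Finset.sum_range_succ, ← add_assoc, ← ih]
    push_cast
    ring

lemma log_term {z : ℂ} (hz : z ∈ UU) (j : ℕ) :
    Real.log ‖1 - lam ^ (j + 1) * z‖ = ((j : ℝ) + 1) * Real.log qr + Real.log ‖z‖ +
      (Complex.log (1 - (lam ^ (j + 1) * z)⁻¹)).re := by
  have h2 : lam ^ (j + 1) * z ≠ 0 := mul_ne_zero (pow_ne_zero _ lam_ne) (UU_ne hz)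
  have h3 : 1 - (lam ^ (j + 1) * z)⁻¹ ≠ 0 := by
    intro h
    have h4 : (lam ^ (j + 1) * z)⁻¹ = 1 := by linear_combination -h
    have h5 := inv_bound hz j
    rw [h4] at h5
    norm_num at h5
  have h6 : 1 - lam ^ (j + 1) * z = -(lam ^ (j + 1) * z) * (1 - (lam ^ (j + 1) * z)⁻¹) := by
    rw [mul_sub, mul_one, neg_mul, mul_inv_cancel₀ h2]
    ring
  rw [h6, norm_mul, Real.log_mul (by simpa using h2) (norm_ne_zero_iff.mpr h3), norm_neg,
    norm_mul, norm_lam_pow, Real.log_mul (pow_pos qr_pos _).ne' (norm_ne_zero_iff.mpr (UU_ne hz)),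
    Real.log_pow, Complex.log_re]
  push_cast
  ring

lemma hasSum_jhalf : HasSum (fun j : ℕ => (1 / 2 : ℝ) ^ (j + 1) * ((j : ℝ) + 1)) 2 := by
  have h1 : HasSum (fun n : ℕ => (n : ℝ) * (1 / 2 : ℝ) ^ n) ((1 / 2) / (1 - 1 / 2) ^ 2) :=
    hasSum_coe_mul_geometric_of_norm_lt_one (by norm_num)
  have h2 := (hasSum_nat_add_iff' 1).mpr h1
  simp only [Finset.range_one, Finset.sum_singleton, Nat.cast_zero, zero_mul, sub_zero] at h2
  norm_num at h2
  refine h2.congr_fun ?_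
  intro j
  ring

lemma hasSum_half : HasSum (fun j : ℕ => (1 / 2 : ℝ) ^ (j + 1)) 1 := by
  have h2 := (hasSum_nat_add_iff' 1).mpr hasSum_geometric_two
  simp only [Finset.range_one, Finset.sum_singleton, pow_zero] at h2
  norm_num at h2
  simpa using h2

lemma Lk_tendsto {z : ℂ} (hz : z ∈ UU) :
    Tendsto (fun k => Lk k z) atTop
      (𝓝 (2 * Real.log qr + Real.log ‖z‖ + (Sf z).re)) := by
  have h1 : HasSum (fun j : ℕ => (1 / 2 : ℝ) ^ (j + 1) *
      (Complex.log (1 - (lam ^ (j + 1) * z)⁻¹)).re) (Sf z).re := by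
    have h2 := Complex.hasSum_re (Ssum hz).hasSum
    have h3 : ∀ j : ℕ, ((1 / 2 : ℂ) ^ (j + 1) * Complex.log (1 - (lam ^ (j + 1) * z)⁻¹)).re =
        (1 / 2 : ℝ) ^ (j + 1) * (Complex.log (1 - (lam ^ (j + 1) * z)⁻¹)).re := by
      intro j
      have h4 : (1 / 2 : ℂ) ^ (j + 1) = (((1 / 2 : ℝ) ^ (j + 1) : ℝ) : ℂ) := by
        push_cast
        rfl
      rw [h4, Complex.re_ofReal_mul]
    simp_rw [h3] at h2
    exact h2
  have h5 := ((hasSum_jhalf.mul_right (Real.log qr)).add (hasSum_half.mul_right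
    (Real.log ‖z‖))).add h1
  have h6 := h5.tendsto_sum_nat
  rw [one_mul] at h6
  refine h6.congr ?_
  intro k
  unfold Lk
  apply Finset.sum_congr rfl
  intro j _
  rw [log_term hz j]
  ring

lemma log_Wf {z : ℂ} (hz : z ∈ UU) (hP : Pf z ≠ 0) :
    Real.log ‖Wf z‖ = Real.log ‖Pf z‖ + (2 * Real.log qr + Real.log ‖z‖ + (Sf z).re) := by
  unfold Wf
  have h1 : ‖((qr ^ 2 : ℝ) : ℂ)‖ = qr ^ 2 := by
    rw [Complex.norm_real, Real.norm_of_nonneg (by have := qr_pos; positivity)]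
  have h2 : (qr ^ 2 : ℝ) ≠ 0 := (pow_pos qr_pos 2).ne'
  have h3 : ‖z‖ ≠ 0 := norm_ne_zero_iff.mpr (UU_ne hz)
  have h4 : ‖Pf z‖ ≠ 0 := norm_ne_zero_iff.mpr hP
  rw [norm_mul, norm_mul, norm_mul, h1, Complex.norm_exp, Real.log_mul (by positivity)
    (Real.exp_pos _).ne', Real.log_mul (by positivity) h4, Real.log_mul h2 h3, Real.log_pow,
    Real.log_exp]
  push_cast
  ring

lemma Wf_eq_zero_iff {z : ℂ} (hz : z ∈ UU) : Wf z = 0 ↔ Pf z = 0 := by
  unfold Wf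
  have h2 := UU_ne hz
  have h3 := Complex.exp_ne_zero (Sf z)
  simp [h2, h3, qr_pos.ne']

/-- The logarithmic potential. -/
noncomputable def Vf (z : ℂ) : ℝ := Real.log ‖Wf z‖

lemma Vf_tendsto' {z : ℂ} (hz : z ∈ UU) (hP : Pf z ≠ 0) :
    Tendsto (fun k : ℕ => Real.log ‖Pf z‖ + Lk k z) atTop (𝓝 (Vf z)) := by
  unfold Vf
  rw [log_Wf hz hP]
  exact (Lk_tendsto hz).const_add _

lemma Vf_tendsto {z : ℂ} (hz : z ∈ UU) (hP : Pf z ≠ 0) :
    Tendsto (fun k : ℕ => (1 / 2 : ℝ) ^ k * Real.log ‖Pf (lam ^ k * z)‖) atTop (𝓝 (Vf z)) := by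
  simp_rw [Pf_iter_log hz hP]
  exact Vf_tendsto' hz hP

lemma lam_mul_mem {z : ℂ} (hz : z ∈ UU) : lam * z ∈ UU := by
  have h0 : (4 / 5 : ℝ) < ‖z‖ := hz
  show (4 / 5 : ℝ) < ‖lam * z‖
  rw [norm_mul, norm_lam]
  have := qr_gt
  nlinarith

lemma Vf_lam {z : ℂ} (hz : z ∈ UU) (hP : Pf z ≠ 0) : Vf (lam * z) = 2 * Vf z := by
  have h1 : Pf (lam * z) ≠ 0 := by
    have := Pf_iter_ne hz hP 1
    simpa using this
  have h2 := Vf_tendsto (lam_mul_mem hz) h1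
  have h3 := ((tendsto_add_atTop_iff_nat 1).mpr (Vf_tendsto hz hP)).const_mul 2
  refine tendsto_nhds_unique h2 (h3.congr ?_)
  intro k
  have : lam ^ (k + 1) * z = lam ^ k * (lam * z) := by ring
  rw [this, pow_succ]
  ring

lemma log_qr_le : Real.log qr ≤ 1 := by
  have := Real.log_le_sub_one_of_pos qr_pos
  have h : qr - 1 ≤ 1 := by norm_num [qr]
  linarith

lemma term_bound {z : ℂ} (h2 : ‖z‖ ≤ 2) (j : ℕ) :
    ‖1 - lam ^ (j + 1) * z‖ ≤ Real.exp (j + 3) := by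
  have h3 : ‖1 - lam ^ (j + 1) * z‖ ≤ 1 + qr ^ (j + 1) * 2 := by
    refine (norm_sub_le _ _).trans ?_
    rw [norm_one, norm_mul, norm_lam_pow]
    have : 0 < qr ^ (j + 1) := pow_pos qr_pos _
    nlinarith
  have h4 : 1 ≤ qr ^ (j + 1) := one_le_pow₀ qr_gt.le
  have h5 : qr ^ (j + 1) ≤ Real.exp (j + 1) := by
    have h6 : qr ≤ Real.exp 1 := by
      have := Real.add_one_le_exp (1 : ℝ)
      have h : qr ≤ 1 + 1 := by norm_num [qr]
      linarith
    calc qr ^ (j + 1) ≤ (Real.exp 1) ^ (j + 1) := pow_le_pow_left₀ qr_pos.le h6 _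
      _ = Real.exp (j + 1) := by
        rw [← Real.exp_nat_mul]
        push_cast
        ring_nf
  have h7 : (3 : ℝ) ≤ Real.exp 2 := by
    have := Real.add_one_le_exp (2 : ℝ)
    linarith
  calc ‖1 - lam ^ (j + 1) * z‖ ≤ 3 * qr ^ (j + 1) := by linarith
    _ ≤ Real.exp 2 * Real.exp (j + 1) := mul_le_mul h7 h5 (by positivity) (by positivity)
    _ = Real.exp (j + 3) := by
      rw [← Real.exp_add]
      congr 1
      ring

/-- Lower bound for the iterates. -/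
lemma lower_iter {z : ℂ} (hz : z ∈ UU) (h2 : ‖z‖ ≤ 2) (hP : Pf z ≠ 0) (k : ℕ) :
    2 ^ k * Vf z - (k + 4) ≤ Real.log ‖Pf (lam ^ k * z)‖ := by
  have h3 : Antitone fun k : ℕ => Real.log ‖Pf z‖ + Lk k z + (k + 4) * (1 / 2 : ℝ) ^ k := by
    apply antitone_nat_of_succ_le
    intro k
    unfold Lk
    rw [Finset.sum_range_succ]
    have h4 : Real.log ‖1 - lam ^ (k + 1) * z‖ ≤ k + 3 := by
      have h5 := term_bound h2 k
      have h6 : 0 < ‖1 - lam ^ (k + 1) * z‖ := norm_pos_iff.mpr (one_sub_ne hz k)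
      rwa [← Real.log_le_iff_le_exp h6] at h5
    have h7 : (0 : ℝ) < (1 / 2 : ℝ) ^ (k + 1) := by positivity
    have h8 : (1 / 2 : ℝ) ^ k = 2 * (1 / 2 : ℝ) ^ (k + 1) := by rw [pow_succ]; ring
    rw [h8]
    push_cast
    have h9 := mul_le_mul_of_nonneg_left h4 h7.le
    linarith
  have h10 : Tendsto (fun k : ℕ => Real.log ‖Pf z‖ + Lk k z + (k + 4) * (1 / 2 : ℝ) ^ k) atTop
      (𝓝 (Vf z + 0)) := by
    apply (Vf_tendsto' hz hP).add
    have h11 : Tendsto (fun k : ℕ => (k : ℝ) * (1 / 2 : ℝ) ^ k) atTop (𝓝 0) :=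
      tendsto_self_mul_const_pow_of_lt_one (by norm_num) (by norm_num)
    have h12 : Tendsto (fun k : ℕ => 4 * (1 / 2 : ℝ) ^ k) atTop (𝓝 (4 * 0)) :=
      (tendsto_pow_atTop_nhds_zero_of_lt_one (by norm_num) (by norm_num)).const_mul 4
    have h13 := h11.add h12
    simp only [mul_zero, add_zero] at h13
    refine h13.congr ?_
    intro k
    ring
  rw [add_zero] at h10
  have h14 := h3.le_of_tendsto h10 k
  rw [← Pf_iter_log hz hP k] at h14
  have h15 : (0 : ℝ) < 2 ^ k := by positivity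
  have h16 : (2 : ℝ) ^ k * (1 / 2) ^ k = 1 := by rw [← mul_pow]; norm_num
  have h17 := mul_le_mul_of_nonneg_left h14 h15.le
  calc 2 ^ k * Vf z - (k + 4) ≤ 2 ^ k * ((1 / 2) ^ k * Real.log ‖Pf (lam ^ k * z)‖ +
        (k + 4) * (1 / 2) ^ k) - (k + 4) := by linarith
    _ = (2 ^ k * (1 / 2) ^ k) * Real.log ‖Pf (lam ^ k * z)‖ +
        (k + 4) * (2 ^ k * (1 / 2) ^ k) - (k + 4) := by ring
    _ = Real.log ‖Pf (lam ^ k * z)‖ := by rw [h16]; ring

/-- Upper bound for the iterates. -/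
lemma upper_iter : ∃ C : ℝ, 0 < C ∧ ∀ z : ℂ, ‖z‖ ≤ 2 → ∀ k : ℕ,
    ‖Pf (lam ^ k * z)‖ ≤ Real.exp (2 ^ k * C) := by
  obtain ⟨C, hC⟩ := (isCompact_closedBall (0 : ℂ) 2).exists_bound_of_continuousOn
    Pf_differentiable.continuous.continuousOn
  have hC0 : 0 ≤ C := (norm_nonneg _).trans (hC 0 (by simp))
  refine ⟨C + 4, by linarith, ?_⟩
  intro z hz k
  have key : ‖Pf (lam ^ k * z)‖ ≤ Real.exp (2 ^ k * (C + 4) - k - 4) := by
    induction k with
    | zero =>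
      have h1 := hC z (by simpa using hz)
      simp only [pow_zero, one_mul, Nat.cast_zero, sub_zero]
      have h2 := Real.add_one_le_exp C
      have h3 : C + 4 - 4 = C := by ring
      rw [h3]
      linarith
    | succ k ih =>
      rw [Pf_succ, norm_mul, norm_pow]
      calc ‖1 - lam ^ (k + 1) * z‖ * ‖Pf (lam ^ k * z)‖ ^ 2
          ≤ Real.exp (k + 3) * (Real.exp (2 ^ k * (C + 4) - k - 4)) ^ 2 :=
            mul_le_mul (term_bound hz k) (pow_le_pow_left₀ (norm_nonneg _) ih 2)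
              (by positivity) (by positivity)
        _ = Real.exp ((k + 3) + 2 * (2 ^ k * (C + 4) - k - 4)) := by
            rw [← Real.exp_nat_mul, ← Real.exp_add]
            push_cast
            ring_nf
        _ ≤ _ := by
            apply Real.exp_le_exp.mpr
            push_cast
            have : (2 : ℝ) ^ (k + 1) = 2 * 2 ^ k := by rw [pow_succ]; ring
            rw [this]
            linarith
  refine key.trans (Real.exp_le_exp.mpr ?_)
  have : (0 : ℝ) ≤ k := Nat.cast_nonneg k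
  linarith

end Pool.Agent.Helper30.F9
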